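import Mathlib

/-!
Graphs isomorphic to their line graphs: the definitions used in the statements.
-/

namespace Pool.Agent.P.MP_4d6a7f_co

open SimpleGraph

universe u

/-- The iterated line graphs `F, L F, L (L F), ...`, each with its vertex type. -/
def iter {X : Type u} (F : SimpleGraph X) : ℕ → Σ T : Type u, SimpleGraph T
  | 0 => ⟨X, F⟩
  | n + 1 => ⟨(iter F n).2.edgeSet, (iter F n).2.lineGraph⟩

/-- The maps `L^n c : L^n F → L^(n+1) F` induced by an injective homomorphism `c : F → L F`. -/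
def step {X : Type u} {F : SimpleGraph X} (c : F.Copy F.lineGraph) :
    ∀ n, (iter F n).2.Copy (iter F (n + 1)).2
  | 0 => c
  | n + 1 => (step c n).lineGraph

/-- The direct limit of `F → L F → L (L F) → ...`: each vertex of `L^n F` is identified with its
image in `L^(n+1) F`, and two classes are adjacent if they have adjacent members in some `L^n F`. -/
def lim {X : Type u} {F : SimpleGraph X} (c : F.Copy F.lineGraph) :
    SimpleGraph (Quot fun a b : Σ n, (iter F n).1 => b = ⟨a.1 + 1, step c a.1 a.2⟩) :=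
  fromRel fun a b => ∃ (n : ℕ) (x y : (iter F n).1),
    (iter F n).2.Adj x y ∧ a = Quot.mk _ ⟨n, x⟩ ∧ b = Quot.mk _ ⟨n, y⟩

/-- `Z` is a seed for the maps `s`, `t`. Its points are `π θ n`, the `n`-th point of the thread
`θ`, for `(θ, n)` in a domain `D` whose threads are nonempty initial segments of `ℕ`; two points
coincide exactly when their indices differ by an element of a subgroup `Λ` of `ℤ × ℤ`. The map `s`
moves along the thread, and at the last point of a finite thread it goes to an older point of the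
right grade `θ + n`. The map `t` sends the start of a thread to the start of the next thread, and
`t (s x)` is one of `s (t x)`, `t (t x)` along a thread. -/
def Seed {X : Type u} (s t : X → X) (Z : Set X) : Prop :=
  ∃ (D : ℕ → ℕ → Prop) (Λ : AddSubgroup (ℤ × ℤ)) (π : ℕ → ℕ → X),
    (∀ θ, D θ 0) ∧ (∀ θ n, D θ (n + 1) → D θ n) ∧
    Z = {x | ∃ θ n, D θ n ∧ π θ n = x} ∧
    (∀ θ n θ' n', D θ n → D θ' n' →
      (π θ n = π θ' n' ↔ ((θ : ℤ) - θ', (n : ℤ) - n') ∈ Λ)) ∧
    (∀ θ, t (π θ 0) = π (θ + 1) 0) ∧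
    (∀ θ n, D θ (n + 1) → s (π θ n) = π θ (n + 1) ∧
      (t (π θ (n + 1)) = s (t (π θ n)) ∨ t (π θ (n + 1)) = t (t (π θ n)))) ∧
    ∀ θ n, D θ n → ¬ D θ (n + 1) →
      ∃ θ' n', D θ' n' ∧ n' ≤ n ∧ θ' + n' = θ + n + 1 ∧ s (π θ n) = π θ' n'

/-- `(X, s, t)` is a forest over seeds: level `0` is a disjoint union of seeds, and on the positive
levels `s` keeps the level, `t` lowers it by one and `t (s x)` is one of `s (t x)`, `t (t x)`. -/
def Shaped {X : Type u} (s t : X → X) : Prop :=
  ∃ (lev : X → ℕ) (S : Set (Set X)), S.PairwiseDisjoint id ∧ ⋃₀ S = {x | lev x = 0} ∧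
    (∀ Z ∈ S, Seed s t Z) ∧
    ∀ x, 0 < lev x → lev (s x) = lev x ∧ lev (t x) + 1 = lev x ∧
      (t (s x) = s (t x) ∨ t (s x) = t (t x))

end Pool.Agent.P.MP_4d6a7f_co
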