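import Pool.Agent.P.MP_4d6a7f_co.Grid

/-!
Degree counts, balls, and the distance to the vertices of infinite degree.
-/

namespace Pool.Agent.P.MP_4d6a7f_co

open SimpleGraph Function Set

universe u

variable {V : Type u} {G : SimpleGraph V} {φ : V → Sym2 V} {A B I S : Set V} {a b p q v w : V}

theorem mem_l (h : φ v = s(p, q)) : p ∈ φ v := h ▸ Sym2.mem_mk_left _ _

theorem mem_r (h : φ v = s(p, q)) : q ∈ φ v := h ▸ Sym2.mem_mk_right _ _

theorem mem_or (h : φ v = s(p, q)) (ha : a ∈ φ v) : a = p ∨ a = q := by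
  rwa [h, Sym2.mem_iff] at ha

theorem exists_pair (φ : V → Sym2 V) (v : V) : ∃ p q, φ v = s(p, q) := by
  obtain ⟨⟨p, q⟩, h⟩ := Quot.exists_rep (φ v)
  exact ⟨p, q, h.symm⟩

theorem exists_other' (h : p ∈ φ v) : ∃ a, φ v = s(p, a) := by
  obtain ⟨a, ha⟩ := exists_other h
  exact ⟨a, ha.trans Sym2.eq_swap⟩

theorem Fix.kid_card (H : Fix G φ) (p : V) (Y : Set V) :
    {w | ∃ y ∈ Y, φ w = s(p, y)}.encard = (G.neighborSet p ∩ Y).encard := by
  rw [← H.inj.encard_image, ← (show Injective fun y => s(p, y) from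
    fun _ _ h => Sym2.congr_right.1 h).encard_image]
  congr 1
  ext e
  constructor
  · rintro ⟨w, ⟨y, hy, h⟩, rfl⟩
    exact ⟨y, ⟨H.edge w p y h, hy⟩, h.symm⟩
  · rintro ⟨y, ⟨h, hy⟩, rfl⟩
    obtain ⟨w, hw⟩ := H.surj p y h
    exact ⟨w, ⟨y, hy, hw⟩, hw⟩

/-- The neighbours of `v` are counted by the neighbours of its parents. -/
theorem Fix.nb_card (H : Fix G φ) (h : φ v = s(p, q))
    (hI : ∀ w y, φ w = s(p, y) ∨ φ w = s(q, y) → (w ∈ I ↔ y ∈ I)) :
    (G.neighborSet v ∩ I).encard =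
      (G.neighborSet p ∩ (I \ {q})).encard + (G.neighborSet q ∩ (I \ {p})).encard := by
  have hpq := (H.edge v p q h).ne
  rw [← H.kid_card p, ← H.kid_card q, ← encard_union_eq]
  · congr 1
    ext w
    constructor
    · rintro ⟨hw, hwI⟩
      obtain ⟨hne, z, h1, h2⟩ := (H.adj v w).1 hw
      obtain ⟨y, hy⟩ := exists_other' h2
      rcases mem_or h h1 with rfl | rfl
      · exact Or.inl ⟨y, ⟨(hI w y (Or.inl hy)).1 hwI, fun e => hne (H.inj (by
          rw [h, hy, show y = q from e]))⟩, hy⟩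
      · exact Or.inr ⟨y, ⟨(hI w y (Or.inr hy)).1 hwI, fun e => hne (H.inj (by
          rw [h, hy, show y = p from e, Sym2.eq_swap]))⟩, hy⟩
    · rintro (⟨y, hy, e⟩ | ⟨y, hy, e⟩)
      · refine ⟨(H.adj v w).2 ⟨?_, p, mem_l h, mem_l e⟩, (hI w y (Or.inl e)).2 hy.1⟩
        rintro rfl
        exact hy.2 (Sym2.congr_right.1 (e.symm.trans h))
      · refine ⟨(H.adj v w).2 ⟨?_, q, mem_r h, mem_l e⟩, (hI w y (Or.inr e)).2 hy.1⟩
        rintro rfl
        exact hy.2 (Sym2.congr_right.1 (e.symm.trans (h.trans Sym2.eq_swap)))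
  · refine disjoint_left.2 ?_
    rintro w ⟨y, -, e⟩ ⟨y', hy', e'⟩
    rcases mem_or e' (mem_l e) with h1 | h1
    exacts [hpq h1, hy'.2 h1.symm]

theorem Fix.deg (H : Fix G φ) (h : φ v = s(p, q)) :
    (G.neighborSet v).encard =
      (G.neighborSet p \ {q}).encard + (G.neighborSet q \ {p}).encard := by
  simpa [sdiff_eq] using H.nb_card (I := univ) h (by simp)

/-- A vertex lies in `I` exactly when one of its parents does. -/
def Up (φ : V → Sym2 V) (I : Set V) : Prop := ∀ v, v ∈ I ↔ ∃ p ∈ φ v, p ∈ I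

theorem Up.pair (hI : Up φ I) (h : φ v = s(p, q)) : v ∈ I ↔ p ∈ I ∨ q ∈ I := by
  rw [hI, h]
  simp

theorem Fix.add (H : Fix G φ) (hI : Up φ I) (h : φ v = s(p, q)) (hv : v ∉ I) :
    (G.neighborSet v ∩ I).encard =
      (G.neighborSet p ∩ I).encard + (G.neighborSet q ∩ I).encard := by
  obtain ⟨hp, hq⟩ := not_or.1 ((hI.pair h).not.1 hv)
  rw [H.nb_card h, sdiff_singleton_eq_self hp, sdiff_singleton_eq_self hq]
  rintro w y (e | e) <;> rw [hI.pair e] <;> tauto

theorem Fix.up_inf (H : Fix G φ) : Up φ {v | (G.neighborSet v).Infinite} := fun v => by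
  obtain ⟨p, q, h⟩ := exists_pair φ v
  have := H.deg h
  simp only [h, Sym2.mem_iff, mem_ofPred_eq, exists_eq_or_imp, exists_eq_left]
  have key : ∀ (s : Set V) (a : V), (s \ {a}).Infinite ↔ s.Infinite := fun s a =>
    ⟨fun h => h.mono sdiff_subset, fun h => h.sdiff (finite_singleton a)⟩
  rw [← encard_eq_top_iff, this, ENat.add_eq_top, encard_eq_top_iff, encard_eq_top_iff, key, key]

/-- Balls around a set. -/
def ball (G : SimpleGraph V) (S : Set V) : ℕ → Set V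
  | 0 => S
  | n + 1 => {v | v ∈ ball G S n ∨ ∃ w ∈ ball G S n, G.Adj v w}

theorem ball_mono : Monotone (ball G S) := monotone_nat_of_le_succ fun _ _ h => Or.inl h

theorem ball_all (hc : G.Preconnected) (ha : a ∈ S) (v : V) : ∃ n, v ∈ ball G S n := by
  obtain ⟨c⟩ := hc v a
  induction c with
  | nil => exact ⟨0, ha⟩
  | cons h _ ih =>
    obtain ⟨n, hn⟩ := ih ha
    exact ⟨n + 1, Or.inr ⟨_, hn, h⟩⟩

theorem Fix.pc_ball (H : Fix G φ) (hS : PC φ S) : ∀ n, PC φ (ball G S n)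
  | 0 => hS
  | n + 1 => by
    rintro v (hv | ⟨w, hw, h⟩) p hp
    · exact Or.inl (H.pc_ball hS n v hv p hp)
    · obtain ⟨-, z, h1, h2⟩ := (H.adj v w).1 h
      have h3 := H.pc_ball hS n w hw z h2
      rcases H.eq_or_adj hp h1 with rfl | e
      exacts [Or.inl h3, Or.inr ⟨z, h3, e⟩]

/-- In a connected graph two nonempty sets closed under parents meet. -/
theorem Fix.meet (H : Fix G φ) (hc : G.Preconnected) (hA : PC φ A) (hB : PC φ B) (ha : a ∈ A)
    (hb : b ∈ B) : ∃ x ∈ A, x ∈ B := by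
  obtain ⟨n, hn⟩ := ball_all hc hb a
  induction n generalizing a with
  | zero => exact ⟨a, ha, hn⟩
  | succ n ih =>
    rcases hn with hn | ⟨w, hw, h⟩
    · exact ih ha hn
    · obtain ⟨-, z, h1, h2⟩ := (H.adj a w).1 h
      exact ih (hA a ha z h1) (H.pc_ball hB n w hw z h2)

theorem Fix.up_ball (H : Fix G φ) (hI : Up φ I) : ∀ n, Up φ (ball G I n)
  | 0 => hI
  | n + 1 => fun v => by
    have ih := H.up_ball hI n
    constructor
    · rintro (hv | ⟨w, hw, h⟩)
      · obtain ⟨p, hp, h⟩ := (ih v).1 hv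
        exact ⟨p, hp, Or.inl h⟩
      · obtain ⟨-, z, h1, h2⟩ := (H.adj v w).1 h
        obtain ⟨y, h3, h4⟩ := (ih w).1 hw
        rcases H.eq_or_adj h2 h3 with rfl | e
        exacts [⟨z, h1, Or.inl h4⟩, ⟨z, h1, Or.inr ⟨y, h4, e⟩⟩]
    · rintro ⟨p, hp, h | ⟨y, hy, h⟩⟩
      · exact Or.inl ((ih v).2 ⟨p, hp, h⟩)
      · obtain ⟨w, hw⟩ := H.surj p y h
        have h1 := (ih w).2 ⟨y, mem_r hw, hy⟩
        by_cases e : v = w
        · exact Or.inl (e ▸ h1)
        · exact Or.inr ⟨w, h1, (H.adj v w).2 ⟨e, p, hp, mem_l hw⟩⟩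

/-- The properties of the distance to the set of vertices of infinite degree. -/
structure Dist (G : SimpleGraph V) (φ : V → Sym2 V) (d : V → ℕ) : Prop where
  zero : ∀ v, d v = 0 ↔ (G.neighborSet v).Infinite
  lip : ∀ v w, G.Adj v w → d v ≤ d w + 1
  down : ∀ v k, d v = k + 1 → ∃ w, G.Adj v w ∧ d w = k
  up : ∀ k, Up φ {v | d v ≤ k}

theorem Fix.dist (H : Fix G φ) (hc : G.Preconnected) (ha : (G.neighborSet a).Infinite) :
    ∃ d, Dist G φ d := by
  classical
  have h0 := ball_all (S := {v | (G.neighborSet v).Infinite}) hc ha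
  have h1 : ∀ v k, Nat.find (h0 v) ≤ k ↔ v ∈ ball G {v | (G.neighborSet v).Infinite} k :=
    fun v k => ⟨fun h => ball_mono h (Nat.find_spec (h0 v)), Nat.find_min' (h0 v)⟩
  have h2 : ∀ v w, G.Adj v w → Nat.find (h0 v) ≤ Nat.find (h0 w) + 1 :=
    fun v w h => (h1 _ _).2 (Or.inr ⟨w, Nat.find_spec (h0 w), h⟩)
  refine ⟨fun v => Nat.find (h0 v), fun v => Nat.le_zero.symm.trans (h1 v 0), h2,
    fun v k h => ?_, fun k => ?_⟩
  · rcases (h1 v _).1 h.le with e | ⟨w, hw, e⟩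
    · have := (h1 v k).2 e
      omega
    · have := (h1 w k).2 hw
      have := h2 v w e
      exact ⟨w, e, by omega⟩
  · simp only [h1]
    exact H.up_ball H.up_inf k

variable {d : V → ℕ}

theorem Dist.par (D : Dist G φ d) (h : p ∈ φ v) : d v ≤ d p := (D.up (d p) v).2 ⟨p, h, (le_rfl : d p ≤ d p)⟩

theorem Dist.pc (D : Dist G φ d) (k : ℕ) : PC φ {v | k < d v} :=
  fun _ hv _ hp => lt_of_lt_of_le hv (D.par hp)

theorem Dist.fin (D : Dist G φ d) (h : 0 < d v) (I : Set V) :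
    (G.neighborSet v ∩ I).encard ≠ ⊤ :=
  encard_ne_top_iff.2 ((not_infinite.1 ((D.zero v).not.1 h.ne')).inter_of_left I)

theorem Dist.far (D : Dist G φ d) {k : ℕ} (h : k < d v)
    (h0 : (G.neighborSet v ∩ {v | d v ≤ k}).encard = 0) : k + 1 < d v := by
  by_contra hn
  obtain ⟨w, h1, h2⟩ := D.down v k (by omega)
  rw [encard_eq_zero] at h0
  exact (h0 ▸ ⟨h1, h2.le⟩ : w ∈ (∅ : Set V))

/-- There are vertices far from all vertices of infinite degree. -/
theorem Dist.unbounded (D : Dist G φ d) (H : Fix G φ) (hb : (G.neighborSet b).Finite) :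
    ∀ k, ∃ v, k < d v
  | 0 => ⟨b, Nat.pos_of_ne_zero ((D.zero b).not.2 hb.not_infinite)⟩
  | k + 1 => by
    obtain ⟨v, hv, hm⟩ := (InvImage.wf (fun v => (G.neighborSet v ∩ {v | d v ≤ k}).encard)
      wellFounded_lt).has_min {v | k < d v} (D.unbounded H hb k)
    obtain ⟨p, q, h⟩ := exists_pair φ v
    have h1 := H.add (D.up k) h (not_le.2 (show k < d v from hv))
    have h2 := not_lt.1 (hm p (D.pc k v hv p (mem_l h)))
    have h3 := not_lt.1 (hm q (D.pc k v hv q (mem_r h)))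
    have h4 := D.fin (Nat.zero_lt_of_lt hv) {v | d v ≤ k}
    refine ⟨v, D.far hv ?_⟩
    have h5 := (add_le_add h2 h3).trans h1.ge
    beta_reduce at h5
    generalize (G.neighborSet v ∩ {v | d v ≤ k}).encard = n at h4 h5
    lift n to ℕ using h4
    norm_cast at h5 ⊢
    omega

end Pool.Agent.P.MP_4d6a7f_co
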