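import Pool.Agent.P.MP_4d6a7f_co.Defs

/-!
Comets: rooted trees with a ray attached at the root.
-/

namespace Pool.Agent.P.MP_4d6a7f_co

open SimpleGraph Function

universe u

/-- A comet: a rooted tree whose root `r` has at least two children, with a ray `r, t r, t (t r),
...` attached at the root. The map `t` sends a vertex of the tree to its parent and moves one step
out along the ray. -/
structure Comet (X : Type u) where
  /-- the step towards the end of the ray -/
  t : X → X
  /-- the root -/
  r : X
  reach : ∀ x, ∃ m n, t^[m] x = t^[n] r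
  tail : ∀ n x, t x = t^[n + 1] r → x = t^[n] r
  two : ∃ a b, a ≠ b ∧ t a = r ∧ t b = r

namespace Comet

variable {X : Type u} (C : Comet X)

theorem ray_ne (m k : ℕ) : C.t^[m] C.r ≠ C.t^[m + k + 1] C.r := by
  induction m with
  | zero =>
    intro h
    obtain ⟨a, b, hab, ha, hb⟩ := C.two
    rw [zero_add] at h
    exact hab ((C.tail k a (ha.trans h)).trans (C.tail k b (hb.trans h)).symm)
  | succ m ih =>
    intro h
    rw [iterate_succ_apply', show m + 1 + k + 1 = m + k + 1 + 1 by omega] at h
    exact ih (C.tail _ _ h)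

theorem aper (k : ℕ) (x : X) : C.t^[k + 1] x ≠ x := fun h => by
  obtain ⟨m, n, e⟩ := C.reach x
  refine C.ray_ne n k ?_
  rw [show n + k + 1 = k + 1 + n by omega, iterate_add_apply, ← e, ← iterate_add_apply,
    add_comm, iterate_add_apply, h]

theorem pair_inj : Injective fun x => s(x, C.t x) := fun x y h => by
  rcases Sym2.eq_iff.1 h with h | h
  · exact h.1
  · exact (C.aper 1 x (by simp only [iterate_succ_apply', iterate_zero_apply, h.2, ← h.1])).elim

/-- The tree of a comet: `x` is joined to `t x`. -/
def F : SimpleGraph X := fromRel fun x y => y = C.t x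

theorem adj_t (x : X) : C.F.Adj x (C.t x) := ⟨(C.aper 0 x).symm, Or.inl rfl⟩

/-- The map `x ↦ {x, t x}` from the tree into its line graph. -/
def c : C.F.Copy C.F.lineGraph where
  toHom :=
    { toFun := fun x => ⟨s(x, C.t x), C.adj_t x⟩
      map_rel' := fun {x y} h => lineGraph_adj_iff_exists.2
        ⟨fun e => h.ne (C.pair_inj (Subtype.mk.inj e)), by
          rcases h.2 with rfl | rfl
          · exact ⟨_, Sym2.mem_mk_right _ _, Sym2.mem_mk_left _ _⟩
          · exact ⟨_, Sym2.mem_mk_left _ _, Sym2.mem_mk_right _ _⟩⟩ }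
  injective' := fun _ _ e => C.pair_inj (Subtype.mk.inj e)

end Comet

end Pool.Agent.P.MP_4d6a7f_co
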