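import Pool.Agent.P.MP_4d6a7f_co.FDRay
import Pool.Agent.P.MP_4d6a7f_co.FDDefs

/-!
From a pendant ray to a comet.
-/

namespace Pool.Agent.P.MP_4d6a7f_co

open SimpleGraph Function Set

universe u

variable {V : Type u} {G : SimpleGraph V} {φ : V → Sym2 V} {Z : Set V} {a b p q v w : V}
  {x : ℕ → V}

/-- Recognition of the limit from a sequence of copies. -/
theorem recog_seq {X : Type u} {F : SimpleGraph X} (c : F.Copy F.lineGraph)
    (Φ : G ≃g G.lineGraph) (e : ℕ → F.Copy G)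
    (he : ∀ m x, (Φ (e m x) : Sym2 V) = Sym2.map (e (m + 1)) (c x).1)
    (gen : ∀ v, Cl (fun v => (Φ v : Sym2 V)) {v | ∀ m, v ∈ range (e m)} v) :
    Nonempty (G ≃g lim c) := by
  have st : ∀ n m (x : (iter F n).1),
      stage Φ (e (m + 1)) (n + 1) (step c n x) = stage Φ (e m) n x := fun n => by
    induction n with
    | zero => exact fun m x => Φ.injective (Subtype.ext ((stage_succ Φ _ 0 _).trans (he m x).symm))
    | succ n ih =>
      refine fun m x => Φ.injective (Subtype.ext ?_)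
      rw [stage_succ, stage_succ]
      change Sym2.map _ (Sym2.map (step c n) x.1) = _
      rw [Sym2.map_map]
      congr 1
      exact funext (ih _)
  let f : ℕ → LV c → V := fun m => Quot.lift (fun a => stage Φ (e (m + a.1)) a.1 a.2) (by
    rintro ⟨n, x⟩ _ rfl
    exact (st n _ x).symm)
  have hf : ∀ m n x, f m (io c n x) = stage Φ (e (m + n)) n x := fun _ _ _ => rfl
  have hinj : Injective (f 0) := fun a b h => by
    obtain ⟨n, x, y, rfl, rfl⟩ := common c a b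
    exact congrArg _ ((stage Φ _ (n + 1)).injective h)
  have hsur : ∀ v m, ∃ a, f m a = v := fun v => by
    refine gen v (fun v => ∀ m, ∃ a, f m a = v) (fun v h m => ?_) fun v hv m => ?_
    · obtain ⟨x, rfl⟩ := h m
      exact ⟨io c 0 x, rfl⟩
    obtain ⟨⟨⟨p, q⟩, hpq⟩, h⟩ : ∃ z, z = Φ v := ⟨_, rfl⟩
    beta_reduce at hv
    obtain ⟨a, rfl⟩ := hv p (by rw [← h]; exact Sym2.mem_mk_left _ _) (m + 1)
    obtain ⟨b, rfl⟩ := hv q (by rw [← h]; exact Sym2.mem_mk_right _ _) (m + 1)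
    obtain ⟨n, x, y, rfl, rfl⟩ := common c a b
    refine ⟨io c (n + 2) ⟨s(x, y), (stage_adj Φ _).1 hpq⟩, Φ.injective (Subtype.ext ?_)⟩
    rw [hf, stage_succ, ← h, show m + (n + 2) = m + 1 + (n + 1) by omega]
    rfl
  refine ⟨RelIso.symm ⟨Equiv.ofBijective (f 0) ⟨hinj, fun v => hsur v 0⟩, fun {a b} => ?_⟩⟩
  obtain ⟨n, x, y, rfl, rfl⟩ := common c a b
  exact (stage_adj Φ _).trans (io_adj c).symm

/-- The levels over `Z`. -/
def lev (φ : V → Sym2 V) (Z : Set V) : ℕ → Set V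
  | 0 => Z
  | k + 1 => Bd φ (lay φ Z k)

theorem mem_lay {k : ℕ} : v ∈ lay φ Z k ↔ ∃ j ≤ k, v ∈ lev φ Z j := by
  induction k with
  | zero => exact ⟨fun h => ⟨0, le_rfl, h⟩, fun ⟨j, hj, h⟩ => by
      obtain rfl : j = 0 := by omega
      exact h⟩
  | succ k ih =>
    constructor
    · rintro (h | h)
      · obtain ⟨j, hj, h⟩ := ih.1 h
        exact ⟨j, by omega, h⟩
      · exact ⟨k + 1, le_rfl, h⟩
    · rintro ⟨j, hj, h⟩
      rcases hj.lt_or_eq with hj | rfl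
      exacts [Or.inl (ih.2 ⟨j, by omega, h⟩), Or.inr h]

theorem lev_lay {k : ℕ} (h : v ∈ lev φ Z k) : v ∈ lay φ Z k := mem_lay.2 ⟨k, le_rfl, h⟩

theorem lev_not {k : ℕ} (h : v ∈ lev φ Z (k + 1)) : v ∉ lay φ Z k := fun h' => h.1 (Cl.base h')

theorem lev_unique {j k : ℕ} (hj : v ∈ lev φ Z j) (hk : v ∈ lev φ Z k) : j = k := by
  by_contra hne
  wlog h : j < k generalizing j k
  · exact this hk hj (Ne.symm hne) (by omega)
  obtain ⟨k, rfl⟩ : ∃ i, k = i + 1 := ⟨k - 1, by omega⟩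
  exact lev_not hk (mem_lay.2 ⟨j, by omega, hj⟩)

/-- The parent in a lower layer is one level down. -/
theorem lev_par {k : ℕ} (h : v ∈ lev φ Z (k + 1)) (hp : p ∈ φ v) (hp' : p ∈ lay φ Z k) :
    p ∈ lev φ Z k := by
  obtain ⟨j, hj, h1⟩ := mem_lay.1 hp'
  rcases hj.lt_or_eq with hj | rfl
  · by_cases hc : Cl φ (lay φ Z j) v
    · exact (h.1 (hc.mono (lay_mono hj.le))).elim
    · exact (lev_not h (lay_mono (Nat.succ_le_of_lt hj) (Or.inr ⟨hc, p, hp, lev_lay h1⟩))).elim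
  · exact h1

theorem Fix.cl_lay (H : Fix G φ) (hc : G.Preconnected) (hZ : PC φ Z) (ha : a ∈ Z) (v : V) :
    ∃ k, Cl φ (lay φ Z k) v := by
  obtain ⟨c⟩ := hc v a
  induction c with
  | nil => exact ⟨0, Cl.base ha⟩
  | cons h _ ih =>
    obtain ⟨k, hk⟩ := ih ha
    obtain ⟨-, p, h1, h2⟩ := (H.adj _ _).1 h
    exact ⟨k + 1, (hk.parent (pc_lay H hZ k) p h2).child H _ h1⟩

theorem Ray.pc (R : Ray G φ x) : PC φ (range x) := by
  rintro _ ⟨i, rfl⟩ p hp
  rcases mem_or (R.phi i) hp with rfl | rfl <;> exact mem_range_self _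

theorem Ray.nb (R : Ray G φ x) (H : Fix G φ) {i : ℕ} (h : G.Adj (x (i + 1)) v) :
    v = x i ∨ v = x (i + 2) := by
  obtain ⟨hne, p, h1, h2⟩ := (H.adj _ _).1 h
  rcases mem_or (R.phi _) h1 with rfl | rfl
  · exact Or.inl ((R.kid _ _ h2).resolve_right hne.symm)
  · exact Or.inr ((R.kid _ _ h2).resolve_left hne.symm)

theorem Ray.adj (R : Ray G φ x) (H : Fix G φ) (i : ℕ) : G.Adj (x i) (x (i + 1)) :=
  H.edge _ _ _ (R.phi i)

theorem Ray.par (R : Ray G φ x) (hv : v ∉ range x) {i : ℕ} (h : x i ∈ φ v) : i = 0 := by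
  obtain _ | i := i
  · rfl
  · rcases R.kid i v h with rfl | rfl <;> exact (hv (mem_range_self _)).elim

theorem Ray.cl (R : Ray G φ x) (H : Fix G φ) (h : Cl φ (range x) v) : v ∈ range x := by
  refine h _ (fun _ h => h) fun w hw => ?_
  by_contra hn
  obtain ⟨p, q, e⟩ := exists_pair φ w
  obtain ⟨i, rfl⟩ := hw p (mem_l e)
  obtain ⟨j, rfl⟩ := hw q (mem_r e)
  exact (H.edge _ _ _ e).ne (by rw [R.par hn (mem_l e), R.par hn (mem_r e)])

theorem Ray.root (R : Ray G φ x) (H : Fix G φ) (h : G.Adj (x 0) v) (h1 : v ≠ x 1) :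
    v ∈ lev φ (range x) 1 := by
  obtain ⟨hne, p, h2, h3⟩ := (H.adj _ _).1 h
  refine ⟨fun hc => ?_, p, h3, R.pc _ (mem_range_self 0) p h2⟩
  obtain ⟨i, rfl⟩ := R.cl H hc
  obtain _ | i := i
  · exact hne rfl
  · rcases R.nb H h.symm with e | e
    · exact h1 (by rw [← R.inj e])
    · exact absurd (R.inj e) (by omega)

theorem Ray.comet (Φ : G ≃g G.lineGraph) (R : Ray G (fun v => (Φ v : Sym2 V)) x)
    (hc : G.Preconnected) : ∃ (X : Type u) (C : Comet X), Nonempty (G ≃g lim C.c) := by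
  have H := fix_of_iso Φ
  set φ : V → Sym2 V := fun v => (Φ v : Sym2 V) with hφ
  have hZ := R.pc
  have hn : ∀ i, x (invFun x (x i) + 1) = x (i + 1) := fun i => by rw [leftInverse_invFun R.inj]
  obtain ⟨s, t, hst, h0, ht⟩ := exists_st (φ := φ) (Z := range x) id
    (fun v => x (invFun x v + 1)) (by rintro _ ⟨i, rfl⟩; rw [hn]; exact R.phi i)
  have sx : ∀ i, s (x i) = x i := fun i => (h0 _ (mem_range_self i)).1
  have tx : ∀ i, t (x i) = x (i + 1) := fun i => (h0 _ (mem_range_self i)).2.trans (hn i)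
  have ls : ∀ k, ∀ v ∈ lev φ (range x) k, s v ∈ lev φ (range x) k := by
    rintro (_ | k) v hv
    · obtain ⟨i, rfl⟩ := hv
      exact ⟨i, (sx i).symm⟩
    · exact Bd.other H (pc_lay H hZ k) hv (hst v) (ht k v hv)
  have lt : ∀ k, ∀ v ∈ lev φ (range x) (k + 1), t v ∈ lev φ (range x) k :=
    fun k v hv => lev_par hv (mem_r (hst v)) (ht k v hv)
  have t0 : ∀ v ∈ lev φ (range x) 1, t v = x 0 := fun v hv => by
    obtain ⟨i, hi⟩ := lt 0 v hv
    rw [← hi, R.par (i := i) (lev_not hv) (hi ▸ mem_r (hst v))]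
  have st : ∀ k, ∀ v ∈ lev φ (range x) k, t (s v) = s (t v) := by
    rintro (_ | k) v hv
    · obtain ⟨i, rfl⟩ := hv
      rw [sx, tx, sx]
    obtain _ | k := k
    · rw [t0 _ hv, t0 _ (ls _ _ hv), sx]
    obtain ⟨p, h1, h2⟩ := H.common (hst v)
    have h3 := pc_lay H hZ _ _ (ht _ v hv) p h2
    obtain rfl : p = t (s v) := (mem_or (hst _) h1).resolve_left fun e =>
      lev_not (ls _ _ (ls _ _ hv)) (e ▸ h3)
    exact (mem_or (hst _) h2).resolve_right fun e =>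
      lev_not (lt _ _ (ls _ _ hv)) (e ▸ ht _ _ (lt _ _ hv))
  have si : ∀ k, ∀ v ∈ lev φ (range x) k, ∀ w ∈ lev φ (range x) k, s v = s w → v = w := fun k => by
    induction k with
    | zero => rintro _ ⟨i, rfl⟩ _ ⟨j, rfl⟩ e; rwa [sx, sx] at e
    | succ k ih =>
      refine fun v hv w hw e => H.inj ?_
      rw [hst, hst, e, ih _ (lt _ _ hv) _ (lt _ _ hw) (by rw [← st _ _ hv, ← st _ _ hw, e])]
  have ss : ∀ k, ∀ y ∈ lev φ (range x) k, ∃ v ∈ lev φ (range x) k, s v = y := fun k => by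
    induction k with
    | zero => rintro _ ⟨i, rfl⟩; exact ⟨_, ⟨i, rfl⟩, sx i⟩
    | succ k ih =>
      intro y hy
      obtain ⟨p, hp, e⟩ := ih _ (lt _ _ hy)
      obtain ⟨v, hv⟩ := H.surj y p ((H.adj _ _).2 ⟨fun e => lev_not hy (e ▸ lev_lay hp), t y,
        mem_r (hst y), e ▸ mem_l (hst p)⟩)
      have h1 : v ∈ lev φ (range x) (k + 1) :=
        ⟨fun h => hy.1 (h.parent (pc_lay H hZ k) y (mem_l hv)), p, mem_r hv, lev_lay hp⟩
      exact ⟨v, h1, (mem_or hv (mem_l (hst v))).resolve_right fun e =>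
        lev_not (ls _ _ h1) (e ▸ lev_lay hp)⟩
  let X : Set V := {v | ∃ k, v ∈ lev φ (range x) k}
  let σ : X ≃ X := Equiv.ofBijective (fun v => ⟨s v, v.2.imp fun k => ls k v⟩)
    ⟨fun ⟨v, j, hj⟩ ⟨w, k, hk⟩ e => by
      have e' : s v = s w := congrArg Subtype.val e
      obtain rfl := lev_unique (ls _ _ hj) (e' ▸ ls _ _ hk)
      exact Subtype.ext (si _ _ hj _ hk e'), fun ⟨y, k, hk⟩ => by
      obtain ⟨v, hv, e⟩ := ss k y hk
      exact ⟨⟨v, k, hv⟩, Subtype.ext e⟩⟩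
  have hσ : ∀ v : X, (σ v : V) = s v := fun _ => rfl
  have tX : ∀ v ∈ X, t v ∈ X := by
    rintro v ⟨_ | k, hk⟩
    · obtain ⟨i, rfl⟩ := hk
      exact ⟨0, i + 1, (tx i).symm⟩
    · exact ⟨k, lt k v hk⟩
  let τ : X → X := fun v => ⟨t (σ.symm v), tX _ (σ.symm v).2⟩
  have hτ : ∀ v : X, (τ (σ v) : V) = t v := fun v => by simp only [τ, Equiv.symm_apply_apply]
  have com : ∀ v, σ (τ v) = τ (σ v) := fun v => by
    obtain ⟨v, rfl⟩ := σ.surjective v
    obtain ⟨k, hk⟩ := v.2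
    exact Subtype.ext (by rw [hσ, hτ, hτ, hσ, st k _ hk])
  let ρ : ℕ → X := fun i => ⟨x i, 0, i, rfl⟩
  have σρ : ∀ i, σ (ρ i) = ρ i := fun i => Subtype.ext (sx i)
  have τρ : ∀ i, τ^[i] (ρ 0) = ρ i := fun i => by
    induction i with
    | zero => rfl
    | succ i ih => exact Subtype.ext (by rw [iterate_succ_apply', ih, ← σρ, hτ]; exact tx i)
  have lσ : ∀ k (v : X), (σ v : V) ∈ lev φ (range x) k → (v : V) ∈ lev φ (range x) k :=
    fun k v h => by
      obtain ⟨j, hj⟩ := v.2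
      exact lev_unique (ls _ _ hj) h ▸ hj
  have one : ∀ y ∈ lev φ (range x) 1, ∃ h : y ∈ X, τ ⟨y, h⟩ = ρ 0 := fun y hy => by
    obtain ⟨v, e⟩ := σ.surjective ⟨y, 1, hy⟩
    exact ⟨⟨1, hy⟩, Subtype.ext (by rw [← e, hτ, t0 _ (lσ 1 v (e ▸ hy))])⟩
  let C : Comet X := ⟨τ, ρ 0, fun ⟨v, k, hk⟩ => ?_, fun n v h => ?_, ?_⟩
  · refine ⟨X, C, recog_seq C.c Φ (fun m => ⟨⟨fun y => (σ^[m] y : V), fun {a b} h => ?_⟩,
      Subtype.val_injective.comp (σ.injective.iterate m)⟩) (fun m y => ?_) fun v => ?_⟩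
    · have : ∀ y, G.Adj (σ^[m] y : V) (σ^[m] (τ y) : V) := fun y => by
        rw [(Commute.iterate_left com m) y]
        obtain ⟨z, hz⟩ := σ.surjective (σ^[m] y)
        rw [← hz, hτ]
        exact H.edge _ _ _ (hst z)
      rcases h.2 with rfl | rfl
      exacts [this _, (this _).symm]
    · change φ (σ^[m] y : V) = s((σ^[m + 1] y : V), (σ^[m + 1] (τ y) : V))
      rw [hst, (Commute.iterate_left com (m + 1)) y, iterate_succ_apply', hτ, hσ]
    · obtain ⟨k, hk⟩ := H.cl_lay hc hZ (mem_range_self 0) v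
      refine hk.mono fun w hw m => ?_
      obtain ⟨j, -, hj⟩ := mem_lay.1 hw
      obtain ⟨y, e⟩ := σ.surjective.iterate m ⟨w, j, hj⟩
      exact ⟨y, congrArg Subtype.val e⟩
  · induction k generalizing v with
    | zero =>
      obtain ⟨i, rfl⟩ := hk
      exact ⟨0, i, (τρ i).symm⟩
    | succ k ih =>
      obtain ⟨w, e⟩ := σ.surjective ⟨v, k + 1, hk⟩
      have h1 := lt k w (lσ _ w (e ▸ hk))
      obtain ⟨m, n, h⟩ := ih _ h1
      refine ⟨m + 1, n, ?_⟩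
      rw [← h, iterate_succ_apply, ← e]
      exact congrArg _ (Subtype.ext (hτ w))
  · obtain ⟨v, rfl⟩ := σ.surjective v
    rw [τρ] at h ⊢
    have h1 : t v = x (n + 1) := (hτ v).symm.trans (congrArg Subtype.val h)
    rcases R.kid n v (h1 ▸ mem_r (hst v)) with e | e
    · rw [show v = ρ n from Subtype.ext e, σρ]
    · rw [e, tx] at h1
      exact absurd (R.inj h1) (by omega)
  · obtain ⟨a, b, h1, h2, h3, h4, h5⟩ := R.two
    obtain ⟨ha, ha'⟩ := one a (R.root H h4 h2)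
    obtain ⟨hb, hb'⟩ := one b (R.root H h5 h3)
    exact ⟨_, _, fun e => h1 (congrArg Subtype.val e), ha', hb'⟩

end Pool.Agent.P.MP_4d6a7f_co
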