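import Pool.Agent.P.MP_4d6a7f_co.FDLay

/-!
The graph of a comet and its uniqueness.
-/

namespace Pool.Agent.P.MP_4d6a7f_co

open SimpleGraph Function Set

universe u

variable {V V' X X' : Type u} {G : SimpleGraph V} {G' : SimpleGraph V'} {φ : V → Sym2 V}
  {φ' : V' → Sym2 V'} {a b p q v w : V} {x : ℕ → V} {x' : ℕ → V'} {C : Comet X} {C' : Comet X'}
  {e : X → V} {e' : X' → V'}

/-- The limit and its line graph. -/
noncomputable def limIso {F : SimpleGraph X} (c : F.Copy F.lineGraph) :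
    lim c ≃g (lim c).lineGraph :=
  ⟨Equiv.ofBijective (limPhi c) ⟨fun a b h => by
    obtain ⟨n, x, y, rfl, rfl⟩ := common c a b
    rw [limPhi_io, limPhi_io] at h
    rw [(ioC c n).lineGraph.injective h], by
    rintro ⟨⟨a, b⟩, h⟩
    obtain ⟨n, x, y, h', rfl, rfl⟩ := (lim_adj c).1 h
    exact ⟨io c (n + 1) ⟨s(x, y), h'⟩, limPhi_io c n _⟩⟩, fun {a b} => by
    obtain ⟨n, x, y, rfl, rfl⟩ := common c a b
    rw [Equiv.ofBijective_apply, Equiv.ofBijective_apply, limPhi_io, limPhi_io, io_adj]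
    exact (ioC c n).toLineGraphEmbedding.map_rel_iff⟩

/-- `G` is generated by a copy of the comet `C`. -/
structure Model (G : SimpleGraph V) (φ : V → Sym2 V) (C : Comet X) (e : X → V) : Prop where
  fix : Fix G φ
  inj : Injective e
  phi : ∀ y, φ (e y) = s(e y, e (C.t y))
  gen : ∀ v, Cl φ (range e) v

theorem model_lim (C : Comet X) :
    Model (lim C.c) (fun v => (limIso C.c v : Sym2 _)) C (io C.c 0) := by
  have h : ∀ n (z : (iter C.F (n + 1)).1),
      (limIso C.c (io C.c (n + 1) z) : Sym2 _) = Sym2.map (io C.c n) z.1 :=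
    fun n z => congrArg Subtype.val (limPhi_io C.c n z)
  refine ⟨fix_of_iso _, io_inj _ 0, fun y => ?_, fun v => ?_⟩
  · have := h 0 (step C.c 0 y)
    rwa [io_step] at this
  · obtain ⟨⟨n, z⟩, rfl⟩ := Quot.exists_rep v
    induction n with
    | zero => exact Cl.base ⟨z, rfl⟩
    | succ n ih =>
      refine Cl.step fun p hp => ?_
      obtain ⟨y, -, rfl⟩ := Sym2.mem_map.1 (h n z ▸ hp)
      exact ih y

theorem Cl.fixed {A : Set V} (h : Cl φ A v) : v ∈ φ v → v ∈ A :=
  h (fun v => v ∈ φ v → v ∈ A) (fun _ h _ => h) fun w hw h => hw w h h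

/-- The ray of a comet. -/
def Comet.ray (C : Comet X) (e : X → V) (i : ℕ) : V := e (C.t^[i] C.r)

namespace Model

variable (M : Model G φ C e)
include M

theorem adj (y : X) : G.Adj (e y) (e (C.t y)) := M.fix.edge _ _ _ (M.phi y)

theorem ray : Ray G φ (C.ray e) := by
  have h1 : ∀ i, φ (C.ray e i) = s(C.ray e i, C.ray e (i + 1)) := fun i => by
    simp only [Comet.ray, iterate_succ_apply', M.phi]
  refine ⟨fun i j h => ?_, h1, fun i v => ?_, ?_⟩
  · by_contra hne
    rcases lt_or_gt_of_ne hne with l | l <;> obtain ⟨k, rfl⟩ := Nat.exists_eq_add_of_lt l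
    exacts [C.ray_ne _ _ (M.inj h), C.ray_ne _ _ (M.inj h).symm]
  · refine M.gen v (fun v => ∀ i, C.ray e (i + 1) ∈ φ v → v = C.ray e i ∨ v = C.ray e (i + 1))
      ?_ (fun w hw i h => ?_) i
    · rintro _ ⟨y, rfl⟩ i h
      rcases mem_or (M.phi y) h with h | h
      exacts [Or.inr h.symm, Or.inl (congrArg e (C.tail i y (M.inj h).symm))]
    · obtain ⟨a, ha⟩ := exists_other h
      have hne := (M.fix.edge _ _ _ ha).ne
      obtain ⟨p, h2, h3⟩ := M.fix.common ha
      rcases mem_or (h1 _) h3 with rfl | rfl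
      · exact Or.inl (M.fix.inj (by rw [ha, h1, (hw a (mem_l ha) _ h2).resolve_right hne]))
      · exact Or.inr (M.fix.inj (by
          rw [ha, h1, (hw a (mem_l ha) _ h2).resolve_left hne, Sym2.eq_swap]))
  · obtain ⟨a, b, h, ha, hb⟩ := C.two
    have key : ∀ a, C.t a = C.r → e a ≠ C.ray e 1 ∧ G.Adj (C.ray e 0) (e a) := fun a h =>
      ⟨fun h' => C.aper 1 C.r ((congrArg C.t (M.inj h').symm).trans h), (h ▸ M.adj a).symm⟩
    exact ⟨e a, e b, M.inj.ne h, (key a ha).1, (key b hb).1, (key a ha).2, (key b hb).2⟩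

theorem conn : G.Connected := by
  have h1 : ∀ n y, G.Reachable (e y) (e (C.t^[n] y)) := fun n y => by
    induction n with
    | zero => exact .refl _
    | succ n ih => rw [iterate_succ_apply']; exact ih.trans (M.adj _).reachable
  have h2 : ∀ v, G.Reachable (e C.r) v := fun v => by
    refine M.gen v _ ?_ fun w hw => ?_
    · rintro _ ⟨y, rfl⟩
      obtain ⟨m, n, h⟩ := C.reach y
      exact (h1 n _).trans (h ▸ (h1 m y).symm)
    · obtain ⟨p, q, h⟩ := exists_pair φ w
      exact (M.fix.reach_iff (mem_l (M.phi _)) (mem_l h)).2 (hw p (mem_l h))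
  have : Nonempty V := ⟨e C.r⟩
  exact ⟨fun a b => (h2 a).symm.trans (h2 b)⟩

/-- The vertices off the ray have infinite degree. -/
theorem inf (hv : v ∉ range (C.ray e)) : (G.neighborSet v).Infinite := by
  have R := M.ray
  have H := M.fix
  have h1 : ∀ y, (G.neighborSet (e y)).Finite →
      (G.neighborSet (e (C.t y)) \ {e y}).encard = 1 := fun y h => by
    have h5 := H.deg (M.phi y)
    rw [← encard_sdiff_singleton_add_one (show _ ∈ G.neighborSet _ from M.adj y)] at h5
    exact (ENat.add_right_injective_of_ne_top (encard_ne_top_iff.2 h.sdiff) h5).symm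
  have h2 : ∀ m y, e (C.t^[m] y) ∈ range (C.ray e) → e y ∉ range (C.ray e) →
      (G.neighborSet (e y)).Infinite := fun m => by
    induction m with
    | zero => exact fun y h h' => (h' h).elim
    | succ m ih =>
      intro y h h' hf
      have h3 := h1 y hf
      by_cases h4 : e (C.t y) ∈ range (C.ray e)
      · obtain ⟨i, hi⟩ := h4
        obtain rfl := R.par h' (hi ▸ mem_r (M.phi y))
        obtain ⟨a, b, h5, h6, h7, h8, h9⟩ := R.two
        have h10 := encard_le_one_iff.1 (hi ▸ h3).le (C.ray e 1)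
        have h11 : C.ray e 1 ∈ G.neighborSet (C.ray e 0) \ {e y} :=
          ⟨R.adj H 0, fun e => h' ⟨1, e⟩⟩
        by_cases h12 : a = e y
        · exact h7 (h10 b h11 ⟨h9, fun e => h5 (h12.trans e.symm)⟩).symm
        · exact h6 (h10 a h11 ⟨h8, h12⟩).symm
      · exact (ih _ h h4).sdiff (finite_singleton _) (finite_of_encard_eq_coe h3)
  refine M.gen v (fun v => v ∉ range (C.ray e) → (G.neighborSet v).Infinite) ?_
    (fun w hw h => ?_) hv
  · rintro _ ⟨y, rfl⟩
    obtain ⟨m, n, h⟩ := C.reach y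
    exact h2 m y ⟨n, congrArg e h.symm⟩
  · by_contra hn
    refine h (R.cl H (Cl.step fun p hp => Cl.base ?_))
    by_contra hp'
    exact hn ((H.up_inf w).2 ⟨p, hp, hw p hp hp'⟩)

theorem two (p : V) : ∃ a b, a ≠ b ∧ p ∈ φ a ∧ p ∈ φ b := by
  have R := M.ray
  have H := M.fix
  obtain ⟨a, b, h, ha, hb⟩ : ∃ a b, a ≠ b ∧ G.Adj p a ∧ G.Adj p b := by
    by_cases hp : p ∈ range (C.ray e)
    · obtain ⟨_ | i, rfl⟩ := hp
      · obtain ⟨a, b, h, -, -, h'⟩ := R.two
        exact ⟨a, b, h, h'⟩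
      · exact ⟨_, _, R.inj.ne (by omega), (R.adj H i).symm, R.adj H _⟩
    · obtain ⟨a, ha, b, hb, h⟩ := (M.inf hp).nontrivial
      exact ⟨a, b, h, ha, hb⟩
  obtain ⟨v, hv⟩ := H.surj _ _ ha
  obtain ⟨w, hw⟩ := H.surj _ _ hb
  exact ⟨v, w, fun e => h (Sym2.congr_right.1 (hv.symm.trans (e ▸ hw))), mem_l hv, mem_l hw⟩

theorem mem_lay (y : X) : ∃ k, e y ∈ lev φ (range (C.ray e)) k := by
  have h1 : ∀ m y, e (C.t^[m] y) ∈ range (C.ray e) → e y ∈ lay φ (range (C.ray e)) m := by
    intro m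
    induction m with
    | zero => exact fun y h => h
    | succ m ih =>
      intro y h
      by_cases hc : Cl φ (lay φ (range (C.ray e)) m) (e y)
      · exact Or.inl (hc.fixed (mem_l (M.phi y)))
      · exact Or.inr ⟨hc, _, mem_r (M.phi y), ih _ h⟩
  obtain ⟨m, n, h⟩ := C.reach y
  obtain ⟨k, -, hk⟩ := MP_4d6a7f_co.mem_lay.1 (h1 m y ⟨n, congrArg e h.symm⟩)
  exact ⟨k, hk⟩

theorem lev_t {k : ℕ} {y : X} (h : e y ∈ lev φ (range (C.ray e)) (k + 1)) :
    e (C.t y) ∈ lev φ (range (C.ray e)) k := by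
  obtain ⟨p, h1, h2⟩ := h.2
  rcases mem_or (M.phi y) h1 with rfl | rfl
  exacts [(lev_not h h2).elim, lev_par h h1 h2]

theorem lev_sub : ∀ k, lev φ (range (C.ray e)) k ⊆ range e := fun k => by
  induction k using Nat.strong_induction_on with
  | _ k ih =>
    obtain _ | k := k
    · rintro _ ⟨i, rfl⟩
      exact mem_range_self _
    refine fun v => M.gen v (fun v => v ∈ lev φ (range (C.ray e)) (k + 1) → v ∈ range e)
      (fun _ h _ => h) fun w hw h => ?_
    obtain ⟨b, h1, h2⟩ := h.2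
    obtain ⟨a, h3⟩ := exists_other h1
    have hP := pc_lay M.fix M.ray.pc k
    have h4 : a ∈ lev φ _ (k + 1) := Bd.other M.fix hP h h3 h2
    obtain ⟨y, rfl⟩ := hw a (mem_l h3) h4
    have h5 := lev_par h h1 h2
    obtain ⟨z, rfl⟩ := ih k k.lt_succ_self h5
    obtain ⟨p, h6, h7⟩ := M.fix.common h3
    obtain rfl : p = e (C.t y) :=
      (mem_or (M.phi y) h6).resolve_left fun e => lev_not h4 (e ▸ hP _ h2 p h7)
    rcases mem_or (M.phi z) h7 with h8 | h8
    · exact ⟨y, M.fix.inj (by rw [h3, M.phi, h8])⟩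
    obtain _ | k := k
    · obtain ⟨i, hi⟩ := h5
      have := M.ray.par (i := i + 1) (lev_not h4) (by
        rw [Comet.ray, iterate_succ_apply', M.inj hi, ← h8]; exact h6)
      omega
    · have := lev_unique (M.lev_t h4) (h8 ▸ M.lev_t h5)
      omega

end Model

end Pool.Agent.P.MP_4d6a7f_co
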