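import Pool.Agent.P.MP_4d6a7f_co.FDBall

/-!
A connected graph with vertices of finite and of infinite degree that is isomorphic to its line
graph has a pendant ray of vertices that are their own parents.
-/

namespace Pool.Agent.P.MP_4d6a7f_co

open SimpleGraph Function Set

universe u

variable {V : Type u} {G : SimpleGraph V} {φ : V → Sym2 V} {A U : Set V} {a b p q v w : V}
  {d : V → ℕ}

theorem spread {P : ℕ → Prop} {r m : ℕ} (h : ∀ m, P m ↔ P (m + (r + 1)) ∧ P (m + 1 + (r + 1)))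
    (hm : P m) : P 0 := by
  have h1 : ∀ n j, j ≤ n → P (m + n * (r + 1) + j) := fun n => by
    induction n with
    | zero => intro j hj; obtain rfl : j = 0 := by omega
              simpa using hm
    | succ n ih =>
      intro j hj
      obtain _ | j := j
      · convert ((h _).1 (ih 0 n.zero_le)).1 using 1
        ring
      · convert ((h _).1 (ih j (by omega))).2 using 1
        ring
  have h2 : ∀ i k, m + (r + 1) * (r + 1) ≤ k + i → P k := fun i => by
    induction i with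
    | zero =>
      intro k hk
      have e := Nat.div_add_mod (k - m) (r + 1)
      have l := Nat.mod_lt (k - m) (Nat.add_one_pos r)
      have l' : r + 1 ≤ (k - m) / (r + 1) := (Nat.le_div_iff_mul_le (Nat.add_one_pos r)).2 (by omega)
      convert h1 ((k - m) / (r + 1)) ((k - m) % (r + 1)) (by omega) using 1
      rw [mul_comm] at e
      omega
    | succ i ih => exact fun k hk => (h k).2 ⟨ih _ (by omega), ih _ (by omega)⟩
  exact h2 _ 0 (by rw [zero_add])

/-- Some vertex is its own parent. -/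
theorem Dist.exists_fixed (D : Dist G φ d) (H : Fix G φ) (hc : G.Preconnected)
    (hb : (G.neighborSet b).Finite) : ∃ u, u ∈ φ u := by
  classical
  obtain ⟨p0, q0, h0⟩ := exists_pair φ b
  obtain ⟨c0⟩ := hc b p0
  have hex : ∃ r, ∃ w y, Anc φ 1 w y ∧ ∃ c : G.Walk w y, c.length = r :=
    ⟨_, b, p0, ⟨p0, mem_l h0, rfl⟩, c0, rfl⟩
  obtain ⟨w, y, c2, c, c3⟩ := Nat.find_spec hex
  have hmin : ∀ w' y, Cn φ w w' → Anc φ 1 w' y → (Nat.find hex : ℕ∞) ≤ G.edist w' y := by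
    intro w y _ h2
    rw [edist_eq_sInf]
    refine le_sInf ?_
    rintro _ ⟨c, rfl⟩
    exact Nat.cast_le.2 (Nat.find_min' hex ⟨w, y, h2, c, rfl⟩)
  generalize Nat.find hex = r at c3 hmin
  obtain _ | r := r
  · obtain rfl := Walk.eq_of_length_eq_zero c3
    obtain ⟨p, hp, rfl⟩ := c2
    exact ⟨p, hp⟩
  have hs : St G φ w 1 (r + 1) c.getVert :=
    ⟨by rw [c.getVert_zero]; exact Relation.EqvGen.refl _,
      fun i hi => c.adj_getVert_succ (c3 ▸ hi), by
      rw [← c3, c.getVert_length, c.getVert_zero]; exact c2⟩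
  obtain ⟨X, -, -, h3, h4⟩ := hs.grid H hmin
  have h5 : ∀ i, φ (X 0 i) = s(X 0 (i + (r + 1)), X 0 (i + 1 + (r + 1))) := fun i => by
    rw [h3, h4, h4]
  obtain ⟨v, hv⟩ := D.unbounded H hb (d (X 0 0))
  obtain ⟨_, ⟨m, rfl⟩, hm⟩ := H.meet hc (A := range (X 0)) (by
    rintro _ ⟨i, rfl⟩ p hp
    rcases mem_or (h5 i) hp with rfl | rfl <;> exact mem_range_self _) (D.pc _)
    (mem_range_self 0) hv
  refine (lt_irrefl _ (spread (P := fun i => d (X 0 0) < d (X 0 i)) (r := r) (fun i => ?_) hm)).elim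
  have := (D.up (d (X 0 0))).pair (h5 i)
  simp only [mem_ofPred_eq] at this
  omega

/-- The ancestors of `u` of a given depth. -/
def anc (φ : V → Sym2 V) (u : V) : ℕ → Set V
  | 0 => {u}
  | n + 1 => {p | ∃ w ∈ anc φ u n, p ∈ φ w}

/-- A nonempty set closed under parents contains a vertex that is its own parent. -/
theorem Fix.fixed_mem (H : Fix G φ) (hc : G.Preconnected) (ha : a ∈ φ a) (hU : PC φ U)
    (hb : b ∈ U) : ∃ u ∈ U, u ∈ φ u := by
  have h1 : ∀ n, anc φ a n ⊆ anc φ a (n + 1) := fun n => by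
    induction n with
    | zero => rintro _ rfl; exact ⟨_, rfl, ha⟩
    | succ n ih => exact fun p ⟨w, hw, h⟩ => ⟨w, ih hw, h⟩
  have h2 : ∀ n, ∀ v ∈ anc φ a n, ∃ p ∈ φ v, p ∈ anc φ a n := fun n => by
    induction n with
    | zero => rintro _ rfl; exact ⟨_, ha, rfl⟩
    | succ n ih =>
      rintro v ⟨w, hw, h⟩
      obtain ⟨p, hp, hp'⟩ := ih w hw
      rcases H.eq_or_adj h hp with rfl | e
      · obtain ⟨z, h1', h2⟩ := ih v hp'
        exact ⟨z, h1', h1 n h2⟩
      · obtain ⟨-, z, h3, h4⟩ := (H.adj v p).1 e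
        exact ⟨z, h3, p, hp', h4⟩
  have h3 : ∀ n, (anc φ a (n + 1) \ anc φ a n).Subsingleton := fun n => by
    have key : ∀ n w, (∀ w' ∈ anc φ a n, (∃ p ∈ φ w', p ∉ anc φ a n) → w' = w) →
        (anc φ a (n + 1) \ anc φ a n).Subsingleton := by
      rintro n w h p ⟨⟨y, hy, hp⟩, hp'⟩ q ⟨⟨z, hz, hq⟩, hq'⟩
      obtain rfl := h y hy ⟨p, hp, hp'⟩
      obtain rfl := h z hz ⟨q, hq, hq'⟩
      obtain ⟨c, hc, hc'⟩ := h2 n z hz
      obtain ⟨e, he⟩ := exists_other hc
      rw [(mem_or he hp).resolve_right fun e => hp' (e ▸ hc'),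
        (mem_or he hq).resolve_right fun e => hq' (e ▸ hc')]
    induction n with
    | zero => exact key 0 a fun w' h _ => h
    | succ n ih =>
      rcases ih.eq_empty_or_singleton with e | ⟨w, e⟩
      · exact key _ a fun w' h ⟨p, hp, hp'⟩ =>
          (e ▸ ⟨h, fun h' => hp' ⟨w', h', hp⟩⟩ : w' ∈ (∅ : Set V)).elim
      · exact key _ w fun w' h ⟨p, hp, hp'⟩ =>
          (e ▸ ⟨h, fun h' => hp' ⟨w', h', hp⟩⟩ : w' ∈ ({w} : Set V))
  obtain ⟨v, ⟨n, hn⟩, hv⟩ := H.meet hc (A := {v | ∃ n, v ∈ anc φ a n})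
    (fun v ⟨n, hn⟩ p hp => ⟨n + 1, v, hn, hp⟩) hU ⟨0, rfl⟩ hb
  induction n generalizing v with
  | zero => exact ⟨v, hv, hn ▸ ha⟩
  | succ n ih =>
    obtain ⟨p, hp, hp'⟩ := h2 _ v hn
    by_cases e : v ∈ anc φ a n
    · exact ih v hv e
    by_cases e' : p ∈ anc φ a n
    · exact ih p (hU v hv p hp) e'
    · exact ⟨v, hv, h3 n ⟨hp', e'⟩ ⟨hn, e⟩ ▸ hp⟩

/-- One step along the ray. -/
def Nx (G : SimpleGraph V) (φ : V → Sym2 V) (d : V → ℕ) (a b : V) : Prop :=
  φ a = s(a, b) ∧ b ∈ φ b ∧ d b = d a + 1 ∧ (G.neighborSet b \ {a}).encard = 1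

theorem Dist.nx (D : Dist G φ d) (H : Fix G φ) (ha : a ∈ φ a) (h0 : 0 < d a) :
    ∃ b, Nx G φ d a b := by
  obtain ⟨b, h⟩ := exists_other' ha
  obtain ⟨k, hk⟩ : ∃ k, d a = k + 1 := ⟨d a - 1, by omega⟩
  have hab := H.edge _ _ _ h
  have h1 := H.add (D.up k) h (show ¬ d a ≤ k by omega)
  have h2 := D.par (mem_r h)
  have h3 := D.far (v := b) (k := k) (by omega)
    (ENat.add_right_injective_of_ne_top (D.fin h0 _) (h1.symm.trans (add_zero _).symm))
  have h4 := D.lip _ _ hab.symm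
  refine ⟨b, h, ?_, by omega, ?_⟩
  · obtain ⟨z, h5, h6⟩ := H.common h
    rcases mem_or h h5 with rfl | rfl
    · have := D.par h6
      omega
    · exact h6
  · have h5 := H.deg h
    have h6 := D.fin h0 {b}ᶜ
    rw [← encard_sdiff_singleton_add_one (show b ∈ G.neighborSet a from hab)] at h5
    exact (ENat.add_right_injective_of_ne_top h6 h5).symm

/-- A pendant ray of vertices that are their own parents, starting at a vertex of degree at
least three. -/
structure Ray (G : SimpleGraph V) (φ : V → Sym2 V) (x : ℕ → V) : Prop where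
  inj : Injective x
  phi : ∀ i, φ (x i) = s(x i, x (i + 1))
  kid : ∀ i v, x (i + 1) ∈ φ v → v = x i ∨ v = x (i + 1)
  two : ∃ a b, a ≠ b ∧ a ≠ x 1 ∧ b ≠ x 1 ∧ G.Adj (x 0) a ∧ G.Adj (x 0) b

theorem Fix.ray (H : Fix G φ) (hc : G.Preconnected) (ha : (G.neighborSet a).Infinite)
    (hb : (G.neighborSet b).Finite) : ∃ x, Ray G φ x := by
  obtain ⟨d, D⟩ := H.dist hc ha
  obtain ⟨u, hu⟩ := D.exists_fixed H hc hb
  obtain ⟨v, hv⟩ := D.unbounded H hb 0
  obtain ⟨u', h1, h2⟩ := H.fixed_mem hc hu (D.pc 0) hv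
  obtain ⟨z, hz, hm⟩ := (measure d).wf.has_min {a | ∃ b, Nx G φ d a b} ⟨u', D.nx H h2 h1⟩
  have : ∀ a : {a | ∃ b, Nx G φ d a b}, ∃ b : {a | ∃ b, Nx G φ d a b}, Nx G φ d a b := by
    rintro ⟨a, b, h⟩
    exact ⟨⟨b, D.nx H h.2.1 (by have := h.2.2.1; omega)⟩, h⟩
  choose f hf using this
  let x : ℕ → V := fun i => f^[i] ⟨z, hz⟩
  have hx : ∀ i, Nx G φ d (x i) (x (i + 1)) := fun i => by
    simp only [x, iterate_succ_apply']
    exact hf _
  have hd : ∀ i, d (x i) = d z + i := fun i => by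
    induction i with
    | zero => rfl
    | succ i ih => rw [(hx i).2.2.1, ih, add_assoc]
  have hi : Injective x := fun i j h => by
    have := hd i
    rw [h, hd] at this
    omega
  refine ⟨x, hi, fun i => (hx i).1, fun i v h => ?_, ?_⟩
  · obtain ⟨y, hy⟩ := exists_other' h
    by_cases e : y = x i
    · exact Or.inl (H.inj (by rw [hy, e, (hx i).1, Sym2.eq_swap]))
    · have : y = x (i + 2) := encard_le_one_iff.1 (hx i).2.2.2.le _ _ ⟨H.edge _ _ _ hy, e⟩
        ⟨H.edge _ _ _ (hx (i + 1)).1, hi.ne (by omega)⟩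
      exact Or.inr (H.inj (by rw [hy, this, (hx (i + 1)).1]))
  · by_contra hn
    have h3 : (G.neighborSet z \ {x 1}).Subsingleton := fun a h b h' => by
      by_contra e
      exact hn ⟨a, b, e, h.2, h'.2, h.1, h'.1⟩
    have h4 : d z ≠ 0 := (D.zero z).not.2 (h3.finite.of_sdiff (finite_singleton _)).not_infinite
    obtain ⟨b, h5, h6⟩ := D.down z (d z - 1) (by omega)
    obtain ⟨c, h7⟩ := H.surj _ _ h5
    have h8 : φ z = s(z, x 1) := (hx 0).1
    have h9 := hd 1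
    have hb1 : b ≠ x 1 := fun e => by rw [e] at h6; omega
    have hc1 : c ≠ x 1 := fun e => by
      have := D.par (mem_l h7)
      rw [e] at this
      omega
    have hcz : z ≠ c := fun e => hb1 (Sym2.congr_right.1 (h7.symm.trans (e ▸ h8)))
    obtain rfl : c = b := h3 ⟨(H.adj _ _).2 ⟨hcz, z, mem_l h8, mem_l h7⟩, hc1⟩ ⟨h5, hb1⟩
    refine hm c ⟨z, h7.trans Sym2.eq_swap, mem_l h8, by omega, encard_eq_one.2 ⟨x 1, ?_⟩⟩
      (show d c < d z by omega)
    ext y
    refine ⟨fun hy => ?_, ?_⟩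
    · by_contra e
      exact hy.2 (h3 ⟨hy.1, e⟩ ⟨h5, hb1⟩)
    · rintro rfl
      exact ⟨H.edge _ _ _ h8, hb1.symm⟩

end Pool.Agent.P.MP_4d6a7f_co
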