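import Pool.Agent.P.MP_4d6a7f_co.FDMod

/-!
The comet is determined by its graph.
-/

namespace Pool.Agent.P.MP_4d6a7f_co

open SimpleGraph Function Set

universe u

variable {V V' X X' : Type u} {G : SimpleGraph V} {G' : SimpleGraph V'} {φ : V → Sym2 V}
  {φ' : V' → Sym2 V'} {C : Comet X} {C' : Comet X'} {e : X → V} {e' : X' → V'}

/-- Pairwise meeting edges have a common end or lie in a triangle. -/
theorem Fix.star (H : Fix G φ) {K : Set V} (hK : ∀ v ∈ K, ∀ w ∈ K, v = w ∨ G.Adj v w) {v : V}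
    (hv : v ∈ K) : (∃ p, ∀ w ∈ K, p ∈ φ w) ∨
      K.Finite ∧ ∀ p q, φ v = s(p, q) → ∃ c, G.Adj p c ∧ G.Adj q c := by
  have hm : ∀ v ∈ K, ∀ w ∈ K, ∃ p, p ∈ φ v ∧ p ∈ φ w := fun v hv w hw => by
    rcases hK v hv w hw with rfl | h
    · obtain ⟨p, q, h⟩ := exists_pair φ v
      exact ⟨p, mem_l h, mem_l h⟩
    · exact ((H.adj _ _).1 h).2
  by_cases h0 : ∃ p, ∀ w ∈ K, p ∈ φ w
  · exact Or.inl h0
  refine Or.inr ?_
  push Not at h0
  have key : ∀ p q, φ v = s(p, q) → ∃ c, G.Adj p c ∧ G.Adj q c ∧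
      ∀ w ∈ K, φ w = s(p, q) ∨ φ w = s(q, c) ∨ φ w = s(p, c) := fun p q h => by
    obtain ⟨a, ha, hpa⟩ := h0 p
    obtain ⟨b, hb, hqb⟩ := h0 q
    obtain ⟨z, h1, h2⟩ := hm v hv a ha
    obtain rfl : z = q := (mem_or h h1).resolve_left fun e => hpa (e ▸ h2)
    obtain ⟨y, h3, h4⟩ := hm v hv b hb
    obtain rfl : y = p := (mem_or h h3).resolve_right fun e => hqb (e ▸ h4)
    obtain ⟨c, hc⟩ := exists_other' h2
    obtain ⟨c', h5, h6⟩ := hm a ha b hb
    obtain rfl : c' = c := (mem_or hc h5).resolve_left fun e => hqb (e ▸ h6)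
    have hyc : y ≠ c' := fun e => hpa (e ▸ h5)
    have hb' : φ b = s(y, c') := (Sym2.mem_and_mem_iff hyc).1 ⟨h4, h6⟩
    refine ⟨c', H.edge _ _ _ hb', H.edge _ _ _ hc, fun w hw => ?_⟩
    obtain ⟨m1, a1, b1⟩ := hm v hv w hw
    obtain ⟨m2, a2, b2⟩ := hm a ha w hw
    obtain ⟨m3, a3, b3⟩ := hm b hb w hw
    have n1 := (H.edge _ _ _ h).ne
    have n2 := (H.edge _ _ _ hc).ne
    rw [← Sym2.mem_and_mem_iff n1, ← Sym2.mem_and_mem_iff n2, ← Sym2.mem_and_mem_iff hyc]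
    rcases mem_or h a1 with rfl | rfl <;> rcases mem_or hc a2 with rfl | rfl <;>
      rcases mem_or hb' a3 with rfl | rfl <;> tauto
  obtain ⟨p, q, h⟩ := exists_pair φ v
  obtain ⟨c, -, -, hc⟩ := key p q h
  refine ⟨(Finite.preimage H.inj.injOn (toFinite {s(p, q), s(q, c), s(p, c)})).subset hc,
    fun p q h => ?_⟩
  obtain ⟨c, h1, h2, -⟩ := key p q h
  exact ⟨c, h1, h2⟩

theorem iso_inf (α : G ≃g G') {v : V} (h : (G.neighborSet v).Infinite) :
    (G'.neighborSet (α v)).Infinite :=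
  (h.image α.injective.injOn).mono (by rintro _ ⟨w, hw, rfl⟩; exact α.map_rel_iff.2 hw)

theorem Model.star (M : Model G φ C e) (M' : Model G' φ' C' e') (α : G ≃g G') (p : V) :
    ∃ p', ∀ v, p ∈ φ v → p' ∈ φ' (α v) := by
  have hK : ∀ v ∈ α '' {v | p ∈ φ v}, ∀ w ∈ α '' {v | p ∈ φ v}, v = w ∨ G'.Adj v w := by
    rintro _ ⟨v, hv, rfl⟩ _ ⟨w, hw, rfl⟩
    by_cases h : v = w
    · exact Or.inl (congrArg α h)
    · exact Or.inr (α.map_rel_iff.2 ((M.fix.adj _ _).2 ⟨h, p, hv, hw⟩))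
  by_contra hn
  have h0 : ¬ ∃ p', ∀ w ∈ α '' {v | p ∈ φ v}, p' ∈ φ' w :=
    fun ⟨p', h⟩ => hn ⟨p', fun v hv => h _ ⟨v, hv, rfl⟩⟩
  obtain ⟨a, -, -, ha, -⟩ := M.two p
  have h1 := (((M'.fix.star hK ⟨a, ha, rfl⟩).resolve_left h0).1.of_finite_image
    α.injective.injOn).subset (t := {w | ∃ y ∈ univ, φ w = s(p, y)})
      fun w ⟨y, _, h⟩ => mem_l h
  rw [← encard_ne_top_iff, M.fix.kid_card, inter_univ, encard_ne_top_iff] at h1
  obtain ⟨i, rfl⟩ : p ∈ range (C.ray e) := by_contra fun h => M.inf h h1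
  obtain ⟨j, hj⟩ : α (C.ray e i) ∈ range (C'.ray e') := by_contra fun h =>
    (by simpa using iso_inf α.symm (M'.inf h) : Set.Infinite _) h1
  obtain ⟨c, h2, h3⟩ := ((M'.fix.star hK ⟨_, mem_l (M.ray.phi i), rfl⟩).resolve_left h0).2 _ _
    (hj ▸ M'.ray.phi j)
  rcases M'.ray.nb M'.fix h3 with rfl | rfl
  · exact (hj ▸ h2).ne rfl
  · rcases M'.ray.nb M'.fix (hj ▸ h2).symm with h | h <;> exact absurd (M'.ray.inj h) (by omega)

/-- An isomorphism of the graphs comes from an isomorphism one step up. -/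
theorem Model.whitney (M : Model G φ C e) (M' : Model G' φ' C' e') (α : G ≃g G') :
    ∃ β : G ≃g G', ∀ v, φ' (α v) = Sym2.map β (φ v) := by
  choose f hf using M.star M' α
  choose g hg using M'.star M α.symm
  have gf : ∀ p, g (f p) = p := fun p => by
    by_contra hn
    obtain ⟨a, b, h, ha, hb⟩ := M.two p
    have key : ∀ a, p ∈ φ a → φ a = s(g (f p), p) := fun a ha =>
      (Sym2.mem_and_mem_iff hn).1 ⟨by simpa using hg _ _ (hf p a ha), ha⟩
    exact h (M.fix.inj ((key a ha).trans (key b hb).symm))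
  have fg : ∀ p, f (g p) = p := fun p => by
    by_contra hn
    obtain ⟨a, b, h, ha, hb⟩ := M'.two p
    have key : ∀ a, p ∈ φ' a → φ' a = s(f (g p), p) := fun a ha =>
      (Sym2.mem_and_mem_iff hn).1 ⟨by simpa using hf _ _ (hg p a ha), ha⟩
    exact h (M'.fix.inj ((key a ha).trans (key b hb).symm))
  have fi : Injective f := LeftInverse.injective gf
  have h1 : ∀ v, φ' (α v) = Sym2.map f (φ v) := fun v => by
    obtain ⟨p, q, h⟩ := exists_pair φ v
    rw [h]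
    exact (Sym2.mem_and_mem_iff (fi.ne (M.fix.edge _ _ _ h).ne)).1
      ⟨hf _ _ (mem_l h), hf _ _ (mem_r h)⟩
  refine ⟨⟨⟨f, g, gf, fg⟩, fun {p q} => ⟨fun h => ?_, fun h => ?_⟩⟩, h1⟩
  · obtain ⟨v, hv⟩ := M'.fix.surj _ _ h
    obtain ⟨v, rfl⟩ := α.surjective v
    exact M.fix.edge v _ _ (Sym2.map.injective fi ((h1 v).symm.trans hv))
  · obtain ⟨v, hv⟩ := M.fix.surj _ _ h
    exact M'.fix.edge (α v) _ _ (by rw [h1, hv]; rfl)

/-- An isomorphism of the graphs respects the rays. -/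
theorem Model.iso_ray (M : Model G φ C e) (M' : Model G' φ' C' e') (α : G ≃g G') (i : ℕ) :
    α (C.ray e i) = C'.ray e' i := by
  have R := M.ray
  have R' := M'.ray
  have h0 : ∀ j, α (C.ray e 0) ≠ C'.ray e' (j + 1) := fun j h => by
    obtain ⟨a, b, h1, h2, h3, h4, h5⟩ := R.two
    have key : ∀ a, G.Adj (C.ray e 0) a → α a = C'.ray e' j ∨ α a = C'.ray e' (j + 2) :=
      fun a ha => R'.nb M'.fix (h ▸ α.map_rel_iff.2 ha)
    have n1 := α.injective.ne h1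
    have n2 := α.injective.ne h2
    have n3 := α.injective.ne h3
    rcases key a h4 with e1 | e1 <;> rcases key b h5 with e2 | e2 <;>
      rcases key _ (R.adj M.fix 0) with e3 | e3 <;> simp_all
  have h1 : α (C.ray e 1) ≠ C'.ray e' 0 := fun h => by
    obtain ⟨a, b, h1, h2, h3, h4, h5⟩ := R'.two
    have key : ∀ a, G'.Adj (C'.ray e' 0) a → a = α (C.ray e 0) ∨ a = α (C.ray e 2) :=
      fun a ha => (R.nb M.fix (i := 0) (v := α.symm a) (α.map_rel_iff.1 (by simpa [h]))).imp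
        (fun e => by simp [← e]) fun e => by simp [← e]
    rcases key a h4 with e1 | e1 <;> rcases key b h5 with e2 | e2 <;>
      rcases key _ (R'.adj M'.fix 0) with e3 | e3 <;> simp_all
  obtain ⟨j, hj⟩ : α (C.ray e 1) ∈ range (C'.ray e') := by_contra fun h =>
    (by simpa using iso_inf α.symm (M'.inf h) : Set.Infinite (G.neighborSet (C.ray e 1)))
      ((toFinite {C.ray e 0, C.ray e 2}).subset fun v hv => R.nb M.fix hv)
  obtain _ | j := j
  · exact (h1 hj.symm).elim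
  have h2 := R'.nb M'.fix (hj ▸ α.map_rel_iff.2 (R.adj M.fix 0).symm)
  have h3 := h2.resolve_right (h0 _)
  obtain _ | j := j
  swap
  · exact (h0 _ h3).elim
  induction i using Nat.twoStepInduction with
  | zero => exact h3
  | one => exact hj.symm
  | more i ih ih' =>
    refine (R'.nb M'.fix (ih' ▸ α.map_rel_iff.2 (R.adj M.fix (i + 1)))).resolve_left fun h => ?_
    exact absurd (R.inj (α.injective (h.trans ih.symm))) (by omega)

theorem lay_map {Z : Set V} {Z' : Set V'} (α : ℕ → V ≃ V')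
    (h : ∀ n v, φ' (α n v) = Sym2.map (α (n + 1)) (φ v)) (hZ : ∀ n v, α n v ∈ Z' ↔ v ∈ Z) :
    ∀ k n v, α n v ∈ lev φ' Z' k ↔ v ∈ lev φ Z k := fun k => by
  induction k using Nat.strong_induction_on with
  | _ k ih =>
    obtain _ | k := k
    · exact hZ
    have h1 : ∀ n v, α n v ∈ lay φ' Z' k ↔ v ∈ lay φ Z k := fun n v => by
      simp only [mem_lay]
      exact exists_congr fun j => and_congr_right fun hj => ih j (by omega) n v
    intro n v
    refine and_congr (not_congr ⟨fun hc => ?_, fun hc => ?_⟩) ?_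
    · refine hc (fun w => ∀ n v, α n v = w → Cl φ (lay φ Z k) v) ?_ ?_ n v rfl
      · rintro _ hw n v rfl
        exact Cl.base ((h1 n v).1 hw)
      · rintro _ hw n v rfl
        exact Cl.step fun p hp => hw _ (h n v ▸ Sym2.mem_map.2 ⟨p, hp, rfl⟩) _ p rfl
    · refine hc (fun v => ∀ n, Cl φ' (lay φ' Z' k) (α n v)) (fun v hv n => Cl.base ((h1 n v).2 hv))
        (fun v hv n => Cl.step fun p hp => ?_) n
      obtain ⟨q, hq, rfl⟩ := Sym2.mem_map.1 (h n v ▸ hp)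
      exact hv q hq _
    · constructor
      · rintro ⟨p, hp, hp'⟩
        obtain ⟨q, hq, rfl⟩ := Sym2.mem_map.1 (h n v ▸ hp)
        exact ⟨q, hq, (h1 _ q).1 hp'⟩
      · rintro ⟨p, hp, hp'⟩
        exact ⟨_, h n v ▸ Sym2.mem_map.2 ⟨p, hp, rfl⟩, (h1 _ p).2 hp'⟩

theorem Model.iso_comet (M : Model G φ C e) (M' : Model G' φ' C' e') (α : G ≃g G') (y : X) :
    ∃ y', α (e y) = e' y' ∧ α (e (C.t y)) = e' (C'.t y') := by
  choose f hf using M.whitney M'
  have h1 : ∀ n v, φ' (f^[n] α v) = Sym2.map (f^[n + 1] α) (φ v) := fun n v => by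
    rw [iterate_succ_apply', hf]
  have h2 := lay_map (Z := range (C.ray e)) (Z' := range (C'.ray e'))
    (fun n => (f^[n] α).toEquiv) h1 fun n v =>
      ⟨fun ⟨i, hi⟩ => ⟨i, (f^[n] α).injective ((M.iso_ray M' _ i).trans hi)⟩,
        fun ⟨i, hi⟩ => ⟨i, hi ▸ (M.iso_ray M' _ i).symm⟩⟩
  have h3 : ∀ k n y, e y ∈ lev φ (range (C.ray e)) (k + 1) → ∃ y', f^[n] α (e y) = e' y' ∧
      f^[n + 1] α (e y) = e' y' ∧ f^[n + 1] α (e (C.t y)) = e' (C'.t y') := fun k n y hy => by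
    have h4 := (h2 _ n _).2 hy
    obtain ⟨y', hy'⟩ := M'.lev_sub _ h4
    have h5 := h1 n (e y)
    change e' y' = f^[n] α (e y) at hy'
    rw [← hy', M'.phi, M.phi, Sym2.map_mk, Sym2.eq_iff] at h5
    rcases h5 with h5 | h5
    · exact ⟨y', hy'.symm, h5.1.symm, h5.2.symm⟩
    · have h6 : e' y' ∈ lev φ' _ k := h5.1 ▸ (h2 _ (n + 1) _).2 (M.lev_t hy)
      have := lev_unique h6 (hy' ▸ h4)
      omega
  obtain ⟨_ | k, hk⟩ := M.mem_lay y
  · obtain ⟨i, hi⟩ := hk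
    obtain rfl := M.inj hi
    refine ⟨_, M.iso_ray M' α i, ?_⟩
    simpa only [Comet.ray, iterate_succ_apply'] using M.iso_ray M' α (i + 1)
  obtain ⟨y', h4, -, h5⟩ := h3 k 0 y hk
  refine ⟨y', h4, Eq.trans ?_ h5⟩
  have h6 := M.lev_t hk
  obtain _ | k := k
  · obtain ⟨i, hi⟩ := h6
    rw [← hi, M.iso_ray M', M.iso_ray M']
  · obtain ⟨z, h7, h8, -⟩ := h3 k 0 _ h6
    exact h7.trans h8.symm

theorem comet_unique (C : Comet X) (C' : Comet X') :
    Nonempty (lim C.c ≃g lim C'.c) ↔ ∃ ε : X ≃ X', ∀ x, ε (C.t x) = C'.t (ε x) := by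
  have M := model_lim C
  have M' := model_lim C'
  constructor
  · rintro ⟨α⟩
    choose f h1 h2 using M.iso_comet M' α
    refine ⟨Equiv.ofBijective f ⟨fun a b h => M.inj (α.injective (by rw [h1, h1, h])),
      fun y' => ?_⟩, fun y => M'.inj ((h1 _).symm.trans (h2 y))⟩
    obtain ⟨y, h, -⟩ := M'.iso_comet M α.symm y'
    exact ⟨y, M'.inj (by rw [← h1, ← h, α.apply_symm_apply])⟩
  · rintro ⟨ε, h⟩
    have h1 : ∀ y, (lim C'.c).Adj (io C'.c 0 (ε y)) (io C'.c 0 (ε (C.t y))) :=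
      fun y => h y ▸ M'.adj _
    obtain ⟨α⟩ := recog C.c (limIso C'.c) ⟨⟨fun y => io C'.c 0 (ε y), fun {a b} h => by
      rcases h.2 with rfl | rfl
      exacts [h1 _, (h1 _).symm]⟩, M'.inj.comp ε.injective⟩
      (fun y => (M'.phi _).trans (by rw [← h]; rfl)) fun P h2 h3 v => M'.gen v P (by
        rintro _ ⟨y, rfl⟩
        obtain ⟨y, rfl⟩ := ε.surjective y
        exact h2 y) h3
    exact ⟨α.symm⟩

theorem comet_exists (G : SimpleGraph V) :
    (G.Connected ∧ (∃ v, (G.neighborSet v).Finite) ∧ (∃ v, (G.neighborSet v).Infinite) ∧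
      Nonempty (G ≃g G.lineGraph)) ↔
    ∃ (X : Type u) (C : Comet X), Nonempty (G ≃g lim C.c) := by
  constructor
  · rintro ⟨hc, ⟨b, hb⟩, ⟨a, ha⟩, ⟨Φ⟩⟩
    obtain ⟨x, R⟩ := (fix_of_iso Φ).ray hc.1 ha hb
    exact R.comet Φ hc.1
  · rintro ⟨X, C, ⟨α⟩⟩
    have M := model_lim C
    obtain ⟨a, b, -, h1, -, h2, -⟩ := M.ray.two
    refine ⟨α.connected_iff.2 M.conn, ⟨α.symm (C.ray (io C.c 0) 1), ?_⟩,
      ⟨α.symm a, iso_inf _ (M.inf (lev_not (M.ray.root M.fix h2 h1)))⟩,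
      ⟨(α.trans (limIso C.c)).trans α.symm.lineGraph⟩⟩
    by_contra h
    exact (by simpa using iso_inf α h : Set.Infinite ((lim C.c).neighborSet _))
      ((toFinite {_, _}).subset fun v hv => M.ray.nb M.fix hv)

end Pool.Agent.P.MP_4d6a7f_co
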