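import Pool.Agent.P.MP_4d6a7f_co.GEDefs

/-!
The data of the classification.
-/

namespace Pool.Agent.P.MP_4d6a7f_co

open SimpleGraph Function

universe u

/-- A datum: a forest over seeds `(X, s, t)` in which the pairs `{s x, t x}` are distinct
two-element sets and the pairs at `s x` and at `t x` meet. -/
structure Datum (X : Type u) where
  /-- the first parent -/
  s : X → X
  /-- the second parent -/
  t : X → X
  ne : ∀ x, s x ≠ t x
  inj : Injective fun x => s(s x, t x)
  meet : ∀ x, ∃ p, p ∈ s(s (s x), t (s x)) ∧ p ∈ s(s (t x), t (t x))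
  shaped : Shaped s t

namespace Datum

variable {X : Type u} (D : Datum X)

/-- The graph with the edges `{s x, t x}`. -/
def F : SimpleGraph X := fromEdgeSet (Set.range fun x => s(D.s x, D.t x))

theorem adj (x : X) : D.F.Adj (D.s x) (D.t x) := ⟨⟨x, rfl⟩, D.ne x⟩

/-- The map `x ↦ {s x, t x}` from the graph into its line graph. -/
def c : D.F.Copy D.F.lineGraph where
  toHom :=
    { toFun := fun x => ⟨s(D.s x, D.t x), D.adj x⟩
      map_rel' := fun {a b} h => lineGraph_adj_iff_exists.2
        ⟨fun e => h.ne (D.inj (Subtype.mk.inj e)), by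
          obtain ⟨x, hx⟩ := h.1
          obtain ⟨p, h1, h2⟩ := D.meet x
          rcases Sym2.eq_iff.1 hx with ⟨rfl, rfl⟩ | ⟨rfl, rfl⟩
          exacts [⟨p, h1, h2⟩, ⟨p, h2, h1⟩]⟩ }
  injective' := fun _ _ e => D.inj (Subtype.mk.inj e)

end Datum

end Pool.Agent.P.MP_4d6a7f_co
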