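import Pool.Agent.P.MP_4d6a7f_co.GEMain
import Pool.Agent.P.MP_4d6a7f_co.GEData

/-!
The classification by data.
-/

namespace Pool.Agent.P.MP_4d6a7f_co

open SimpleGraph Function Set

universe u

theorem datum_exists {V : Type u} (G : SimpleGraph V) :
    Nonempty (G ≃g G.lineGraph) ↔ ∃ (X : Type u) (D : Datum X), Nonempty (G ≃g lim D.c) := by
  constructor
  · intro h
    obtain ⟨X, F, c, s, t, -, h1, h2, ⟨α⟩⟩ := (structure_thm G).1 h
    have h3 : ∀ x, F.Adj (s x) (t x) := fun x => by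
      have := (c x).2
      rwa [h1] at this
    let D : Datum X := ⟨s, t, fun x => (h3 x).ne,
      fun x y e => c.injective (Subtype.ext ((h1 x).trans (Eq.trans e (h1 y).symm))), fun x => by
        obtain ⟨-, p, h⟩ := lineGraph_adj_iff_exists.1 (c.toHom.map_adj (h3 x))
        exact ⟨p, h1 _ ▸ h.1, h1 _ ▸ h.2⟩, h2⟩
    obtain ⟨β⟩ := (lim_iso_iff c D.c).2 ⟨fun _ => Eq, fun _ _ _ _ a b => a.symm.trans b,
      fun _ _ _ _ a b => a.trans b.symm, by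
        rintro n x _ rfl
        exact ⟨fun p hp => ⟨p, (h1 x ▸ hp : p ∈ s(s x, t x)), rfl⟩,
          fun p hp => ⟨p, show p ∈ (c x : Sym2 X) from (h1 x).symm ▸ hp, rfl⟩⟩,
      fun _ _ => ⟨0, fun p _ => ⟨p, rfl⟩⟩, fun _ _ => ⟨0, fun p _ => ⟨p, rfl⟩⟩⟩
    exact ⟨X, D, ⟨α.trans β⟩⟩
  · rintro ⟨X, D, ⟨e⟩⟩
    exact ⟨(e.trans (limIso D.c)).trans e.symm.lineGraph⟩

end Pool.Agent.P.MP_4d6a7f_co
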