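import Pool.Agent.P.MP_4d6a7f_co.Defs

/-!
Germ equivalence of parent maps.
-/

namespace Pool.Agent.P.MP_4d6a7f_co

universe u

/-- The ancestors of depth `d` of `x`, when the two ends of `par x` are the parents of `x`. -/
def ancs {X : Type u} (par : X → Sym2 X) : ℕ → X → Set X
  | 0, x => {x}
  | d + 1, x => {q | ∃ p ∈ par x, q ∈ ancs par d p}

/-- Two parent maps have the same germ: there are one-to-one relations `R 0, R 1, ...` between
`X` and `X'` such that the parents of `R n`-related points are matched by `R (n + 1)`, and for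
every `n` and every point all its ancestors of some depth `d` take part in `R (n + d)`. -/
def Germ {X X' : Type u} (par : X → Sym2 X) (par' : X' → Sym2 X') : Prop :=
  ∃ R : ℕ → X → X' → Prop,
    (∀ n x y y', R n x y → R n x y' → y = y') ∧ (∀ n x x' y, R n x y → R n x' y → x = x') ∧
    (∀ n x y, R n x y → (∀ p ∈ par x, ∃ q ∈ par' y, R (n + 1) p q) ∧
      ∀ q ∈ par' y, ∃ p ∈ par x, R (n + 1) p q) ∧
    (∀ n x, ∃ d, ∀ p ∈ ancs par d x, ∃ q, R (n + d) p q) ∧
    ∀ n y, ∃ d, ∀ q ∈ ancs par' d y, ∃ p, R (n + d) p q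

end Pool.Agent.P.MP_4d6a7f_co
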