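import Pool.Agent.P.MP_4d6a7f_co.Grid

/-!
The structure theorem for graphs isomorphic to their line graphs.
-/

namespace Pool.Agent.P.MP_4d6a7f_co

open SimpleGraph Function

universe u

theorem structure_thm {V : Type u} (G : SimpleGraph V) :
    Nonempty (G ≃g G.lineGraph) ↔
      ∃ (X : Type u) (F : SimpleGraph X) (c : F.Copy F.lineGraph) (s t : X → X),
        Surjective c ∧ (∀ x, (c x : Sym2 X) = s(s x, t x)) ∧ Shaped s t ∧
        Nonempty (G ≃g lim c) := by
  constructor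
  · rintro ⟨Φ⟩
    have H := fix_of_iso Φ
    set φ : V → Sym2 V := fun v => (Φ v : Sym2 V) with hφ
    let r : V → V → Prop := fun v p => p ∈ φ v
    choose Z s t h1 h2 h3 using fun q : Quot r => good_all H q.out
    have hq : ∀ q, ∀ x ∈ Z q, Quot.mk r x = q := fun q x hx =>
      (Quot.eqvGen_sound (h3 q x hx).1).symm.trans q.out_eq
    refine assemble Φ (Set.range Z) (fun v => s (Quot.mk r v) v) (fun v => t (Quot.mk r v) v)
      ?_ ?_ ?_ fun P hP hP' v => ?_
    · rintro _ ⟨q, rfl⟩ _ ⟨q', rfl⟩ hne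
      exact Set.disjoint_left.2 fun x hx hx' => hne (by rw [← hq q x hx, hq q' x hx'])
    · rintro _ ⟨q, rfl⟩
      obtain ⟨D, Λ, π, d0, d1, hZ, hΛ, a1, a2, a3⟩ := h1 q
      have hm : ∀ θ n, D θ n → π θ n ∈ Z q := fun θ n h => hZ ▸ ⟨θ, n, h, rfl⟩
      refine ⟨D, Λ, π, d0, d1, hZ, hΛ, fun θ => ?_, fun θ n h => ?_, fun θ n h h' => ?_⟩
      · simp only [hq q _ (hm θ 0 (d0 θ)), a1]
      · simp only [hq q _ (hm θ n (d1 θ n h)), hq q _ (hm θ (n + 1) h),
          hq q _ (h3 q _ (hm θ n (d1 θ n h))).2.2.2]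
        exact a2 θ n h
      · simp only [hq q _ (hm θ n h)]
        exact a3 θ n h h'
    · rintro _ ⟨q, rfl⟩ v hv
      simp only [hq q v hv]
      exact (h3 q v hv).2
    · have key : ∀ a b, Cn φ a b → (P a ↔ P b) := fun a b h => by
        induction h with
        | rel a b h => exact hP' a b h
        | refl => rfl
        | symm _ _ _ ih => exact ih.symm
        | trans _ _ _ _ _ ih ih' => exact ih.trans ih'
      obtain ⟨x, hx⟩ := h2 (Quot.mk r v)
      exact (key x v (Quot.eqvGen_exact (hq _ x hx))).1 (hP x ⟨_, ⟨_, rfl⟩, hx⟩)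
  · rintro ⟨X, F, c, -, -, -, -, -, ⟨e⟩⟩
    obtain ⟨f⟩ := lim_iso c
    exact ⟨(e.trans f).trans e.symm.lineGraph⟩

end Pool.Agent.P.MP_4d6a7f_co
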