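import Pool.Agent.P.MP_4d6a7f_co.GEWhit
import Pool.Agent.P.MP_4d6a7f_co.GEDefs
import Pool.Agent.P.MP_4d6a7f_co.FDMod
import Pool.Agent.P.MP_4d6a7f_co.Main

/-!
Two limits are isomorphic exactly when the parent maps have the same germ.
-/

namespace Pool.Agent.P.MP_4d6a7f_co

open SimpleGraph Function Set

universe u

variable {V V' X X' : Type u} {G : SimpleGraph V} {G' : SimpleGraph V'} {φ : V → Sym2 V}
  {φ' : V' → Sym2 V'} {par : X → Sym2 X} {par' : X' → Sym2 X'} {e : X → V} {e' : X' → V'}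
  {R : ℕ → X → X' → Prop} {S : ℕ → V → V' → Prop} {n : ℕ} {a b v : V} {a' b' v' : V'}

/-- `G` is generated by a copy of the parent map `par`. -/
structure Gen (G : SimpleGraph V) (φ : V → Sym2 V) (par : X → Sym2 X) (e : X → V) : Prop where
  fix : Fix G φ
  inj : Injective e
  phi : ∀ y, φ (e y) = Sym2.map e (par y)
  gen : ∀ v, Cl φ (range e) v

theorem gen_lim {F : SimpleGraph X} (c : F.Copy F.lineGraph) :
    Gen (lim c) (fun v => (limIso c v : Sym2 _)) (fun x => (c x : Sym2 X)) (io c 0) := by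
  have h : ∀ n (z : (iter F (n + 1)).1),
      (limIso c (io c (n + 1) z) : Sym2 _) = Sym2.map (io c n) z.1 :=
    fun n z => congrArg Subtype.val (limPhi_io c n z)
  refine ⟨fix_of_iso _, io_inj _ 0, fun y => ?_, fun v => ?_⟩
  · have := h 0 (step c 0 y)
    rwa [io_step] at this
  · obtain ⟨⟨n, z⟩, rfl⟩ := Quot.exists_rep v
    induction n with
    | zero => exact Cl.base ⟨z, rfl⟩
    | succ n ih =>
      refine Cl.step fun p hp => ?_
      obtain ⟨y, -, rfl⟩ := Sym2.mem_map.1 (h n z ▸ hp)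
      exact ih y

/-- The closure of a sequence of relations under taking children. -/
inductive Rb (φ : V → Sym2 V) (φ' : V' → Sym2 V') (S : ℕ → V → V' → Prop) : ℕ → V → V' → Prop
  | base {n : ℕ} {v : V} {v' : V'} : S n v v' → Rb φ φ' S n v v'
  | step {n : ℕ} {v a b : V} {v' a' b' : V'} : φ v = s(a, b) → φ' v' = s(a', b') →
      Rb φ φ' S (n + 1) a a' → Rb φ φ' S (n + 1) b b' → Rb φ φ' S n v v'

theorem Rb.symm (h : Rb φ φ' S n v v') : Rb φ' φ (fun n v' v => S n v v') n v' v := by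
  induction h with
  | base h => exact .base h
  | step h1 h2 _ _ i1 i2 => exact .step h2 h1 i1 i2

/-- The hypotheses on a sequence of relations, in one direction. -/
structure Sq (φ : V → Sym2 V) (φ' : V' → Sym2 V') (S : ℕ → V → V' → Prop) : Prop where
  fn : ∀ n v y y', S n v y → S n v y' → y = y'
  par : ∀ n v y, S n v y → ∀ p ∈ φ v, ∃ q ∈ φ' y, S (n + 1) p q

theorem Rb.unfold (Q : Sq φ φ' S) (h : Rb φ φ' S n v v') :
    ∀ p ∈ φ v, ∃ q ∈ φ' v', Rb φ φ' S (n + 1) p q := fun p hp => by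
  cases h with
  | base h =>
    obtain ⟨q, h1, h2⟩ := Q.par _ _ _ h p hp
    exact ⟨q, h1, .base h2⟩
  | step h1 h2 h3 h4 =>
    rcases mem_or h1 hp with rfl | rfl
    exacts [⟨_, mem_l h2, h3⟩, ⟨_, mem_r h2, h4⟩]

theorem Rb.fn (H' : Fix G' φ') (Q : Sq φ φ' S) (h : Rb φ φ' S n v a') :
    ∀ b', Rb φ φ' S n v b' → a' = b' := by
  have key : ∀ {v v' a b a' b'} w', φ v = s(a, b) → φ' v' = s(a', b') →
      (∀ p ∈ φ v, ∃ q ∈ φ' w', (p = a → a' = q) ∧ (p = b → b' = q)) → v' = w' := by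
    intro v v' a b a' b' w' h1 h2 h
    obtain ⟨q, h3, h4, -⟩ := h a (mem_l h1)
    obtain ⟨r, h5, -, h6⟩ := h b (mem_r h1)
    exact H'.both (H'.edge _ _ _ h2).ne (mem_l h2) (mem_r h2) (h4 rfl ▸ h3) (h6 rfl ▸ h5)
  have f0 : ∀ {n v b'}, Rb φ φ' S n v b' → ∀ a', S n v a' → b' = a' := by
    intro n v b' h
    induction h with
    | base h => exact fun a' h' => Q.fn _ _ _ _ h h'
    | step h1 h2 _ _ i1 i2 =>
      refine fun w' h => key w' h1 h2 fun p hp => ?_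
      obtain ⟨q, h3, h4⟩ := Q.par _ _ _ h p hp
      exact ⟨q, h3, fun e => i1 q (e ▸ h4), fun e => i2 q (e ▸ h4)⟩
  induction h with
  | base h => exact fun b' h' => (f0 h' _ h).symm
  | step h1 h2 _ _ i1 i2 =>
    refine fun w' h => key w' h1 h2 fun p hp => ?_
    obtain ⟨q, h3, h4⟩ := h.unfold Q p hp
    exact ⟨q, h3, fun e => i1 q (e ▸ h4), fun e => i2 q (e ▸ h4)⟩

theorem Rb.adj (H : Fix G φ) (H' : Fix G' φ') (Q : Sq φ φ' S) (Q' : Sq φ' φ fun n v' v => S n v v')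
    (ha : Rb φ φ' S n a a') (hb : Rb φ φ' S n b b') (h : G.Adj a b) : G'.Adj a' b' := by
  obtain ⟨ne, z, h1, h2⟩ := (H.adj _ _).1 h
  obtain ⟨q, h3, h4⟩ := ha.unfold Q z h1
  obtain ⟨r, h5, h6⟩ := hb.unfold Q z h2
  exact H'.sib (fun e => ne (ha.symm.fn H Q' _ (e ▸ hb.symm))) h3 (h4.fn H' Q r h6 ▸ h5)

theorem Rb.total (M : Gen G φ par e) (H' : Fix G' φ') (Q : Sq φ φ' S)
    (Q' : Sq φ' φ fun n v' v => S n v v')
    (h : ∀ n x, ∃ d, ∀ p ∈ ancs par d x, ∃ q, S (n + d) (e p) q) (v : V) :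
    ∀ n, ∃ v', Rb φ φ' S n v v' := by
  have st : ∀ n v, (∀ p ∈ φ v, ∃ q, Rb φ φ' S (n + 1) p q) → ∃ v', Rb φ φ' S n v v' := by
    intro n v h
    obtain ⟨a, b, h1⟩ := exists_pair φ v
    obtain ⟨a', h2⟩ := h a (mem_l h1)
    obtain ⟨b', h3⟩ := h b (mem_r h1)
    obtain ⟨v', h4⟩ := H'.surj _ _ (h2.adj M.fix H' Q Q' h3 (M.fix.edge _ _ _ h1))
    exact ⟨v', .step h1 h4 h2 h3⟩
  have h1 : ∀ d n x, (∀ p ∈ ancs par d x, ∃ q, S (n + d) (e p) q) →
      ∃ v', Rb φ φ' S n (e x) v' := fun d => by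
    induction d with
    | zero => exact fun n x h => (h x rfl).imp fun _ => .base
    | succ d ih =>
      refine fun n x h => st n _ fun p hp => ?_
      obtain ⟨y, hy, rfl⟩ := Sym2.mem_map.1 (M.phi x ▸ hp)
      exact ih _ y fun p hp => by rw [add_right_comm]; exact h p ⟨y, hy, hp⟩
  refine M.gen v (fun v => ∀ n, ∃ v', Rb φ φ' S n v v') ?_ fun w hw n => st n w fun p hp => hw p hp _
  rintro _ ⟨x, rfl⟩ n
  obtain ⟨d, hd⟩ := h n x
  exact h1 d n x hd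

theorem Gen.sq (M : Gen G φ par e) (M' : Gen G' φ' par' e')
    (h1 : ∀ n x y y', R n x y → R n x y' → y = y')
    (h2 : ∀ n x y, R n x y → ∀ p ∈ par x, ∃ q ∈ par' y, R (n + 1) p q) :
    Sq φ φ' fun n v v' => ∃ x y, R n x y ∧ e x = v ∧ e' y = v' := by
  constructor
  · rintro n _ _ _ ⟨x, y, h, rfl, rfl⟩ ⟨x', y', h', e1, rfl⟩
    rw [h1 n x y y' h (M.inj e1 ▸ h')]
  · rintro n _ _ ⟨x, y, h, rfl, rfl⟩ p hp
    obtain ⟨p, hp', rfl⟩ := Sym2.mem_map.1 (M.phi x ▸ hp)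
    obtain ⟨q, h3, h4⟩ := h2 n x y h p hp'
    exact ⟨e' q, M'.phi y ▸ Sym2.mem_map.2 ⟨q, h3, rfl⟩, p, q, h4, rfl, rfl⟩

theorem Gen.iso (M : Gen G φ par e) (M' : Gen G' φ' par' e') (h : Germ par par') :
    Nonempty (G ≃g G') := by
  obtain ⟨R, h1, h2, h3, h4, h5⟩ := h
  have Q := M.sq M' h1 fun n x y h => (h3 n x y h).1
  have Q' : Sq φ' φ fun n v' v => ∃ x y, R n x y ∧ e x = v ∧ e' y = v' := by
    have := M'.sq M (R := fun n y x => R n x y) (fun n y x x' => h2 n x x' y)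
      fun n y x h => (h3 n x y h).2
    convert this using 4
    exact ⟨fun ⟨x, y, a, b, c⟩ => ⟨y, x, a, c, b⟩, fun ⟨x, y, a, b, c⟩ => ⟨y, x, a, c, b⟩⟩
  choose f hf using fun v => Rb.total M M'.fix Q Q' (fun n x => (h4 n x).imp fun d h p hp =>
    (h p hp).elim fun q hq => ⟨_, p, q, hq, rfl, rfl⟩) v 0
  refine ⟨⟨Equiv.ofBijective f ⟨fun a b e => (hf a).symm.fn M.fix Q' _ (e ▸ (hf b).symm),
    fun v' => ?_⟩, fun {a b} => ⟨(hf a).symm.adj M'.fix M.fix Q' Q (hf b).symm,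
      (hf a).adj M.fix M'.fix Q Q' (hf b)⟩⟩⟩
  obtain ⟨v, hv⟩ := Rb.total M' M.fix Q' Q (fun n y => (h5 n y).imp fun d h q hq =>
    (h q hq).elim fun p hp => ⟨_, p, q, hp, rfl, rfl⟩) v' 0
  exact ⟨v, (hf v).fn M'.fix Q _ hv.symm⟩

theorem Gen.deep (M : Gen G φ par e) (v : V) : ∃ d, ancs φ d v ⊆ range e := by
  have h1 : ∀ d v, ancs φ d v ⊆ range e → ancs φ (d + 1) v ⊆ range e := fun d => by
    induction d with
    | zero =>
      rintro v h _ ⟨p, hp, rfl⟩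
      obtain ⟨x, rfl⟩ := h rfl
      obtain ⟨y, -, e⟩ := Sym2.mem_map.1 (M.phi x ▸ hp)
      exact ⟨y, e⟩
    | succ d ih => exact fun v h q ⟨p, hp, hq⟩ => ih p (fun r hr => h ⟨p, hp, hr⟩) hq
  have h2 : ∀ k d v, ancs φ d v ⊆ range e → ancs φ (d + k) v ⊆ range e := fun k d v h => by
    induction k with
    | zero => exact h
    | succ k ih => exact h1 _ v ih
  refine M.gen v (fun v => ∃ d, ancs φ d v ⊆ range e) (fun v h => ⟨0, fun _ e => e ▸ h⟩)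
    fun w hw => ?_
  obtain ⟨a, b, h⟩ := exists_pair φ w
  obtain ⟨i, hi⟩ := hw a (mem_l h)
  obtain ⟨j, hj⟩ := hw b (mem_r h)
  refine ⟨i + j + 1, fun q ⟨p, hp, hq⟩ => ?_⟩
  rcases mem_or h hp with rfl | rfl
  exacts [h2 j i _ hi hq, h2 i j _ hj (add_comm i j ▸ hq)]

theorem Gen.absorb (M : Gen G φ par e) (M' : Gen G' φ' par' e') (α : ℕ → V → V')
    (h : ∀ n v, φ' (α n v) = Sym2.map (α (n + 1)) (φ v)) (n : ℕ) (x : X) :
    ∃ d, ∀ p ∈ ancs par d x, ∃ q, α (n + d) (e p) = e' q := by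
  have h1 : ∀ d n x, ∀ p ∈ ancs par d x, α (n + d) (e p) ∈ ancs φ' d (α n (e x)) := fun d => by
    induction d with
    | zero => rintro n x _ rfl; rfl
    | succ d ih =>
      rintro n x q ⟨p, hp, hq⟩
      refine ⟨α (n + 1) (e p), ?_, by rw [← add_assoc, add_right_comm]; exact ih _ p q hq⟩
      rw [h, M.phi]
      exact Sym2.mem_map.2 ⟨_, Sym2.mem_map.2 ⟨p, hp, rfl⟩, rfl⟩
  obtain ⟨d, hd⟩ := M'.deep (α n (e x))
  exact ⟨d, fun p hp => (hd (h1 d n x p hp)).imp fun _ => Eq.symm⟩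

theorem Gen.germ (M : Gen G φ par e) (M' : Gen G' φ' par' e') (α : G ≃g G') : Germ par par' := by
  choose f hf using M.fix.whitney M'.fix
  have h1 : ∀ n v, φ' (f^[n] α v) = Sym2.map (f^[n + 1] α) (φ v) := fun n v => by
    rw [iterate_succ_apply', hf]
  have h2 : ∀ n v, φ ((f^[n] α).symm v) = Sym2.map (f^[n + 1] α).symm (φ' v) := fun n v => by
    obtain ⟨v, rfl⟩ := (f^[n] α).surjective v
    rw [h1, Sym2.map_map, RelIso.symm_apply_apply]
    simp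
  refine ⟨fun n x y => f^[n] α (e x) = e' y, fun n x y y' h h' => M'.inj (h.symm.trans h'),
    fun n x x' y h h' => M.inj ((f^[n] α).injective (h.trans h'.symm)), fun n x y h => ?_,
    M.absorb M' (fun n => f^[n] α) h1, fun n y => ?_⟩
  · have h3 := h1 n (e x)
    rw [h, M.phi, M'.phi, Sym2.map_map] at h3
    refine ⟨fun p hp => ?_, fun q hq => ?_⟩
    · obtain ⟨q, hq, e⟩ := Sym2.mem_map.1 (h3 ▸ Sym2.mem_map.2 ⟨p, hp, rfl⟩ :
        f^[n + 1] α (e p) ∈ Sym2.map e' (par' y))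
      exact ⟨q, hq, e.symm⟩
    · exact Sym2.mem_map.1 (h3 ▸ Sym2.mem_map.2 ⟨q, hq, rfl⟩ :
        e' q ∈ Sym2.map (f^[n + 1] α ∘ e) (par x))
  · refine (M'.absorb M (fun n => (f^[n] α).symm) h2 n y).imp fun d h q hq => ?_
    obtain ⟨p, hp⟩ := h q hq
    exact ⟨p, (congrArg _ hp.symm).trans (RelIso.apply_symm_apply _ _)⟩

theorem lim_iso_iff {F : SimpleGraph X} {F' : SimpleGraph X'} (c : F.Copy F.lineGraph)
    (c' : F'.Copy F'.lineGraph) :
    Nonempty (lim c ≃g lim c') ↔ Germ (fun x => (c x : Sym2 X)) fun x => (c' x : Sym2 X') :=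
  ⟨fun ⟨α⟩ => (gen_lim c).germ (gen_lim c') α, (gen_lim c).iso (gen_lim c')⟩

end Pool.Agent.P.MP_4d6a7f_co
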