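import Pool.Agent.P.MP_4d6a7f_co.FDBall

/-!
Whitney's theorem for graphs that are isomorphic to their line graphs.
-/

namespace Pool.Agent.P.MP_4d6a7f_co

open SimpleGraph Function Set

universe u

variable {V V' : Type u} {G : SimpleGraph V} {G' : SimpleGraph V'} {φ : V → Sym2 V}
  {φ' : V' → Sym2 V'} {a b c d p q v w : V}

theorem Fix.sib (H : Fix G φ) (h : v ≠ w) (hv : p ∈ φ v) (hw : p ∈ φ w) : G.Adj v w :=
  (H.adj _ _).2 ⟨h, p, hv, hw⟩

theorem Fix.both (H : Fix G φ) (h : p ≠ q) (h1 : p ∈ φ v) (h2 : q ∈ φ v) (h3 : p ∈ φ w)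
    (h4 : q ∈ φ w) : v = w :=
  H.inj (((Sym2.mem_and_mem_iff h).1 ⟨h1, h2⟩).trans ((Sym2.mem_and_mem_iff h).1 ⟨h3, h4⟩).symm)

theorem Fix.claw (H : Fix G φ) (hb : G.Adj a b) (hc : G.Adj a c) (hd : G.Adj a d) (h1 : c ≠ d)
    (h2 : c ≠ b) (h3 : d ≠ b) : G.Adj b c ∨ G.Adj b d ∨ G.Adj c d := by
  obtain ⟨p, q, h⟩ := exists_pair φ a
  have key : ∀ y, G.Adj a y → p ∈ φ y ∨ q ∈ φ y := fun y hy => by
    obtain ⟨-, z, h4, h5⟩ := (H.adj _ _).1 hy
    rcases mem_or h h4 with rfl | rfl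
    exacts [Or.inl h5, Or.inr h5]
  have := fun r => H.sib (p := r) h1
  have := fun r => H.sib (p := r) h2.symm
  have := fun r => H.sib (p := r) h3.symm
  rcases key b hb with _ | _ <;> rcases key c hc with _ | _ <;> rcases key d hd with _ | _ <;>
    grind

/-- A vertex of degree three in a component with four vertices. -/
def Bad (G : SimpleGraph V) (p : V) : Prop :=
  (G.neighborSet p).encard = 3 ∧ ∀ y w, G.Adj p y → G.Adj y w → w = p ∨ G.Adj p w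

theorem Fix.paw (H : Fix G φ) (h : Bad G p) : ∃ a b c d y1 y2 y3, φ p = s(a, b) ∧
    φ y1 = s(a, c) ∧ φ y2 = s(a, d) ∧ φ y3 = s(b, c) ∧ c ≠ d ∧ c ≠ b ∧ d ≠ b ∧
    ∀ w, G.Adj p w → w = y1 ∨ w = y2 ∨ w = y3 := by
  have core : ∀ a y1 y2 y3, a ∈ φ p → a ∈ φ y1 → a ∈ φ y2 → y1 ≠ y2 →
      (∀ w, G.Adj p w ↔ w = y1 ∨ w = y2 ∨ w = y3) → ∃ a b c d y1 y2 y3, φ p = s(a, b) ∧
      φ y1 = s(a, c) ∧ φ y2 = s(a, d) ∧ φ y3 = s(b, c) ∧ c ≠ d ∧ c ≠ b ∧ d ≠ b ∧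
      ∀ w, G.Adj p w → w = y1 ∨ w = y2 ∨ w = y3 := by
    intro a y1 y2 y3 h0 h1 h2 h3 h4
    obtain ⟨b, hb⟩ := exists_other' h0
    obtain ⟨c, hc⟩ := exists_other' h1
    obtain ⟨d, hd⟩ := exists_other' h2
    have a1 := (h4 y1).2 (Or.inl rfl)
    have a2 := (h4 y2).2 (Or.inr (Or.inl rfl))
    have n1 : c ≠ d := fun e => h3 (H.inj (by rw [hc, hd, e]))
    have n2 : c ≠ b := fun e => a1.ne (H.inj (by rw [hc, hb, e]))
    have n3 : d ≠ b := fun e => a2.ne (H.inj (by rw [hd, hb, e]))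
    have e1 := H.edge _ _ _ hb
    have e2 := H.edge _ _ _ hc
    have e3 := H.edge _ _ _ hd
    have key : ∀ w z, φ w = s(b, z) → a ≠ z → w = y3 := fun w z hw hz => by
      have : a ∉ φ w := fun h => (mem_or hw h).elim e1.ne hz
      rcases (h4 w).1 (H.sib (fun e => this (e ▸ h0)) (mem_r hb) (mem_l hw)) with e | e | e
      exacts [(this (e ▸ h1)).elim, (this (e ▸ h2)).elim, e]
    rcases H.claw e1 e2 e3 n1 n2 n3 with e | e | e <;> obtain ⟨w, hw⟩ := H.surj _ _ e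
    · exact ⟨a, b, c, d, y1, y2, y3, hb, hc, hd, key w c hw e2.ne ▸ hw, n1, n2, n3,
        fun w h => (h4 w).1 h⟩
    · exact ⟨a, b, d, c, y2, y1, y3, hb, hd, hc, key w d hw e3.ne ▸ hw, n1.symm, n3, n2,
        fun w h => or_left_comm.1 ((h4 w).1 h)⟩
    · have : a ∉ φ w := fun h => (mem_or hw h).elim e2.ne e3.ne
      rcases h.2 y1 w a1 (H.sib (fun e => this (e ▸ h1)) (mem_r hc) (mem_l hw)) with e | e
      · exact (this (e ▸ h0)).elim
      · obtain ⟨-, z, h5, h6⟩ := (H.adj _ _).1 e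
        rcases mem_or hb h5 with rfl | rfl
        · exact (this h6).elim
        · exact ((mem_or hw h6).elim n2.symm n3.symm).elim
  obtain ⟨x, y, z, h1, h2, h3, h4⟩ := encard_eq_three.1 h.1
  have h5 : ∀ w, G.Adj p w ↔ w = x ∨ w = y ∨ w = z := fun w => by
    simpa using Set.ext_iff.1 h4 w
  obtain ⟨a, b, hp⟩ := exists_pair φ p
  have key : ∀ y, G.Adj p y → a ∈ φ y ∨ b ∈ φ y := fun y hy => by
    obtain ⟨-, z, h4, h5⟩ := (H.adj _ _).1 hy
    rcases mem_or hp h4 with rfl | rfl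
    exacts [Or.inl h5, Or.inr h5]
  have c1 := fun a i j k => core a x y z i j k h1 h5
  have c2 := fun a i j k => core a x z y i j k h2 fun w => (h5 w).trans (by tauto)
  have c3 := fun a i j k => core a y z x i j k h3 fun w => (h5 w).trans (by tauto)
  have m1 := mem_l hp
  have m2 := mem_r hp
  rcases key x ((h5 _).2 (by simp)) with i | i <;> rcases key y ((h5 _).2 (by simp)) with j | j <;>
    rcases key z ((h5 _).2 (by simp)) with k | k
  exacts [c1 _ m1 i j, c1 _ m1 i j, c2 _ m1 i k, c3 _ m2 j k, c3 _ m1 j k, c2 _ m2 i k,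
    c1 _ m2 i j, c1 _ m2 i j]

theorem Fix.not_bad (H : Fix G φ) (h : Bad G p) : False := by
  obtain ⟨a, b, c, d, y1, y2, y3, h0, h1, h2, h3, n1, n2, n3, h4⟩ := H.paw h
  have e1 := H.edge _ _ _ h0
  have e2 := H.edge _ _ _ h1
  have e3 := H.edge _ _ _ h2
  have n4 := e1.ne
  have n5 := e2.ne
  have n6 := e3.ne
  have a1 : G.Adj p y1 := H.sib (fun e => n2 (Sym2.congr_right.1 (h1.symm.trans (e ▸ h0))))
    (mem_l h0) (mem_l h1)
  have a2 : G.Adj p y2 := H.sib (fun e => n3 (Sym2.congr_right.1 (h2.symm.trans (e ▸ h0))))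
    (mem_l h0) (mem_l h2)
  have key : ∀ z z', z = a ∨ z = b ∨ z = c ∨ z = d → G.Adj z z' →
      s(z, z') = s(a, b) ∨ s(z, z') = s(a, c) ∨ s(z, z') = s(a, d) ∨ s(z, z') = s(b, c) := by
    intro z z' hz e
    obtain ⟨w, hw⟩ := H.surj _ _ e
    have h5 : w = p ∨ G.Adj p w := by
      by_cases e0 : p = w
      · exact Or.inl e0.symm
      rcases hz with rfl | rfl | rfl | rfl
      · exact Or.inr (H.sib e0 (mem_l h0) (mem_l hw))
      · exact Or.inr (H.sib e0 (mem_r h0) (mem_l hw))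
      · by_cases e' : y1 = w
        exacts [Or.inr (e' ▸ a1), h.2 _ _ a1 (H.sib e' (mem_r h1) (mem_l hw))]
      · by_cases e' : y2 = w
        exacts [Or.inr (e' ▸ a2), h.2 _ _ a2 (H.sib e' (mem_r h2) (mem_l hw))]
    rw [← hw, ← h0, ← h1, ← h2, ← h3]
    rcases h5 with rfl | h5
    · simp
    · rcases h4 w h5 with rfl | rfl | rfl <;> simp
  simp only [Sym2.eq_iff] at key
  have na : ∀ z, G.Adj a z ↔ z = b ∨ z = c ∨ z = d := fun z =>
    ⟨fun e => by have := key a z (by simp) e; grind, by rintro (rfl | rfl | rfl) <;> assumption⟩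
  have nb : ∀ z, G.Adj b z → z = a ∨ z = c := fun z e => by
    have := key b z (by simp) e; grind
  have nc : ∀ z, G.Adj c z → z = a ∨ z = b := fun z e => by
    have := key c z (by simp) e; grind
  have nd : ∀ z, G.Adj d z → z = a := fun z e => by
    have := key d z (by simp) e; grind
  obtain ⟨a', b', c', d', z1, z2, z3, g0, g1, g2, g3, m1, m2, m3, -⟩ := H.paw (p := a)
    ⟨encard_eq_three.2 ⟨b, c, d, n2.symm, n3.symm, n1, by ext z; simpa using na z⟩,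
      fun y w hy hw => by rw [na] at hy ⊢; grind⟩
  have m4 := (H.edge _ _ _ g0).ne
  have m5 := (H.edge _ _ _ g1).ne
  have ne : ∀ {v w : V} {s t : Sym2 V}, φ v = s → φ w = t → s ≠ t → v ≠ w :=
    fun h h' n e => n (h.symm.trans (e ▸ h'))
  have b1 : G.Adj a z1 := H.sib (ne g0 g1 (by simp; grind)) (mem_l g0) (mem_l g1)
  have b2 : G.Adj z1 z2 := H.sib (ne g1 g2 (by simp; grind)) (mem_l g1) (mem_l g2)
  have b3 : G.Adj z1 z3 := H.sib (ne g1 g3 (by simp; grind)) (mem_r g1) (mem_r g3)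
  have b4 : a ≠ z2 := ne g0 g2 (by simp; grind)
  have b5 : a ≠ z3 := ne g0 g3 (by simp; grind)
  have b6 : z2 ≠ z3 := ne g2 g3 (by simp; grind)
  rcases (na _).1 b1 with rfl | rfl | rfl
  · have := nb _ b2; have := nb _ b3; grind
  · have := nc _ b2; have := nc _ b3; grind
  · exact b4 (nd _ b2).symm

/-- Pairwise meeting edges without a common end are three in number. -/
theorem Fix.tri (H : Fix G φ) {K : Set V} (hm : ∀ v ∈ K, ∀ w ∈ K, ∃ p, p ∈ φ v ∧ p ∈ φ w)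
    (hv : v ∈ K) (h0 : ∀ p, ∃ w ∈ K, p ∉ φ w) : K.encard = 3 := by
  obtain ⟨p, q, h⟩ := exists_pair φ v
  obtain ⟨a, ha, hpa⟩ := h0 p
  obtain ⟨b, hb, hqb⟩ := h0 q
  obtain ⟨z, h1, h2⟩ := hm v hv a ha
  obtain rfl : z = q := (mem_or h h1).resolve_left fun e => hpa (e ▸ h2)
  obtain ⟨y, h3, h4⟩ := hm v hv b hb
  obtain rfl : y = p := (mem_or h h3).resolve_right fun e => hqb (e ▸ h4)
  obtain ⟨c, hc⟩ := exists_other' h2
  obtain ⟨c', h5, h6⟩ := hm a ha b hb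
  obtain rfl : c' = c := (mem_or hc h5).resolve_left fun e => hqb (e ▸ h6)
  have hyc : y ≠ c' := fun e => hpa (e ▸ h5)
  have hb' : φ b = s(y, c') := (Sym2.mem_and_mem_iff hyc).1 ⟨h4, h6⟩
  refine encard_eq_three.2 ⟨v, a, b, fun e => hpa (e ▸ h3), fun e => hqb (e ▸ h1),
    fun e => hpa (e ▸ h4), Set.ext fun w => ⟨fun hw => ?_, ?_⟩⟩
  · obtain ⟨m1, a1, b1⟩ := hm v hv w hw
    obtain ⟨m2, a2, b2⟩ := hm a ha w hw
    obtain ⟨m3, a3, b3⟩ := hm b hb w hw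
    have c1 := fun i j => H.both (H.edge _ _ _ h).ne i j h3 h1 (v := w)
    have c2 := fun i j => H.both (H.edge _ _ _ hc).ne i j h2 h5 (v := w)
    have c3 := fun i j => H.both hyc i j h4 h6 (v := w)
    simp only [mem_insert_iff, mem_singleton_iff]
    rcases mem_or h a1 with rfl | rfl <;> rcases mem_or hc a2 with rfl | rfl <;>
      rcases mem_or hb' a3 with rfl | rfl <;> tauto
  · rintro (rfl | rfl | rfl) <;> assumption

theorem Fix.star' (H : Fix G φ) (H' : Fix G' φ') (α : G ≃g G') (hv : p ∈ φ v) :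
    ∃ p', ∀ v, p ∈ φ v → p' ∈ φ' (α v) := by
  by_contra hn
  push Not at hn
  have hm : ∀ v w, p ∈ φ v → p ∈ φ w → ∃ z, z ∈ φ' (α v) ∧ z ∈ φ' (α w) := fun v w hv hw => by
    by_cases h : v = w
    · obtain ⟨a, b, e⟩ := exists_pair φ' (α v)
      exact ⟨a, mem_l e, h ▸ mem_l e⟩
    · exact ((H'.adj _ _).1 (α.map_rel_iff.2 (H.sib h hv hw))).2
  have h1 := H'.tri (K := α '' {v | p ∈ φ v})
    (by rintro _ ⟨v, hv, rfl⟩ _ ⟨w, hw, rfl⟩; exact hm v w hv hw) ⟨v, hv, rfl⟩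
    fun z => by obtain ⟨w, h1, h2⟩ := hn z; exact ⟨_, ⟨w, h1, rfl⟩, h2⟩
  rw [α.injective.encard_image, show {v | p ∈ φ v} = {w | ∃ y ∈ univ, φ w = s(p, y)} from
    Set.ext fun w => ⟨fun h => by simpa using exists_other' h, fun ⟨y, _, h⟩ => mem_l h⟩,
    H.kid_card, inter_univ] at h1
  refine H.not_bad ⟨h1, fun y w hy hw => ?_⟩
  by_cases e : w = p
  · exact Or.inl e
  obtain ⟨v, h2⟩ := H.surj _ _ hy
  obtain ⟨u, h3⟩ := H.surj _ _ hw
  have h4 : p ∉ φ u := fun h => (mem_or h3 h).elim hy.ne (Ne.symm e)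
  obtain ⟨-, z, h5, h6⟩ := (H'.adj _ _).1 (α.map_rel_iff.2
    (H.sib (fun e : u = v => h4 (e ▸ mem_l h2)) (mem_l h3) (mem_r h2)))
  obtain ⟨z', h7⟩ := exists_other' h6
  obtain ⟨v', h8, h9⟩ := hn z'
  obtain ⟨m, h10, h11⟩ := hm v v' (mem_l h2) h8
  obtain rfl : m = z := (mem_or h7 h10).resolve_right fun e => h9 (e ▸ h11)
  obtain ⟨-, r, h12, h13⟩ := (H.adj _ _).1 (α.map_rel_iff.1
    (H'.sib (α.injective.ne fun e : u = v' => h4 (e ▸ h8)) h5 h11))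
  rcases mem_or h3 h12 with rfl | rfl
  · exact (h9 (H.both hy.ne h8 h13 (mem_l h2) (mem_r h2) ▸ mem_r h7)).elim
  · exact (H.eq_or_adj h8 h13).imp_left Eq.symm

theorem Fix.big (H : Fix G φ) (H' : Fix G' φ') (α : G ≃g G') (h : v ≠ w) (hv : p ∈ φ v)
    (hw : p ∈ φ w) : ∃ p', ∀ v, p ∈ φ v ↔ p' ∈ φ' (α v) := by
  obtain ⟨p', h1⟩ := H.star' H' α hv
  obtain ⟨q, h2⟩ := H'.star' H α.symm (h1 v hv)
  have h3 : ∀ v, p' ∈ φ' (α v) → q ∈ φ v := fun v h => by simpa using h2 _ h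
  obtain rfl : p = q := by_contra fun e =>
    h (H.both e hv (h3 v (h1 v hv)) hw (h3 w (h1 w hw)))
  exact ⟨p', fun v => ⟨h1 v, h3 v⟩⟩

theorem Fix.lift (H : Fix G φ) (H' : Fix G' φ') (α : G ≃g G') :
    ∃ f : V → V', Injective f ∧ ∀ p v, p ∈ φ v ↔ f p ∈ φ' (α v) := by
  classical
  have : ∀ p, ∃ p', (∀ v, p ∈ φ v ↔ p' ∈ φ' (α v)) ∧ ((∀ v, p ∉ φ v) → p' = α p) ∧
      ∀ v, (∀ w, ¬ G.Adj v w) → p ∈ φ v → (p = (φ v).out.1 ↔ p' = (φ' (α v)).out.1) := by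
    intro p
    by_cases h0 : ∀ v, p ∉ φ v
    · refine ⟨α p, fun v => ⟨fun h => (h0 v h).elim, fun h => ?_⟩, fun _ => rfl,
        fun v _ h => (h0 v h).elim⟩
      obtain ⟨y, hy⟩ := exists_other' h
      obtain ⟨y, rfl⟩ := α.surjective y
      obtain ⟨w, hw⟩ := H.surj _ _ (α.map_rel_iff.1 (H'.edge _ _ _ hy))
      exact (h0 w (mem_l hw)).elim
    obtain ⟨v, hv⟩ : ∃ v, p ∈ φ v := by simpa using h0
    have e : φ' (α v) = s((φ' (α v)).out.1, (φ' (α v)).out.2) := (Quot.out_eq _).symm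
    have n := (H'.edge _ _ _ e).ne
    by_cases h1 : ∀ w, ¬ G.Adj v w
    · have u1 : ∀ w, p ∈ φ w → w = v := fun w hw => by_contra fun e => h1 w (H.sib (Ne.symm e) hv hw)
      have u2 : ∀ z ∈ φ' (α v), ∀ w, p ∈ φ w ↔ z ∈ φ' (α w) := fun z hz w =>
        ⟨fun h => u1 w h ▸ hz, fun h => by
          by_contra e
          exact h1 w (α.map_rel_iff.1 (H'.sib (α.injective.ne fun e' => e (e' ▸ hv)) hz h))⟩
      by_cases h2 : p = (φ v).out.1
      · exact ⟨_, u2 _ (mem_l e), fun h => (h0 h).elim, fun w _ hw => by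
          rw [u1 w hw]; exact iff_of_true h2 rfl⟩
      · exact ⟨_, u2 _ (mem_r e), fun h => (h0 h).elim, fun w _ hw => by
          rw [u1 w hw]; exact iff_of_false h2 n.symm⟩
    by_cases h2 : ∃ w, v ≠ w ∧ p ∈ φ w
    · obtain ⟨w, h3, h4⟩ := h2
      obtain ⟨p', h5⟩ := H.big H' α h3 hv h4
      refine ⟨p', h5, fun h => (h0 h).elim, fun u hu h => ?_⟩
      by_cases e : u = v
      exacts [(h1 (e ▸ hu)).elim, (hu v (H.sib e h hv)).elim]
    push Not at h2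
    have u1 : ∀ w, p ∈ φ w → w = v := fun w hw => by_contra fun e => h2 w (Ne.symm e) hw
    obtain ⟨z, h3, h4⟩ : ∃ z ∈ φ' (α v), ∀ w, z ∈ φ' (α w) → w = v := by
      by_contra hn
      push Not at hn
      obtain ⟨q, hq⟩ := exists_other' hv
      have key : ∀ z ∈ φ' (α v), ∃ w, w ≠ v ∧ z ∈ φ' (α w) ∧ ∀ u, z ∈ φ' (α u) ↔ q ∈ φ u := by
        intro z hz
        obtain ⟨w, h5, h6⟩ := hn z hz
        obtain ⟨r, hr⟩ := H'.big H α.symm (α.injective.ne h6) h5 hz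
        have h7 : ∀ u, z ∈ φ' (α u) ↔ r ∈ φ u := fun u => by simpa using hr (α u)
        obtain rfl : r = q := (mem_or hq ((h7 v).1 hz)).resolve_left fun e =>
          h6 (u1 w (e ▸ (h7 w).1 h5))
        exact ⟨w, h6, h5, h7⟩
      obtain ⟨w, h5, h6, h7⟩ := key _ (mem_l e)
      obtain ⟨-, -, -, h8⟩ := key _ (mem_r e)
      exact h5 (α.injective (H'.both n h6 ((h8 w).2 ((h7 w).1 h6)) (mem_l e) (mem_r e)))
    exact ⟨z, fun w => ⟨fun h => u1 w h ▸ h3, fun h => h4 w h ▸ hv⟩, fun h => (h0 h).elim,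
      fun u hu h => (h1 (u1 u h ▸ hu)).elim⟩
  choose f h1 h2 h3 using this
  refine ⟨f, fun p q e => by_contra fun n => ?_, h1⟩
  have h4 : ∀ v, p ∈ φ v ↔ q ∈ φ v := fun v => by rw [h1, h1, e]
  by_cases h0 : ∀ v, p ∉ φ v
  · exact n (α.injective (by rw [← h2 p h0, ← h2 q fun v h => h0 v ((h4 v).2 h), e]))
  obtain ⟨v, hv⟩ : ∃ v, p ∈ φ v := by simpa using h0
  have h5 : φ v = s(p, q) := (Sym2.mem_and_mem_iff n).1 ⟨hv, (h4 v).1 hv⟩
  have h6 : ∀ w, ¬ G.Adj v w := fun w hw => by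
    obtain ⟨ne, z, h7, h8⟩ := (H.adj _ _).1 hw
    have : p ∈ φ w := by
      rcases mem_or h5 h7 with rfl | rfl
      exacts [h8, (h4 w).2 h8]
    exact ne (H.both n hv (mem_r h5) this ((h4 w).1 this))
  have h7 := (h3 p v h6 hv).trans (e ▸ (h3 q v h6 (mem_r h5)).symm)
  rcases mem_or h5 (Sym2.out_fst_mem _) with h8 | h8
  · exact n (h8.symm.trans (h7.1 h8.symm).symm)
  · exact n ((h7.2 h8.symm).trans h8)

/-- An isomorphism of the graphs comes from an isomorphism one step up. -/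
theorem Fix.whitney (H : Fix G φ) (H' : Fix G' φ') (α : G ≃g G') :
    ∃ β : G ≃g G', ∀ v, φ' (α v) = Sym2.map β (φ v) := by
  obtain ⟨f, f1, f2⟩ := H.lift H' α
  obtain ⟨g, g1, g2⟩ := H'.lift H α.symm
  obtain ⟨h, hb, hh⟩ := Embedding.schroeder_bernstein_of_rel f1 g1
    (fun p p' => ∀ v, p ∈ φ v ↔ p' ∈ φ' (α v)) f2 fun p v => by simpa using (g2 p (α v)).symm
  have h1 : ∀ v, φ' (α v) = Sym2.map h (φ v) := fun v => by
    obtain ⟨p, q, e⟩ := exists_pair φ v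
    rw [e]
    exact (Sym2.mem_and_mem_iff (hb.1.ne (H.edge _ _ _ e).ne)).1
      ⟨(hh _ _).1 (mem_l e), (hh _ _).1 (mem_r e)⟩
  refine ⟨⟨Equiv.ofBijective h hb, fun {p q} => ⟨fun e => ?_, fun e => ?_⟩⟩, h1⟩
  · obtain ⟨v, hv⟩ := H'.surj _ _ e
    obtain ⟨v, rfl⟩ := α.surjective v
    exact H.edge v _ _ (Sym2.map.injective hb.1 ((h1 v).symm.trans hv))
  · obtain ⟨v, hv⟩ := H.surj _ _ e
    exact H'.edge (α v) _ _ (by rw [h1, hv]; rfl)

end Pool.Agent.P.MP_4d6a7f_co
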