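import Pool.Agent.P.MP_4d6a7f_co.Thr

/-!
Seeds of shift type, and the existence of a seed in every class.
-/

namespace Pool.Agent.P.MP_4d6a7f_co

open SimpleGraph Function

universe u

variable {V : Type u} {G : SimpleGraph V} {φ : V → Sym2 V} {a b p q v w y : V}

/-- A grid of ancestors with a shift relation contains a seed. -/
theorem good_grid (H : Fix G φ) (X : ℕ → ℕ → V) {k r : ℕ} (hk : 0 < k) (hr : 0 < r)
    (hv : Cn φ v (X 0 0)) (g1 : ∀ M I, φ (X M I) = s(X (M + 1) I, X (M + 1) (I + 1)))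
    (g2 : ∀ M I, X (M + k) I = X M (I + r))
    (g3 : ∀ M M', G.Reachable (X M 0) (X M' 0) → M ≡ M' [MOD k]) : Good φ v := by
  classical
  have sh : ∀ M I q, X (M + k * q) I = X M (I + r * q) := fun M I q => by
    induction q generalizing I with
    | zero => rfl
    | succ q ih => rw [Nat.mul_succ, ← add_assoc, g2, ih, Nat.mul_succ]; congr 1; omega
  have ad : ∀ M I, G.Adj (X (M + 1) I) (X (M + 1) (I + 1)) := fun M I => H.edge _ _ _ (g1 M I)
  have row : ∀ M I, G.Reachable (X (M + 1) 0) (X (M + 1) I) := fun M I => by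
    induction I with
    | zero => exact .refl _
    | succ I ih => exact ih.trans (ad M I).reachable
  obtain ⟨g, m, i, p1, p2⟩ : ∃ g m i, (∀ M I, X (m + M + 1) (i + I) = X (m + M + 1) (i + I + g)) ∧
      ∀ d, 0 < d → d < g ∨ g = 0 → ∀ M I, X (M + 1) I ≠ X (M + 1) (I + d) := by
    by_cases hex : ∃ g, 0 < g ∧ ∃ M I, X (M + 1) I = X (M + 1) (I + g)
    swap
    · exact ⟨0, 0, 0, fun _ _ => rfl, fun d hd _ M I e => hex ⟨d, hd, M, I, e⟩⟩
    obtain ⟨g0, m, i, e0⟩ := Nat.find_spec hex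
    have hmin : ∀ d, 0 < d → d < Nat.find hex → ∀ M I, X (M + 1) I ≠ X (M + 1) (I + d) :=
      fun d hd h M I e => Nat.find_min hex h ⟨hd, M, I, e⟩
    generalize Nat.find hex = g at g0 e0 hmin
    have st : ∀ M I, X (M + 1) I = X (M + 1) (I + g) →
        X (M + 2) I = X (M + 2) (I + g) ∧ X (M + 2) (I + 1) = X (M + 2) (I + 1 + g) := by
      intro M I e
      have e1 := g1 (M + 1) I
      rw [e, g1, Sym2.eq_iff] at e1
      rcases e1 with ⟨h1, h2⟩ | ⟨h1, -⟩
      · exact ⟨h1.symm, by rw [add_right_comm]; exact h2.symm⟩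
      · obtain ⟨d, rfl⟩ : ∃ d, g = d + 1 := ⟨g - 1, by omega⟩
        rcases Nat.eq_zero_or_pos d with rfl | hd
        · exact ((ad M I).ne e).elim
        · refine (hmin d hd d.lt_succ_self (M + 1) (I + 1) ?_).elim
          rw [← h1]
          congr 1
          omega
    have cone : ∀ a b, b ≤ a → X (m + a + 1) (i + b) = X (m + a + 1) (i + b + g) := by
      intro a
      induction a with
      | zero => intro b hb; obtain rfl : b = 0 := by omega
                exact e0
      | succ a ih =>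
        intro b hb
        obtain _ | b := b
        · exact (st _ _ (ih 0 a.zero_le)).1
        · exact (st _ _ (ih b (by omega))).2
    refine ⟨g, m + r, i, fun M I => ?_, fun d hd h => hmin d hd (h.resolve_right g0.ne')⟩
    have h1 := cone (r + M + k * (I / r)) (I % r) (by have := Nat.mod_lt I hr; omega)
    have h2 := Nat.mod_add_div I r
    rw [show m + (r + M + k * (I / r)) + 1 = m + r + M + 1 + k * (I / r) by omega, sh, sh] at h1
    rwa [show i + I % r + r * (I / r) = i + I by omega,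
      show i + I % r + g + r * (I / r) = i + I + g by omega] at h1
  have p3 : ∀ M I J, X (m + M + 1) (i + I) = X (m + M + 1) (i + J) ↔ I ≡ J [MOD g] := fun M =>
    rel_iff_modEq (R := fun I J => X (m + M + 1) (i + I) = X (m + M + 1) (i + J))
      ⟨fun _ => rfl, Eq.symm, Eq.trans⟩ (fun I => by rw [← add_assoc]; exact p1 M I)
      fun I d hd h => by rw [← add_assoc]; exact p2 d hd h _ _
  let Λ : AddSubgroup (ℤ × ℤ) :=
    { carrier := {z | ∃ q : ℤ, z.1 + z.2 = k * q ∧ (g : ℤ) ∣ z.2 + r * q}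
      zero_mem' := ⟨0, by simp, by simp⟩
      add_mem' := by
        rintro z z' ⟨q, h1, h2⟩ ⟨q', h3, h4⟩
        refine ⟨q + q', by simp only [Prod.fst_add, Prod.snd_add]; linarith, ?_⟩
        rw [show (z + z').2 + r * (q + q') = z.2 + r * q + (z'.2 + r * q') by
          simp only [Prod.snd_add]; ring]
        exact dvd_add h2 h4
      neg_mem' := by
        rintro z ⟨q, h1, h2⟩
        refine ⟨-q, by simp only [Prod.fst_neg, Prod.snd_neg]; linarith, ?_⟩
        rw [show (-z).2 + r * -q = -(z.2 + r * q) by simp only [Prod.snd_neg]; ring]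
        exact h2.neg_right }
  let π : ℕ → ℕ → V := fun θ n => X (m + (θ + n) + 1) (i + n)
  have half : ∀ θ n θ' n', θ' + n' ≤ θ + n →
      (π θ n = π θ' n' ↔ ((θ : ℤ) - θ', (n : ℤ) - n') ∈ Λ) := by
    intro θ n θ' n' hle
    have key : ∀ q, θ + n = θ' + n' + k * q → (π θ n = π θ' n' ↔ (g : ℤ) ∣ n - n' + r * q) := by
      intro q hq
      have : π θ n = X (m + (θ' + n') + 1) (i + (n + r * q)) := by
        rw [← add_assoc i, ← sh]
        exact congrArg (X · (i + n)) (by omega)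
      rw [this, p3, Nat.ModEq.comm, Nat.modEq_iff_dvd]
      push_cast
      rw [add_sub_right_comm]
    constructor
    · intro e
      have h0 : G.Reachable (π θ n) (X (m + (θ + n) + 1) 0) := (row _ _).symm
      rw [e] at h0
      have h1 := g3 _ _ ((row _ _).trans h0)
      obtain ⟨q, hq⟩ := (Nat.modEq_iff_dvd' (by omega)).1 h1
      have h2 : θ + n = θ' + n' + k * q := by omega
      refine ⟨q, ?_, (key q h2).1 e⟩
      have : (θ : ℤ) + n = θ' + n' + k * q := by exact_mod_cast h2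
      simp only
      linarith
    · rintro ⟨q, h1, h2⟩
      simp only at h1 h2
      have h3 : 0 ≤ q := by
        have : (0 : ℤ) ≤ k * q := by omega
        exact nonneg_of_mul_nonneg_right this (by exact_mod_cast hk)
      lift q to ℕ using h3
      refine (key q ?_).2 h2
      have : (θ : ℤ) + n = θ' + n' + k * q := by linarith
      exact_mod_cast this
  have hΛ : ∀ θ n θ' n', π θ n = π θ' n' ↔ ((θ : ℤ) - θ', (n : ℤ) - n') ∈ Λ := by
    intro θ n θ' n'
    rcases le_total (θ' + n') (θ + n) with h | h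
    · exact half _ _ _ _ h
    · rw [eq_comm, half _ _ _ _ h, ← Λ.neg_mem_iff]
      simp
  have hφ : ∀ θ n, φ (π θ n) = s(π θ (n + 1), π (θ + 1) n) := fun θ n => by
    rw [g1, Sym2.eq_swap]
    exact congrArg₂ (fun a b => s(a, b)) rfl (congrArg (X · (i + n)) (by omega))
  have hc : ∀ M I, I ≤ M → Cn φ v (X M I) := fun M => by
    induction M with
    | zero => intro I hI; obtain rfl : I = 0 := by omega
              exact hv
    | succ M ih =>
      intro I hI
      obtain _ | I := I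
      · exact (ih 0 M.zero_le).par (by rw [g1]; exact Sym2.mem_mk_left _ _)
      · exact (ih I (by omega)).par (by rw [g1]; exact Sym2.mem_mk_right _ _)
  have hc' : ∀ I M, Cn φ v (X (M + 1) I) := fun I M => by
    induction I with
    | zero => exact hc _ _ (Nat.zero_le _)
    | succ I ih =>
      exact Relation.EqvGen.trans _ _ _ (Relation.EqvGen.trans _ _ _
        (ih.par (p := X (M + 2) (I + 1)) (by rw [g1]; exact Sym2.mem_mk_right _ _))
        (Relation.EqvGen.refl _)) (Relation.EqvGen.symm _ _ (Relation.EqvGen.rel _ _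
          (by rw [g1]; exact Sym2.mem_mk_left _ _)))
  refine good_of (fun _ _ => True) Λ π (fun θ n => π θ (n + 1)) (fun θ n => π (θ + 1) n)
    (fun _ => trivial) (fun _ _ _ => trivial) (fun θ n θ' n' _ _ => hΛ θ n θ' n') hφ
    (fun θ n θ' n' _ _ e => ?_) (fun _ => rfl) (fun θ n _ => ⟨rfl, ?_⟩)
    (fun _ _ _ h => (h trivial).elim) (fun θ n => ⟨_, _, trivial, rfl⟩) fun θ n => hc' _ _
  · rw [hΛ] at e ⊢
    push_cast
    rwa [add_sub_add_right_eq_sub]
  · rw [hφ]
    exact Sym2.mem_mk_left _ _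

/-- `y` is an ancestor of `w` of depth `k`. -/
def Anc (φ : V → Sym2 V) : ℕ → V → V → Prop
  | 0, w, y => w = y
  | k + 1, w, y => ∃ p ∈ φ w, Anc φ k p y

theorem Anc.snoc : ∀ {k : ℕ} {w : V}, Anc φ k w y → q ∈ φ y → Anc φ (k + 1) w q
  | 0, _, h, hq => ⟨q, h ▸ hq, rfl⟩
  | _ + 1, _, ⟨p, hp, h⟩, hq => ⟨p, hp, h.snoc hq⟩

theorem Line.anc {u : ℕ → V} (hu : Line φ u) : ∀ k, Anc φ k (u 0) (u k)
  | 0 => rfl
  | k + 1 => (hu.anc k).snoc (hu k)

theorem Anc.line : ∀ {k : ℕ} {w : V}, Anc φ k w y → ∃ u, Line φ u ∧ u 0 = w ∧ u k = y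
  | 0, w, h => by
    have : ∀ x, ∃ p, p ∈ φ x := fun x => ⟨(φ x).out.1, Sym2.out_fst_mem _⟩
    choose f hf using this
    exact ⟨fun n => f^[n] w, fun n => by simp only [iterate_succ_apply']; exact hf _, rfl, h⟩
  | k + 1, w, ⟨p, hp, h⟩ => by
    obtain ⟨u, hu, rfl, rfl⟩ := h.line
    refine ⟨fun n => Nat.casesOn n w u, fun n => ?_, rfl, rfl⟩
    cases n
    exacts [hp, hu _]

/-- A shortest walk from a vertex to one of its ancestors of depth `k`. -/
structure St (G : SimpleGraph V) (φ : V → Sym2 V) (v : V) (k r : ℕ) (γ : ℕ → V) : Prop where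
  cn : Cn φ v (γ 0)
  adj : ∀ i < r, G.Adj (γ i) (γ (i + 1))
  an : Anc φ k (γ 0) (γ r)

theorem St.next (H : Fix G φ) {k r : ℕ} {γ : ℕ → V} (h : St G φ v k (r + 1) γ)
    (hmin : ∀ w y, Cn φ v w → Anc φ k w y → ((r + 1 : ℕ) : ℕ∞) ≤ G.edist w y) :
    ∃ δ, St G φ v k (r + 1) δ ∧ (∀ i ≤ r + 1, φ (γ i) = s(δ i, δ (i + 1))) ∧
      ¬ Anc φ k (δ 1) (δ (r + 1)) := by
  have : ∀ i, ∃ p, i < r + 1 → p ∈ φ (γ i) ∧ p ∈ φ (γ (i + 1)) := fun i => by
    by_cases hi : i < r + 1
    · obtain ⟨p, hp⟩ := ((H.adj _ _).1 (h.adj i hi)).2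
      exact ⟨p, fun _ => hp⟩
    · exact ⟨v, fun h => (hi h).elim⟩
  choose p hp using this
  obtain ⟨a, ha⟩ := exists_other (hp 0 r.succ_pos).1
  obtain ⟨b, hb⟩ := exists_other (hp r r.lt_succ_self).2
  let δ : ℕ → V := fun i => Nat.casesOn i a fun j => if j < r + 1 then p j else b
  have d1 : ∀ j < r + 1, δ (j + 1) = p j := fun j hj => if_pos hj
  have d2 : δ (r + 2) = b := if_neg (lt_irrefl _)
  have m1 : ∀ i < r + 1, δ i ∈ φ (γ i) ∧ δ (i + 1) ∈ φ (γ i) := fun i hi => by
    refine ⟨?_, d1 i hi ▸ (hp i hi).1⟩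
    obtain _ | i := i
    · rw [ha]; exact Sym2.mem_mk_left _ _
    · exact d1 i (by omega) ▸ (hp i (by omega)).2
  have ch : ∀ i j, i + j ≤ r + 1 → G.edist (δ i) (δ (i + j)) ≤ j := fun i j hj => by
    induction j with
    | zero => simp
    | succ j ih =>
      refine (G.edist_triangle (v := δ (i + j))).trans ?_
      push_cast
      refine add_le_add (ih (by omega)) ?_
      rcases H.eq_or_adj (m1 (i + j) (by omega)).1 (m1 (i + j) (by omega)).2 with e | e
      · rw [e, ← add_assoc, edist_self]; exact zero_le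
      · exact (edist_eq_one_iff_adj.2 e).le
  have c0 := h.cn.par (m1 0 r.succ_pos).1
  have n1 : ¬ Anc φ k (δ 1) (δ (r + 1)) := fun e => by
    have h1 := (hmin _ _ (h.cn.par (m1 0 r.succ_pos).2) e).trans
      (add_comm 1 r ▸ ch 1 r (by omega))
    exact absurd (Nat.cast_le.1 h1) (by omega)
  have a0 : Anc φ k (δ 0) (δ (r + 1)) := by
    obtain ⟨x, hx, e⟩ := h.an.snoc (d1 r r.lt_succ_self ▸ (hp r r.lt_succ_self).2)
    rw [ha, Sym2.mem_iff] at hx
    rcases hx with rfl | rfl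
    · exact e
    · exact (n1 (d1 0 r.succ_pos ▸ e)).elim
  have ne : ∀ i < r + 1, δ i ≠ δ (i + 1) := fun i hi e => by
    have h1 := ch 0 i (by omega)
    have h2 := ch (i + 1) (r - i) (by omega)
    rw [zero_add, e] at h1
    rw [show i + 1 + (r - i) = r + 1 by omega] at h2
    have h3 := (hmin _ _ c0 a0).trans ((G.edist_triangle (v := δ (i + 1))).trans (add_le_add h1 h2))
    exact absurd (Nat.cast_le.1 (h3.trans_eq (Nat.cast_add _ _).symm)) (by omega)
  have e1 : ∀ i < r + 1, φ (γ i) = s(δ i, δ (i + 1)) := fun i hi =>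
    (Sym2.mem_and_mem_iff (ne i hi)).1 (m1 i hi)
  refine ⟨δ, ⟨c0, fun i hi => H.edge _ _ _ (e1 i hi), a0⟩, fun i hi => ?_, n1⟩
  rcases hi.lt_or_eq with hi | rfl
  · exact e1 i hi
  · rw [hb, d1 r r.lt_succ_self, d2, Sym2.eq_swap]

theorem St.grid (H : Fix G φ) {k r : ℕ} {γ : ℕ → V} (h : St G φ v k (r + 1) γ)
    (hmin : ∀ w y, Cn φ v w → Anc φ k w y → ((r + 1 : ℕ) : ℕ∞) ≤ G.edist w y) :
    ∃ X : ℕ → ℕ → V, Cn φ v (X 0 0) ∧ G.Reachable (X 0 0) (X k 0) ∧
      (∀ M I, φ (X M I) = s(X (M + 1) I, X (M + 1) (I + 1))) ∧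
      ∀ M I, X (M + k) I = X M (I + (r + 1)) := by
  have : ∀ γ : {γ // St G φ v k (r + 1) γ}, ∃ δ : {γ // St G φ v k (r + 1) γ},
      (∀ i ≤ r + 1, φ (γ.1 i) = s(δ.1 i, δ.1 (i + 1))) ∧ ¬ Anc φ k (δ.1 1) (δ.1 (r + 1)) :=
    fun γ => by
      obtain ⟨δ, h1, h2⟩ := γ.2.next H hmin
      exact ⟨⟨δ, h1⟩, h2⟩
  choose f hf hf' using this
  let x : ℕ → ℕ → V := fun m => (f^[m + 1] ⟨γ, h⟩).1
  have x0 : ∀ m, St G φ v k (r + 1) (x m) := fun m => (f^[m + 1] ⟨γ, h⟩).2
  have x1 : ∀ m, ∀ i ≤ r + 1, φ (x m i) = s(x (m + 1) i, x (m + 1) (i + 1)) := fun m => by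
    simp only [x, iterate_succ_apply' f (m + 1)]
    exact hf _
  have x2 : ∀ m, ¬ Anc φ k (x m 1) (x m (r + 1)) := fun m => by
    simp only [x, iterate_succ_apply' f m]
    exact hf' _
  have wrap : ∀ m, x (m + k) 0 = x m (r + 1) := fun m => by
    have : ∀ j e, j + e = k → Anc φ e (x (m + j) 0) (x m (r + 1)) ∧
        ¬ Anc φ e (x (m + j) 1) (x m (r + 1)) := fun j => by
      induction j with
      | zero => intro e he; obtain rfl : e = k := by omega
                exact ⟨(x0 m).an, x2 m⟩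
      | succ j ih =>
        intro e he
        obtain ⟨⟨p, hp, h1⟩, h2⟩ := ih (e + 1) (by omega)
        have h3 : ¬ Anc φ e (x (m + j + 1) 1) (x m (r + 1)) := fun h3 =>
          h2 ⟨_, by rw [x1 _ 1 (by omega)]; exact Sym2.mem_mk_left _ _, h3⟩
        rw [x1 _ 0 (by omega), Sym2.mem_iff] at hp
        rcases hp with rfl | rfl
        exacts [⟨h1, h3⟩, (h3 h1).elim]
    exact (this k 0 rfl).1
  have re : ∀ i ≤ r + 1, G.Reachable (x 0 0) (x 0 i) := fun i hi => by
    induction i with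
    | zero => exact .refl _
    | succ i ih => exact (ih (by omega)).trans ((x0 0).adj i hi).reachable
  refine ⟨fun M I => x (M + k * (I / (r + 1))) (I % (r + 1)), by simpa using (x0 0).cn, ?_,
    fun M I => ?_, fun M I => ?_⟩
  · have := wrap 0
    rw [zero_add] at this
    simpa [this] using re (r + 1) le_rfl
  · have h1 : I % (r + 1) < r + 1 := Nat.mod_lt I r.succ_pos
    beta_reduce
    rw [x1 _ _ h1.le, add_right_comm M 1]
    congr 1
    by_cases h2 : I % (r + 1) = r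
    · have h3 : (I + 1) % (r + 1) = 0 := by rw [← Nat.mod_add_mod, h2, Nat.mod_self]
      rw [h3, Nat.succ_div_of_mod_eq_zero h3, h2, ← wrap]
      congr 1
      ring
    · have h3 : (I + 1) % (r + 1) = I % (r + 1) + 1 := by
        rw [← Nat.mod_add_mod, Nat.mod_eq_of_lt (by omega)]
      rw [h3, Nat.succ_div_of_mod_ne_zero (by omega), add_right_comm M 1]
  · simp only [Nat.add_mod_right, Nat.add_div_right _ r.succ_pos]
    congr 1
    ring

/-- Every class contains a seed. -/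
theorem good_all (H : Fix G φ) (v : V) : Good φ v := by
  classical
  by_cases hex : ∃ d, 0 < d ∧ ∃ w y, Cn φ v w ∧ Anc φ d w y ∧ G.Reachable w y
  swap
  · obtain ⟨u, hu, rfl, -⟩ := Anc.line (φ := φ) (k := 0) (w := v) (y := v) rfl
    refine good_line H hu (Relation.EqvGen.refl _) 0 (fun i j h => by rw [Nat.modEq_zero_iff.1 h])
      fun i j => (hu.period H (.refl _) (fun d hd _ e => hex ⟨d, hd, _, _, ?_, hu.anc d, e⟩) i j).1
    exact Relation.EqvGen.refl _
  obtain ⟨hk, w0, y0, b1, b2, ⟨b3⟩⟩ := Nat.find_spec hex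
  have hper : ∀ u, Line φ u → Cn φ v (u 0) → G.Reachable (u 0) (u (Nat.find hex)) →
      ∀ i j, G.Reachable (u i) (u j) → i ≡ j [MOD Nat.find hex] := fun u hu h1 h2 i j =>
    (hu.period H h2 (fun d hd h e => Nat.find_min hex (h.resolve_right hk.ne')
      ⟨hd, _, _, h1, hu.anc d, e⟩) i j).1
  generalize Nat.find hex = k at hk b2 hper
  have hex2 : ∃ r, ∃ w y, Cn φ v w ∧ Anc φ k w y ∧ ∃ c : G.Walk w y, c.length = r :=
    ⟨_, w0, y0, b1, b2, b3, rfl⟩
  obtain ⟨w, y, c1, c2, c, c3⟩ := Nat.find_spec hex2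
  have hmin : ∀ w y, Cn φ v w → Anc φ k w y → (Nat.find hex2 : ℕ∞) ≤ G.edist w y := by
    intro w y h1 h2
    rw [edist_eq_sInf]
    refine le_sInf ?_
    rintro _ ⟨c, rfl⟩
    exact Nat.cast_le.2 (Nat.find_min' hex2 ⟨w, y, h1, h2, c, rfl⟩)
  generalize Nat.find hex2 = r at c3 hmin
  obtain _ | r := r
  · obtain rfl := Walk.eq_of_length_eq_zero c3
    obtain ⟨u, hu, rfl, e⟩ := c2.line
    have hu' : Line φ fun θ => u (θ % k) := fun θ => by
      have h1 := hu (θ % k)
      have h2 := Nat.mod_lt θ hk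
      beta_reduce
      rw [← Nat.mod_add_mod θ k 1]
      by_cases h3 : θ % k + 1 = k
      · rw [h3] at h1
        rwa [h3, Nat.mod_self, ← e]
      · rwa [Nat.mod_eq_of_lt (show θ % k + 1 < k by omega)]
    exact good_line H hu' (by simpa using c1) k (fun i j h => congrArg u h)
      (hper _ hu' (by simpa using c1) (by simp))
  · have hs : St G φ v k (r + 1) c.getVert :=
      ⟨by simpa using c1, fun i hi => c.adj_getVert_succ (c3 ▸ hi), by
        rw [← c3, c.getVert_length, c.getVert_zero]; exact c2⟩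
    obtain ⟨X, h1, h2, h3, h4⟩ := hs.grid H hmin
    exact good_grid H X hk r.succ_pos h1 h3 h4
      (hper (fun M => X M 0) (fun M => by rw [h3]; exact Sym2.mem_mk_left _ _) h1 h2)

end Pool.Agent.P.MP_4d6a7f_co
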