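import Pool.Agent.P.MP_4d6a7f_co.Defs

/-!
The direct limit is isomorphic to its line graph, and it is recognised by a universal property.
-/

namespace Pool.Agent.P.MP_4d6a7f_co

open SimpleGraph Function

universe u

variable {X : Type u} {F : SimpleGraph X} (c : F.Copy F.lineGraph)

/-- The vertex type of the limit. -/
abbrev LV : Type u := Quot fun a b : Σ n, (iter F n).1 => b = ⟨a.1 + 1, step c a.1 a.2⟩

/-- The class of a vertex of `L^n F`. -/
def io (n : ℕ) (x : (iter F n).1) : LV c := Quot.mk _ ⟨n, x⟩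

/-- Transport to a later stage. -/
def up {n m : ℕ} (h : n ≤ m) (x : (iter F n).1) : (iter F m).1 :=
  Nat.leRecOn (C := fun k => (iter F k).1) h (fun {k} y => step c k y) x

theorem up_self {n : ℕ} (x : (iter F n).1) : up c le_rfl x = x :=
  Nat.leRecOn_self (C := fun k => (iter F k).1) x

theorem up_succ {n m : ℕ} (h : n ≤ m) (x : (iter F n).1) :
    up c (h.trans m.le_succ) x = step c m (up c h x) :=
  Nat.leRecOn_succ (C := fun k => (iter F k).1) h x

theorem up_trans {n m k : ℕ} (h : n ≤ m) (h' : m ≤ k) (x : (iter F n).1) :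
    up c (h.trans h') x = up c h' (up c h x) :=
  Nat.leRecOn_trans (C := fun k => (iter F k).1) h h' x

theorem up_inj {n m : ℕ} (h : n ≤ m) : Injective (up c h) :=
  Nat.leRecOn_injective h _ fun k => (step c k).injective

theorem io_step (n : ℕ) (x : (iter F n).1) : io c (n + 1) (step c n x) = io c n x :=
  Eq.symm (by exact Quot.sound rfl)

theorem io_up {n m : ℕ} (h : n ≤ m) (x : (iter F n).1) : io c m (up c h x) = io c n x := by
  induction m, h using Nat.le_induction with
  | base => rw [up_self]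
  | succ m h ih => rw [up_succ c h, io_step, ih]

theorem io_eq {a b : Σ n, (iter F n).1} (h : io c a.1 a.2 = io c b.1 b.2) :
    ∃ N, ∃ (h1 : a.1 ≤ N) (h2 : b.1 ≤ N), up c h1 a.2 = up c h2 b.2 := by
  have h' : Relation.EqvGen _ a b := Quot.eqvGen_exact h
  clear h
  induction h' with
  | rel a b h =>
    subst h
    exact ⟨a.1 + 1, a.1.le_succ, le_rfl, by rw [up_self, up_succ c le_rfl, up_self]⟩
  | refl a => exact ⟨a.1, le_rfl, le_rfl, rfl⟩
  | symm a b _ ih =>
    obtain ⟨N, h1, h2, h⟩ := ih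
    exact ⟨N, h2, h1, h.symm⟩
  | trans a b d _ _ ih ih' =>
    obtain ⟨N, h1, h2, h⟩ := ih
    obtain ⟨M, h3, h4, h'⟩ := ih'
    refine ⟨max N M, h1.trans (le_max_left _ _), h4.trans (le_max_right _ _), ?_⟩
    rw [up_trans c h1 (le_max_left _ _), up_trans c h4 (le_max_right _ _), h, ← h', ← up_trans,
      ← up_trans]

theorem io_inj (n : ℕ) : Injective (io c n) := fun x y h => by
  obtain ⟨N, h1, _, h⟩ := io_eq c (a := ⟨n, x⟩) (b := ⟨n, y⟩) h
  exact up_inj c h1 h

theorem up_adj {n m : ℕ} (h : n ≤ m) {x y : (iter F n).1} (hxy : (iter F n).2.Adj x y) :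
    (iter F m).2.Adj (up c h x) (up c h y) := by
  induction m, h using Nat.le_induction with
  | base => rwa [up_self, up_self]
  | succ m h ih =>
    rw [up_succ c h, up_succ c h]
    exact (step c m).toHom.map_adj ih

theorem adj_of_up {n m : ℕ} (h : n + 1 ≤ m) {x y : (iter F (n + 1)).1}
    (hxy : (iter F m).2.Adj (up c h x) (up c h y)) : (iter F (n + 1)).2.Adj x y := by
  induction m, h using Nat.le_induction with
  | base => rwa [up_self, up_self] at hxy
  | succ m h ih =>
    rw [up_succ c h, up_succ c h] at hxy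
    obtain ⟨k, rfl⟩ : ∃ k, m = k + 1 := ⟨m - 1, by omega⟩
    exact ih ((step c k).toLineGraphEmbedding.map_rel_iff.1 hxy)

theorem common (a b : LV c) : ∃ n x y, a = io c (n + 1) x ∧ b = io c (n + 1) y := by
  obtain ⟨⟨n, x⟩, rfl⟩ := Quot.exists_rep a
  obtain ⟨⟨m, y⟩, rfl⟩ := Quot.exists_rep b
  exact ⟨max n m, up c ((le_max_left _ _).trans (Nat.le_succ _)) x,
    up c ((le_max_right _ _).trans (Nat.le_succ _)) y, (io_up c _ x).symm, (io_up c _ y).symm⟩

theorem lim_adj {a b : LV c} :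
    (lim c).Adj a b ↔ ∃ n x y, (iter F n).2.Adj x y ∧ a = io c n x ∧ b = io c n y := by
  rw [lim, fromRel_adj]
  constructor
  · rintro ⟨-, h | ⟨n, x, y, h, h1, h2⟩⟩
    · exact h
    · exact ⟨n, y, x, h.symm, h2, h1⟩
  · rintro ⟨n, x, y, h, rfl, rfl⟩
    exact ⟨fun e => h.ne (io_inj c n e), Or.inl ⟨n, x, y, h, rfl, rfl⟩⟩

/-- The stages map into the limit. -/
def ioC (n : ℕ) : (iter F n).2.Copy (lim c) :=
  ⟨⟨io c n, fun h => (lim_adj c).2 ⟨n, _, _, h, rfl, rfl⟩⟩, io_inj c n⟩

theorem io_adj {n : ℕ} {x y : (iter F (n + 1)).1} :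
    (lim c).Adj (io c (n + 1) x) (io c (n + 1) y) ↔ (iter F (n + 1)).2.Adj x y := by
  refine ⟨fun h => ?_, fun h => (ioC c (n + 1)).toHom.map_adj h⟩
  obtain ⟨m, x', y', h, h1, h2⟩ := (lim_adj c).1 h
  have a1 := le_max_left (n + 1) m
  have a2 := le_max_right (n + 1) m
  refine adj_of_up c a1 ?_
  have e1 : up c a1 x = up c a2 x' := io_inj c _ (by rw [io_up, io_up, h1])
  have e2 : up c a1 y = up c a2 y' := io_inj c _ (by rw [io_up, io_up, h2])
  rw [e1, e2]
  exact up_adj c a2 h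

theorem lineGraph_val {A B : Type*} {G : SimpleGraph A} {H : SimpleGraph B} (f : G.Copy H)
    (e : G.edgeSet) : (f.lineGraph e : Sym2 B) = Sym2.map f e := rfl

theorem line_step (n : ℕ) (z : (iter F (n + 1)).1) :
    (ioC c (n + 1)).lineGraph (step c (n + 1) z) = (ioC c n).lineGraph z := by
  refine Subtype.ext ?_
  change Sym2.map (io c (n + 1)) (Sym2.map (step c n) z.1) = Sym2.map (io c n) z.1
  rw [Sym2.map_map]
  congr 1
  exact funext (io_step c n)

/-- The map from the limit to its line graph. -/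
def limPhi : LV c → (lim c).edgeSet :=
  Quot.lift (fun a => (ioC c a.1).lineGraph (step c a.1 a.2)) (by
    rintro ⟨n, x⟩ _ rfl
    exact (line_step c n _).symm)

theorem limPhi_io (n : ℕ) (z : (iter F (n + 1)).1) :
    limPhi c (io c (n + 1) z) = (ioC c n).lineGraph z := line_step c n z

/-- The limit is isomorphic to its line graph. -/
theorem lim_iso : Nonempty (lim c ≃g (lim c).lineGraph) := by
  have hinj : Injective (limPhi c) := fun a b h => by
    obtain ⟨n, x, y, rfl, rfl⟩ := common c a b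
    rw [limPhi_io, limPhi_io] at h
    rw [(ioC c n).lineGraph.injective h]
  have hsur : Surjective (limPhi c) := by
    rintro ⟨⟨a, b⟩, h⟩
    obtain ⟨n, x, y, h', rfl, rfl⟩ := (lim_adj c).1 h
    exact ⟨io c (n + 1) ⟨s(x, y), h'⟩, limPhi_io c n _⟩
  refine ⟨⟨Equiv.ofBijective _ ⟨hinj, hsur⟩, fun {a b} => ?_⟩⟩
  obtain ⟨n, x, y, rfl, rfl⟩ := common c a b
  rw [Equiv.ofBijective_apply, Equiv.ofBijective_apply, limPhi_io, limPhi_io, io_adj]
  exact (ioC c n).toLineGraphEmbedding.map_rel_iff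

section recog

variable {V : Type u} {G : SimpleGraph V} (Φ : G ≃g G.lineGraph) (e : F.Copy G)

/-- The stages map into a graph with an isomorphism onto its line graph. -/
def stage : ∀ n, (iter F n).2.Copy G
  | 0 => e
  | n + 1 => Φ.symm.toCopy.comp (stage n).lineGraph

theorem stage_succ (n : ℕ) (z : (iter F (n + 1)).1) :
    (Φ (stage Φ e (n + 1) z) : Sym2 V) = Sym2.map (stage Φ e n) z.1 := by
  change (Φ (Φ.symm ((stage Φ e n).lineGraph z)) : Sym2 V) = _
  rw [Φ.apply_symm_apply]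
  rfl

theorem stage_adj {n : ℕ} {x y : (iter F (n + 1)).1} :
    G.Adj (stage Φ e (n + 1) x) (stage Φ e (n + 1) y) ↔ (iter F (n + 1)).2.Adj x y :=
  Φ.symm.map_rel_iff.trans (stage Φ e n).toLineGraphEmbedding.map_rel_iff

theorem stage_step (he : ∀ x, (Φ (e x) : Sym2 V) = Sym2.map e (c x).1) (n : ℕ)
    (x : (iter F n).1) : stage Φ e (n + 1) (step c n x) = stage Φ e n x := by
  induction n with
  | zero => exact Φ.injective (Subtype.ext ((stage_succ Φ e 0 _).trans (he x).symm))
  | succ n ih =>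
    refine Φ.injective (Subtype.ext ?_)
    rw [stage_succ, stage_succ]
    change Sym2.map _ (Sym2.map (step c n) x.1) = _
    rw [Sym2.map_map]
    congr 1
    exact funext ih

/-- If `G` is generated by a copy of `F` that is compatible with `c`, then `G` is the limit. -/
theorem recog (he : ∀ x, (Φ (e x) : Sym2 V) = Sym2.map e (c x).1)
    (gen : ∀ P : V → Prop, (∀ x, P (e x)) → (∀ v, (∀ p ∈ (Φ v : Sym2 V), P p) → P v) → ∀ v, P v) :
    Nonempty (G ≃g lim c) := by
  let f : LV c → V := Quot.lift (fun a => stage Φ e a.1 a.2) (by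
    rintro ⟨n, x⟩ _ rfl
    exact (stage_step c Φ e he n x).symm)
  have hf : ∀ n x, f (io c n x) = stage Φ e n x := fun _ _ => rfl
  have hinj : Injective f := fun a b h => by
    obtain ⟨n, x, y, rfl, rfl⟩ := common c a b
    exact congrArg _ ((stage Φ e (n + 1)).injective h)
  have hsur : Surjective f := by
    refine gen (fun v => ∃ a, f a = v) (fun x => ⟨io c 0 x, rfl⟩) fun v hv => ?_
    obtain ⟨⟨⟨p, q⟩, hpq⟩, h⟩ : ∃ z, z = Φ v := ⟨_, rfl⟩
    obtain ⟨a, rfl⟩ := hv p (by rw [← h]; exact Sym2.mem_mk_left _ _)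
    obtain ⟨b, rfl⟩ := hv q (by rw [← h]; exact Sym2.mem_mk_right _ _)
    obtain ⟨n, x, y, rfl, rfl⟩ := common c a b
    refine ⟨io c (n + 2) ⟨s(x, y), (stage_adj Φ e).1 hpq⟩, Φ.injective (Subtype.ext ?_)⟩
    rw [hf, stage_succ, ← h]
    rfl
  refine ⟨RelIso.symm ⟨Equiv.ofBijective f ⟨hinj, hsur⟩, fun {a b} => ?_⟩⟩
  obtain ⟨n, x, y, rfl, rfl⟩ := common c a b
  exact (stage_adj Φ e).trans (io_adj c).symm

end recog

end Pool.Agent.P.MP_4d6a7f_co
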