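import Pool.Agent.P.MP_4d6a7f_co.Lim

/-!
Parents, closures and layers in a graph with an isomorphism onto its line graph.
-/

namespace Pool.Agent.P.MP_4d6a7f_co

open SimpleGraph Function

universe u

variable {V : Type u}

/-- `φ` is an isomorphism of `G` onto its line graph. The two ends of `φ v` are the parents
of `v`. -/
structure Fix (G : SimpleGraph V) (φ : V → Sym2 V) : Prop where
  inj : Injective φ
  edge : ∀ v a b, φ v = s(a, b) → G.Adj a b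
  surj : ∀ a b, G.Adj a b → ∃ v, φ v = s(a, b)
  adj : ∀ u v, G.Adj u v ↔ u ≠ v ∧ ∃ p, p ∈ φ u ∧ p ∈ φ v

theorem fix_of_iso {G : SimpleGraph V} (Φ : G ≃g G.lineGraph) : Fix G fun v => (Φ v : Sym2 V) where
  inj := fun _ _ h => Φ.injective (Subtype.ext h)
  edge := fun v a b h => by
    have := (Φ v).2
    rwa [h] at this
  surj := fun a b h => ⟨Φ.symm ⟨s(a, b), h⟩, by simp⟩
  adj := fun u v => by
    rw [← Φ.map_rel_iff, lineGraph_adj_iff_exists, Φ.injective.ne_iff]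

/-- The closure of `A` under taking children. -/
def Cl (φ : V → Sym2 V) (A : Set V) (v : V) : Prop :=
  ∀ P : V → Prop, (∀ x ∈ A, P x) → (∀ w, (∀ p ∈ φ w, P p) → P w) → P v

/-- `A` contains the parents of its members. -/
def PC (φ : V → Sym2 V) (A : Set V) : Prop := ∀ v ∈ A, ∀ p ∈ φ v, p ∈ A

/-- The vertices outside the closure of `A` that have a parent in `A`. -/
def Bd (φ : V → Sym2 V) (A : Set V) : Set V := {v | ¬ Cl φ A v ∧ ∃ p ∈ φ v, p ∈ A}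

/-- The layers over `Z`. -/
def lay (φ : V → Sym2 V) (Z : Set V) : ℕ → Set V
  | 0 => Z
  | k + 1 => lay φ Z k ∪ Bd φ (lay φ Z k)

variable {G : SimpleGraph V} {φ : V → Sym2 V} {A B Z : Set V} {v a b p : V}

theorem Cl.base (h : v ∈ A) : Cl φ A v := fun _ h1 _ => h1 v h

theorem Cl.step (h : ∀ p ∈ φ v, Cl φ A p) : Cl φ A v :=
  fun P h1 h2 => h2 v fun p hp => h p hp P h1 h2

theorem Cl.mono (h : Cl φ A v) (hAB : A ⊆ B) : Cl φ B v :=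
  fun P h1 h2 => h P (fun x hx => h1 x (hAB hx)) h2

theorem Cl.pair (h : φ v = s(a, b)) (ha : Cl φ A a) (hb : Cl φ A b) : Cl φ A v :=
  Cl.step fun p hp => by
    rw [h, Sym2.mem_iff] at hp
    rcases hp with rfl | rfl <;> assumption

theorem exists_other (h : p ∈ φ v) : ∃ a, φ v = s(a, p) :=
  ⟨Sym2.Mem.other h, by rw [Sym2.eq_swap, Sym2.other_spec]⟩

theorem Fix.common (H : Fix G φ) (h : φ v = s(a, b)) : ∃ p, p ∈ φ a ∧ p ∈ φ b :=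
  ((H.adj a b).1 (H.edge v a b h)).2

theorem Bd.other (H : Fix G φ) (hA : PC φ A) (hv : v ∈ Bd φ A) (h : φ v = s(a, b)) (hb : b ∈ A) :
    a ∈ Bd φ A := by
  obtain ⟨p, h1, h2⟩ := H.common h
  exact ⟨fun ha => hv.1 (Cl.pair h ha (Cl.base hb)), p, h1, hA b hb p h2⟩

theorem pc_bd (H : Fix G φ) (hA : PC φ A) : PC φ (A ∪ Bd φ A) := by
  rintro v (hv | hv) p hp
  · exact Or.inl (hA v hv p hp)
  · obtain ⟨b, hb, hbA⟩ := hv.2
    obtain ⟨a, h⟩ := exists_other hb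
    rw [h, Sym2.mem_iff] at hp
    rcases hp with rfl | rfl
    · exact Or.inr (Bd.other H hA hv h hbA)
    · exact Or.inl hbA

theorem pc_lay (H : Fix G φ) (hZ : PC φ Z) : ∀ k, PC φ (lay φ Z k)
  | 0 => hZ
  | k + 1 => pc_bd H (pc_lay H hZ k)

theorem lay_mono : Monotone (lay φ Z) := monotone_nat_of_le_succ fun _ => Set.subset_union_left

theorem Cl.parent (hA : PC φ A) (h : Cl φ A v) : ∀ p ∈ φ v, Cl φ A p :=
  h (fun v => ∀ p ∈ φ v, Cl φ A p) (fun x hx p hp => Cl.base (hA x hx p hp))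
    fun _ hw p hp => Cl.step (hw p hp)

/-- The children of a vertex in the closure of `A` lie in the closure of the next layer. -/
theorem Cl.child (H : Fix G φ) (h : Cl φ A p) : ∀ v, p ∈ φ v → Cl φ (A ∪ Bd φ A) v := by
  refine (h (fun p => Cl φ A p ∧ ∀ v, p ∈ φ v → Cl φ (A ∪ Bd φ A) v) ?_ ?_).2
  · refine fun x hx => ⟨Cl.base hx, fun v hv => ?_⟩
    by_cases hc : Cl φ A v
    · exact hc.mono Set.subset_union_left
    · exact Cl.base (Or.inr ⟨hc, x, hv, hx⟩)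
  · intro w hw
    have h1 : Cl φ A w := Cl.step fun p hp => (hw p hp).1
    refine ⟨h1, fun v hv => ?_⟩
    obtain ⟨a, ha⟩ := exists_other hv
    obtain ⟨q, h2, h3⟩ := H.common ha
    exact Cl.pair ha ((hw q h3).2 a h2) (h1.mono Set.subset_union_left)

theorem bd_unique {j k : ℕ} (hj : v ∈ Bd φ (lay φ Z j)) (hk : v ∈ Bd φ (lay φ Z k)) : j = k := by
  by_contra hne
  rcases lt_or_gt_of_ne hne with h | h
  · exact hk.1 (Cl.base (lay_mono (Nat.succ_le_of_lt h) (Or.inr hj)))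
  · exact hj.1 (Cl.base (lay_mono (Nat.succ_le_of_lt h) (Or.inr hk)))

/-- The two parents can be named coherently on all layers. -/
theorem exists_st (s0 t0 : V → V) (h0 : ∀ v ∈ Z, φ v = s(s0 v, t0 v)) :
    ∃ s t : V → V, (∀ v, φ v = s(s v, t v)) ∧ (∀ v ∈ Z, s v = s0 v ∧ t v = t0 v) ∧
      ∀ k, ∀ v ∈ Bd φ (lay φ Z k), t v ∈ lay φ Z k := by
  have : ∀ v, ∃ a b, φ v = s(a, b) ∧ (v ∈ Z → a = s0 v ∧ b = t0 v) ∧
      ∀ k, v ∈ Bd φ (lay φ Z k) → b ∈ lay φ Z k := by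
    intro v
    by_cases hv : v ∈ Z
    · exact ⟨_, _, h0 v hv, fun _ => ⟨rfl, rfl⟩,
        fun k hk => (hk.1 (Cl.base (lay_mono k.zero_le hv))).elim⟩
    by_cases hk : ∃ k, v ∈ Bd φ (lay φ Z k)
    · obtain ⟨k, hk⟩ := hk
      obtain ⟨b, hb, hbA⟩ := hk.2
      obtain ⟨a, h⟩ := exists_other hb
      exact ⟨a, b, h, fun h => (hv h).elim, fun j hj => bd_unique hk hj ▸ hbA⟩
    · obtain ⟨⟨a, b⟩, h⟩ := Quot.exists_rep (φ v)
      exact ⟨a, b, h.symm, fun h => (hv h).elim, fun j hj => (hk ⟨j, hj⟩).elim⟩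
  choose s t h1 h2 h3 using this
  exact ⟨s, t, h1, h2, fun k v => h3 v k⟩

/-- Transfer of a seed to a subtype. -/
theorem Seed.sub {s t s0 t0 : V → V} {X : Set V} {s' t' : X → X} (h : Seed s0 t0 Z) (hZ : Z ⊆ X)
    (hc : ∀ v ∈ Z, t0 v ∈ Z) (h0 : ∀ v ∈ Z, s v = s0 v ∧ t v = t0 v)
    (hs : ∀ x, (s' x : V) = s x) (ht : ∀ x, (t' x : V) = t x) :
    Seed s' t' (Subtype.val ⁻¹' Z) := by
  classical
  obtain ⟨D, Λ, π, d0, d1, rfl, hΛ, h1, h2, h3⟩ := h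
  have hm : ∀ θ n, D θ n → π θ n ∈ {x | ∃ θ n, D θ n ∧ π θ n = x} := fun θ n h => ⟨θ, n, h, rfl⟩
  let π' : ℕ → ℕ → X := fun θ n =>
    if h : D θ n then ⟨π θ n, hZ (hm θ n h)⟩ else ⟨π θ 0, hZ (hm θ 0 (d0 θ))⟩
  have hπ : ∀ θ n, D θ n → (π' θ n : V) = π θ n := fun θ n h => by simp [π', h]
  have e1 : ∀ θ n, D θ n → (s' (π' θ n) : V) = s0 (π θ n) := fun θ n h => by
    rw [hs, hπ θ n h, (h0 _ (hm θ n h)).1]
  have e2 : ∀ θ n, D θ n → (t' (π' θ n) : V) = t0 (π θ n) := fun θ n h => by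
    rw [ht, hπ θ n h, (h0 _ (hm θ n h)).2]
  refine ⟨D, Λ, π', d0, d1, ?_, fun θ n θ' n' h h' => ?_, fun θ => ?_, fun θ n h => ⟨?_, ?_⟩,
    fun θ n h h' => ?_⟩
  · ext x
    constructor
    · rintro ⟨θ, n, h, e⟩
      exact ⟨θ, n, h, Subtype.ext ((hπ θ n h).trans e)⟩
    · rintro ⟨θ, n, h, rfl⟩
      exact ⟨θ, n, h, (hπ θ n h).symm⟩
  · rw [← hΛ θ n θ' n' h h', Subtype.ext_iff, hπ θ n h, hπ θ' n' h']
  · exact Subtype.ext (by rw [e2 θ 0 (d0 θ), h1, hπ _ _ (d0 _)])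
  · exact Subtype.ext (by rw [e1 θ n (d1 θ n h), (h2 θ n h).1, hπ _ _ h])
  · have h4 := h0 _ (hc _ (hm θ n (d1 θ n h)))
    refine (h2 θ n h).2.imp (fun e => Subtype.ext ?_) fun e => Subtype.ext ?_
    · rw [e2 _ _ h, e, hs, e2 _ _ (d1 θ n h), h4.1]
    · rw [e2 _ _ h, e, ht, e2 _ _ (d1 θ n h), h4.2]
  · obtain ⟨θ', n', a1, a2, a3, a4⟩ := h3 θ n h h'
    exact ⟨θ', n', a1, a2, a3, Subtype.ext (by rw [e1 θ n h, a4, hπ _ _ a1])⟩

/-- From seeds that meet every class to the structure theorem. -/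
theorem assemble (Φ : G ≃g G.lineGraph) (S : Set (Set V)) (s0 t0 : V → V)
    (hd : S.PairwiseDisjoint id) (hS : ∀ Z ∈ S, Seed s0 t0 Z)
    (h0 : ∀ Z ∈ S, ∀ v ∈ Z, (Φ v : Sym2 V) = s(s0 v, t0 v) ∧ s0 v ∈ Z ∧ t0 v ∈ Z)
    (hall : ∀ P : V → Prop, (∀ v ∈ ⋃₀ S, P v) → (∀ v, ∀ p ∈ (Φ v : Sym2 V), (P v ↔ P p)) →
      ∀ v, P v) :
    ∃ (X : Type u) (F : SimpleGraph X) (c : F.Copy F.lineGraph) (s t : X → X),
      Surjective c ∧ (∀ x, (c x : Sym2 X) = s(s x, t x)) ∧ Shaped s t ∧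
      Nonempty (G ≃g lim c) := by
  classical
  have H := fix_of_iso Φ
  set φ : V → Sym2 V := fun v => (Φ v : Sym2 V) with hφ
  have hZ : PC φ (⋃₀ S) := by
    rintro v ⟨Z, hZ, hv⟩ p hp
    obtain ⟨h1, h2, h3⟩ := h0 Z hZ v hv
    rw [show φ v = _ from h1, Sym2.mem_iff] at hp
    rcases hp with rfl | rfl
    exacts [⟨Z, hZ, h2⟩, ⟨Z, hZ, h3⟩]
  obtain ⟨s, t, hst, hs0, ht⟩ := exists_st (φ := φ) (Z := ⋃₀ S) s0 t0
    (by rintro v ⟨Z, hZ, hv⟩; exact (h0 Z hZ v hv).1)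
  have ms : ∀ v, s v ∈ φ v := fun v => by rw [hst]; exact Sym2.mem_mk_left _ _
  have mt : ∀ v, t v ∈ φ v := fun v => by rw [hst]; exact Sym2.mem_mk_right _ _
  let X : Set V := {v | ∃ k, v ∈ lay φ (⋃₀ S) k}
  have hX : PC φ X := fun v ⟨k, hk⟩ p hp => ⟨k, pc_lay H hZ k v hk p hp⟩
  let s' : X → X := fun x => ⟨s x, hX _ x.2 _ (ms _)⟩
  let t' : X → X := fun x => ⟨t x, hX _ x.2 _ (mt _)⟩
  have hmap : ∀ x : X, φ x = Sym2.map Subtype.val s(s' x, t' x) := fun x => hst x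
  let F : SimpleGraph X := fromEdgeSet (Set.range fun x => s(s' x, t' x))
  have hF : ∀ {a b : X}, F.Adj a b → G.Adj a b := by
    rintro a b ⟨⟨x, hx⟩, -⟩
    refine H.edge x a b ?_
    rw [hmap, show s(s' x, t' x) = _ from hx]
    rfl
  have he : ∀ x, s(s' x, t' x) ∈ F.edgeSet := fun x =>
    ⟨⟨x, rfl⟩, fun e => (H.edge x _ _ (hst x)).ne (congrArg Subtype.val e)⟩
  have hci : Injective fun x : X => (⟨_, he x⟩ : F.edgeSet) := fun x y e =>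
    Subtype.ext (H.inj (by rw [hmap, hmap, Subtype.mk.inj e]))
  let c : F.Copy F.lineGraph := ⟨⟨fun x => ⟨_, he x⟩, fun {a b} hab => by
    obtain ⟨h1, p, h2, h3⟩ := (H.adj a b).1 (hF hab)
    refine lineGraph_adj_iff_exists.2 ⟨hci.ne hab.ne, ⟨p, hX _ a.2 p h2⟩, ?_, ?_⟩
    · rw [hst, Sym2.mem_iff] at h2
      exact Sym2.mem_iff.2 (h2.imp Subtype.ext Subtype.ext)
    · rw [hst, Sym2.mem_iff] at h3
      exact Sym2.mem_iff.2 (h3.imp Subtype.ext Subtype.ext)⟩, hci⟩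
  let lev : X → ℕ := fun x => Nat.find x.2
  have l0 : ∀ x : X, lev x = 0 ↔ (x : V) ∈ ⋃₀ S := fun x => Nat.find_eq_zero x.2
  have l1 : ∀ (x : X) k, lev x = k + 1 ↔ (x : V) ∈ Bd φ (lay φ (⋃₀ S) k) := fun x k => by
    rw [Nat.find_eq_iff]
    exact ⟨fun h => h.1.resolve_left (h.2 k k.lt_succ_self), fun h => ⟨Or.inr h, fun n hn h' =>
      h.1 (Cl.base (lay_mono (Nat.le_of_lt_succ hn) h'))⟩⟩
  refine ⟨X, F, c, s', t', ?_, fun _ => rfl, ⟨lev, (Subtype.val ⁻¹' ·) '' S, ?_, ?_, ?_, ?_⟩, ?_⟩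
  · rintro ⟨⟨a, b⟩, ⟨x, hx⟩, h⟩
    exact ⟨x, Subtype.ext hx⟩
  · rintro _ ⟨Z, hZ, rfl⟩ _ ⟨Z', hZ', rfl⟩ hne
    exact (hd hZ hZ' fun e => hne (by rw [e])).preimage _
  · ext x
    rw [Set.mem_ofPred_eq, l0]
    simp
  · rintro _ ⟨Z, hZ, rfl⟩
    exact (hS Z hZ).sub (s := s) (t := t) (fun v hv => ⟨0, Z, hZ, hv⟩)
      (fun v hv => (h0 Z hZ v hv).2.2) (fun v hv => hs0 v ⟨Z, hZ, hv⟩) (fun _ => rfl) fun _ => rfl
  · intro x hx
    obtain ⟨k, hk⟩ : ∃ k, lev x = k + 1 := ⟨lev x - 1, by omega⟩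
    have b1 := (l1 x k).1 hk
    have b2 := ht k x b1
    have b3 := Bd.other H (pc_lay H hZ k) b1 (hst x) b2
    refine ⟨hk ▸ (l1 (s' x) k).2 b3, ?_, ?_⟩
    · rw [hk]
      congr 1
      refine (Nat.find_eq_iff _).2 ⟨b2, fun n hn h' => ?_⟩
      have hle := lay_mono (φ := φ) (Z := ⋃₀ S) (Nat.succ_le_of_lt hn)
      by_cases hc : Cl φ (lay φ (⋃₀ S) n) x
      · exact b1.1 (hc.mono (lay_mono hn.le))
      · exact b1.1 (Cl.base (hle (Or.inr ⟨hc, _, mt x, h'⟩)))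
    · obtain ⟨p, h1, h2⟩ := H.common (hst x)
      have h3 := pc_lay H hZ k _ b2 p h2
      have b4 := Bd.other H (pc_lay H hZ k) b3 (hst _) (ht k _ b3)
      rw [hst, Sym2.mem_iff] at h1 h2
      obtain rfl : p = t (s x) := h1.resolve_left fun e => b4.1 (Cl.base (e ▸ h3))
      exact h2.imp Subtype.ext Subtype.ext
  · refine recog c Φ ⟨⟨Subtype.val, hF⟩, Subtype.val_injective⟩ hmap fun P h1 h2 v => ?_
    obtain ⟨k, hk⟩ := hall (fun v => ∃ k, Cl φ (lay φ (⋃₀ S) k) v) (fun v hv => ⟨0, Cl.base hv⟩)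
      (fun v p hp => ⟨fun ⟨k, hk⟩ => ⟨k, hk.parent (pc_lay H hZ k) p hp⟩,
        fun ⟨k, hk⟩ => ⟨k + 1, hk.child H v hp⟩⟩) v
    exact hk P (fun x hx => h1 ⟨x, k, hx⟩) h2

end Pool.Agent.P.MP_4d6a7f_co
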