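import Pool.Agent.P.MP_4d6a7f_co.Par

/-!
Seeds generated by a line of ancestors that meets every component of its orbit at one point.
-/

namespace Pool.Agent.P.MP_4d6a7f_co

open SimpleGraph Function

universe u

variable {V : Type u} {G : SimpleGraph V} {φ : V → Sym2 V} {a b p q v : V}

/-- Two vertices are related if they are joined through parents and children. -/
def Cn (φ : V → Sym2 V) : V → V → Prop := Relation.EqvGen fun v p => p ∈ φ v

theorem Cn.par (h : Cn φ v a) (hp : p ∈ φ a) : Cn φ v p :=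
  Relation.EqvGen.trans _ _ _ h (Relation.EqvGen.rel _ _ hp)

/-- A line of ancestors. -/
def Line (φ : V → Sym2 V) (u : ℕ → V) : Prop := ∀ θ, u (θ + 1) ∈ φ (u θ)

theorem Line.cn {u : ℕ → V} (hu : Line φ u) (h : Cn φ v (u 0)) : ∀ θ, Cn φ v (u θ)
  | 0 => h
  | θ + 1 => (hu.cn h θ).par (hu θ)

/-- A seed with its two maps, inside the class of `v`. -/
def Good (φ : V → Sym2 V) (v : V) : Prop :=
  ∃ (Z : Set V) (s t : V → V), Seed s t Z ∧ Z.Nonempty ∧
    ∀ x ∈ Z, Cn φ v x ∧ φ x = s(s x, t x) ∧ s x ∈ Z ∧ t x ∈ Z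

theorem Fix.eq_or_adj (H : Fix G φ) (ha : a ∈ φ v) (hb : b ∈ φ v) : a = b ∨ G.Adj a b := by
  by_cases h : a = b
  · exact Or.inl h
  · exact Or.inr (H.edge v a b ((Sym2.mem_and_mem_iff h).1 ⟨ha, hb⟩))

theorem Fix.reach_par (H : Fix G φ) (ha : a ∈ φ v) (hb : b ∈ φ v) : G.Reachable a b := by
  rcases H.eq_or_adj ha hb with rfl | h
  exacts [.refl _, h.reachable]

theorem Fix.reach_sib (H : Fix G φ) (ha : p ∈ φ a) (hb : p ∈ φ b) : G.Reachable a b := by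
  by_cases h : a = b
  · rw [h]
  · exact ((H.adj a b).2 ⟨h, p, ha, hb⟩).reachable

theorem Fix.reach_iff (H : Fix G φ) (hp : p ∈ φ a) (hq : q ∈ φ b) :
    G.Reachable a b ↔ G.Reachable p q := by
  constructor
  · rintro ⟨w⟩
    induction w generalizing p with
    | nil => exact H.reach_par hp hq
    | cons h _ ih =>
      obtain ⟨-, x, h1, h2⟩ := (H.adj _ _).1 h
      exact (H.reach_par hp h1).trans (ih h2 hq)
  · rintro ⟨w⟩
    induction w generalizing a with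
    | nil => exact H.reach_sib hp hq
    | cons h _ ih =>
      obtain ⟨c, hc⟩ := H.surj _ _ h
      exact (H.reach_sib hp (hc ▸ Sym2.mem_mk_left _ _)).trans
        (ih (hc ▸ Sym2.mem_mk_right _ _) hq)

/-- An equivalence relation on `ℕ` with period `g` and no shorter gap is the congruence. -/
theorem rel_iff_modEq {R : ℕ → ℕ → Prop} (hR : Equivalence R) {g : ℕ} (h1 : ∀ i, R i (i + g))
    (h2 : ∀ i d, 0 < d → d < g ∨ g = 0 → ¬ R i (i + d)) (i j : ℕ) : R i j ↔ i ≡ j [MOD g] := by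
  have h3 : ∀ i q, R i (i + g * q) := fun i q => by
    induction q with
    | zero => exact hR.refl _
    | succ q ih => exact hR.trans ih (by rw [Nat.mul_succ, ← add_assoc]; exact h1 _)
  have h4 : ∀ i d, R i (i + d) ↔ i ≡ i + d [MOD g] := fun i d => by
    rw [Nat.ModEq.comm, Nat.add_modEq_left_iff]
    refine ⟨fun h => ?_, fun ⟨q, hq⟩ => hq ▸ h3 i q⟩
    have h5 := h3 (i + d % g) (d / g)
    rw [add_assoc, Nat.mod_add_div] at h5
    by_contra hd
    refine h2 i (d % g) (Nat.pos_of_ne_zero fun e => hd (Nat.dvd_of_mod_eq_zero e)) ?_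
      (hR.trans h (hR.symm h5))
    rcases Nat.eq_zero_or_pos g with h0 | h0
    exacts [Or.inr h0, Or.inl (Nat.mod_lt _ h0)]
  rcases le_total i j with h | h
  · obtain ⟨d, rfl⟩ := Nat.exists_eq_add_of_le h
    exact h4 i d
  · obtain ⟨d, rfl⟩ := Nat.exists_eq_add_of_le h
    exact ⟨fun h => ((h4 j d).1 (hR.symm h)).symm, fun h => hR.symm ((h4 j d).2 h.symm)⟩

theorem Line.shift (H : Fix G φ) {u : ℕ → V} (hu : Line φ u) (d i : ℕ) :
    G.Reachable (u i) (u (i + d)) ↔ G.Reachable (u 0) (u d) := by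
  induction i with
  | zero => rw [zero_add]
  | succ i ih => rw [← ih, add_right_comm]; exact (H.reach_iff (hu i) (hu (i + d))).symm

theorem Line.period (H : Fix G φ) {u : ℕ → V} (hu : Line φ u) {k : ℕ}
    (hk : G.Reachable (u 0) (u k))
    (hmin : ∀ d, 0 < d → d < k ∨ k = 0 → ¬ G.Reachable (u 0) (u d)) (i j : ℕ) :
    G.Reachable (u i) (u j) ↔ i ≡ j [MOD k] :=
  rel_iff_modEq (R := fun i j => G.Reachable (u i) (u j))
    ⟨fun _ => .refl _, fun h => h.symm, fun h h' => h.trans h'⟩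
    (fun i => (hu.shift H k i).2 hk) (fun i d h h' e => hmin d h h' ((hu.shift H d i).1 e)) i j

/-- From indexed data to a seed. -/
theorem good_of (D : ℕ → ℕ → Prop) (Λ : AddSubgroup (ℤ × ℤ)) (π α β : ℕ → ℕ → V)
    (d0 : ∀ θ, D θ 0) (d1 : ∀ θ n, D θ (n + 1) → D θ n)
    (hΛ : ∀ θ n θ' n', D θ n → D θ' n' → (π θ n = π θ' n' ↔ ((θ : ℤ) - θ', (n : ℤ) - n') ∈ Λ))
    (hφ : ∀ θ n, φ (π θ n) = s(α θ n, β θ n))
    (hβ : ∀ θ n θ' n', D θ n → D θ' n' → π θ n = π θ' n' → β θ n = β θ' n')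
    (h0 : ∀ θ, β θ 0 = π (θ + 1) 0)
    (h1 : ∀ θ n, D θ (n + 1) → α θ n = π θ (n + 1) ∧ β θ (n + 1) ∈ φ (β θ n))
    (h2 : ∀ θ n, D θ n → ¬ D θ (n + 1) →
      ∃ θ' n', D θ' n' ∧ n' ≤ n ∧ θ' + n' = θ + n + 1 ∧ α θ n = π θ' n')
    (h3 : ∀ θ n, ∃ θ' n', D θ' n' ∧ π θ' n' = β θ n) (hc : ∀ θ n, Cn φ v (π θ n)) :
    Good φ v := by
  have : ∀ x, ∃ y z, ∀ θ n, D θ n → π θ n = x → y = α θ n ∧ z = β θ n := by
    intro x
    by_cases hx : ∃ θ n, D θ n ∧ π θ n = x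
    · obtain ⟨θ, n, h, rfl⟩ := hx
      refine ⟨α θ n, β θ n, fun θ' n' h' e => ?_⟩
      have e1 := hβ _ _ _ _ h' h e
      have e2 := hφ θ n
      rw [← e, hφ, e1] at e2
      exact ⟨(Sym2.congr_left.1 e2).symm, e1.symm⟩
    · exact ⟨x, x, fun θ n h e => (hx ⟨θ, n, h, e⟩).elim⟩
  choose s t hst using this
  have hs : ∀ θ n, D θ n → s (π θ n) = α θ n := fun θ n h => (hst _ θ n h rfl).1
  have ht : ∀ θ n, D θ n → t (π θ n) = β θ n := fun θ n h => (hst _ θ n h rfl).2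
  refine ⟨_, s, t, ⟨D, Λ, π, d0, d1, rfl, hΛ, fun θ => by rw [ht _ _ (d0 θ), h0],
    fun θ n h => ⟨by rw [hs _ _ (d1 _ _ h), (h1 θ n h).1], ?_⟩, fun θ n h h' => ?_⟩,
    ⟨_, 0, 0, d0 0, rfl⟩, ?_⟩
  · obtain ⟨θ', n', a1, a2⟩ := h3 θ n
    have a3 := (h1 θ n h).2
    rw [← a2, hφ, Sym2.mem_iff] at a3
    rwa [ht _ _ h, ht _ _ (d1 _ _ h), ← a2, hs _ _ a1, ht _ _ a1]
  · rw [hs _ _ h]
    exact h2 θ n h h'
  · rintro _ ⟨θ, n, h, rfl⟩
    rw [hs _ _ h, ht _ _ h]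
    refine ⟨hc θ n, hφ θ n, ?_, h3 θ n⟩
    by_cases h' : D θ (n + 1)
    · exact ⟨θ, n + 1, h', (h1 θ n h').1.symm⟩
    · obtain ⟨θ', n', a1, -, -, a2⟩ := h2 θ n h h'
      exact ⟨θ', n', a1, a2.symm⟩

/-- The seed generated by a line that meets each component at one point. -/
theorem good_line (H : Fix G φ) {u : ℕ → V} (hu : Line φ u) (hv : Cn φ v (u 0)) (k : ℕ)
    (hper : ∀ i j, i ≡ j [MOD k] → u i = u j)
    (hR : ∀ i j, G.Reachable (u i) (u j) → i ≡ j [MOD k]) : Good φ v := by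
  have : ∀ x : V × V, ∃ y : V × V, x.2 ∈ φ x.1 →
      φ x.1 = s(y.1, x.2) ∧ y.2 ∈ φ y.1 ∧ y.2 ∈ φ x.2 := by
    intro x
    by_cases h : x.2 ∈ φ x.1
    · obtain ⟨a, ha⟩ := exists_other h
      obtain ⟨p, hp⟩ := H.common ha
      exact ⟨(a, p), fun _ => ⟨ha, hp⟩⟩
    · exact ⟨x, fun h' => (h h').elim⟩
  choose nx hnx using this
  let st : ℕ → ℕ → V × V := fun θ n => nx^[n] (u θ, u (θ + 1))
  have st1 : ∀ θ n, st θ (n + 1) = nx (st θ n) := fun θ n => iterate_succ_apply' _ _ _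
  have inv : ∀ θ n, (st θ n).2 ∈ φ (st θ n).1 := fun θ n => by
    induction n with
    | zero => exact hu θ
    | succ n ih => rw [st1]; exact (hnx _ ih).2.1
  have e1 : ∀ θ n, φ (st θ n).1 = s((st θ (n + 1)).1, (st θ n).2) := fun θ n => by
    rw [st1]; exact (hnx _ (inv θ n)).1
  have e2 : ∀ θ n, (st θ (n + 1)).2 ∈ φ (st θ n).2 := fun θ n => by
    rw [st1]; exact (hnx _ (inv θ n)).2.2
  have e3 : ∀ θ n, (st θ (n + 1)).1 ∈ φ (st θ n).1 := fun θ n => by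
    rw [e1]; exact Sym2.mem_mk_left _ _
  have w1 : ∀ n θ, ∃ θ' m, m ≤ n ∧ (st θ' m).1 = (st θ n).2 := fun n => by
    induction n using Nat.strong_induction_on with
    | _ n ih =>
      intro θ
      obtain _ | n := n
      · exact ⟨θ + 1, 0, le_rfl, rfl⟩
      obtain ⟨θ', m, hm, e⟩ := ih n n.lt_succ_self θ
      have h := e2 θ n
      rw [← e, e1, Sym2.mem_iff] at h
      rcases h with h | h
      · exact ⟨θ', m + 1, by omega, h.symm⟩
      · obtain ⟨θ'', m', hm', e'⟩ := ih m (by omega) θ'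
        exact ⟨θ'', m', by omega, e'.trans h.symm⟩
  let D : ℕ → ℕ → Prop := fun θ n => ∀ θ' m, m < n → (st θ' m).1 ≠ (st θ n).1
  have w2 : ∀ n θ, ∃ θ' m, m ≤ n ∧ D θ' m ∧ (st θ' m).1 = (st θ n).1 := fun n => by
    induction n using Nat.strong_induction_on with
    | _ n ih =>
      intro θ
      by_cases h : D θ n
      · exact ⟨θ, n, le_rfl, h, rfl⟩
      · simp only [D, not_forall, not_not] at h
        obtain ⟨θ', m, hm, e⟩ := h
        obtain ⟨θ'', m', hm', hD, e'⟩ := ih m hm θ'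
        exact ⟨θ'', m', by omega, hD, e'.trans e⟩
  have gr : ∀ θ n, G.Reachable (st θ n).1 (u (θ + n)) := fun θ n => by
    induction n with
    | zero => exact .refl _
    | succ n ih => exact (H.reach_iff (e3 θ n) (hu (θ + n))).1 ih
  have gr' : ∀ θ n θ' n', (st θ n).1 = (st θ' n').1 → θ + n ≡ θ' + n' [MOD k] :=
    fun θ n θ' n' e => hR _ _ ((gr θ n).symm.trans (e ▸ gr θ' n'))
  have per : ∀ θ θ', θ ≡ θ' [MOD k] → ∀ n, st θ n = st θ' n := fun θ θ' h n => by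
    simp only [st, hper _ _ h, hper _ _ (h.add_right 1)]
  have key : ∀ θ n θ' n', D θ n → D θ' n' → (st θ n).1 = (st θ' n').1 →
      n = n' ∧ θ ≡ θ' [MOD k] := fun θ n θ' n' h h' e => by
    obtain rfl : n = n' := le_antisymm (not_lt.1 fun l => h θ' n' l e.symm)
      (not_lt.1 fun l => h' θ n l e)
    exact ⟨rfl, Nat.ModEq.add_right_cancel' n (gr' _ _ _ _ e)⟩
  refine good_of D ((AddSubgroup.zmultiples (k : ℤ)).prod ⊥) (fun θ n => (st θ n).1)
    (fun θ n => (st θ (n + 1)).1) (fun θ n => (st θ n).2) (fun θ θ' m hm => by omega)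
    (fun θ n h θ' m hm e => ?_) (fun θ n θ' n' h h' => ?_) e1 (fun θ n θ' n' h h' e => ?_)
    (fun _ => rfl) (fun θ n _ => ⟨rfl, e2 θ n⟩) (fun θ n _ h => ?_) (fun θ n => ?_) fun θ n => ?_
  · have h1 := e3 θ n
    rw [← e, e1, Sym2.mem_iff] at h1
    rcases h1 with h1 | h1
    · exact h θ' (m + 1) (by omega) h1.symm
    · obtain ⟨θ'', m', hm', e'⟩ := w1 m θ'
      exact h θ'' m' (by omega) (e'.trans h1.symm)
  · rw [AddSubgroup.mem_prod, AddSubgroup.mem_bot, Int.mem_zmultiples_iff, sub_eq_zero,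
      Nat.cast_inj, ← Nat.modEq_iff_dvd]
    refine ⟨fun e => ⟨(key _ _ _ _ h h' e).2.symm, (key _ _ _ _ h h' e).1⟩, ?_⟩
    rintro ⟨h1, rfl⟩
    exact congrArg Prod.fst (per _ _ h1.symm n)
  · obtain ⟨rfl, h1⟩ := key _ _ _ _ h h' e
    exact congrArg Prod.snd (per _ _ h1 n)
  · simp only [D, not_forall, not_not] at h
    obtain ⟨θ', m, hm, e⟩ := h
    obtain ⟨θ'', m', hm', hD, e'⟩ := w2 m θ'
    have h1 := gr' _ _ _ _ (e'.trans e)
    have h2 : θ + n + 1 - m' ≡ θ'' [MOD k] := by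
      refine Nat.ModEq.add_right_cancel' m' ?_
      rw [Nat.sub_add_cancel (by omega)]
      exact h1.symm
    refine ⟨θ + n + 1 - m', m', fun a b hb => ?_, by omega, by omega, ?_⟩
    · rw [per _ _ h2]
      exact hD a b hb
    · rw [per _ _ h2]
      exact (e'.trans e).symm
  · obtain ⟨θ', m, -, e⟩ := w1 n θ
    obtain ⟨θ'', m', -, hD, e'⟩ := w2 m θ'
    exact ⟨θ'', m', hD, e'.trans e⟩
  · induction n with
    | zero => exact hu.cn hv θ
    | succ n ih => exact ih.par (e3 θ n)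

end Pool.Agent.P.MP_4d6a7f_co
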